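import Pool.Agent.TH600.LC.Reduce

/-!
# Translation
-/

set_option autoImplicit false

namespace Pool.Agent.TH600.LC

open Finset
open Pool.Agent.TH143 (PolODE)

/-- Translation of functions. -/
def tr (z₀ : ℂ) : (ℂ → ℂ) →ₐ[ℂ] (ℂ → ℂ) where
  toFun := fun f z => f (z + z₀)
  map_one' := rfl
  map_mul' := fun _ _ => rfl
  map_zero' := rfl
  map_add' := fun _ _ => rfl
  commutes' := fun _ => rfl

theorem tr_apply (z₀ : ℂ) (f : ℂ → ℂ) (z : ℂ) : tr z₀ f z = f (z + z₀) := rfl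

theorem tr_neg (z₀ : ℂ) (f : ℂ → ℂ) : tr (-z₀) (tr z₀ f) = f := by
  funext z
  rw [tr_apply, tr_apply, neg_add_cancel_right]

theorem tr_neg' (z₀ : ℂ) (f : ℂ → ℂ) : tr z₀ (tr (-z₀) f) = f := by
  funext z
  rw [tr_apply, tr_apply, add_neg_cancel_right]

theorem tr_diff (z₀ : ℂ) {f : ℂ → ℂ} (hf : Differentiable ℂ f) : Differentiable ℂ (tr z₀ f) :=
  hf.comp (differentiable_id.add_const _)

theorem tr_iter (z₀ : ℂ) (f : ℂ → ℂ) (k : ℕ) (z : ℂ) :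
    iteratedDeriv k (tr z₀ f) z = iteratedDeriv k f (z + z₀) := by
  have h1 : tr z₀ f = fun z => f (z + z₀) := rfl
  rw [h1, iteratedDeriv_comp_add_const]

theorem tr_gaps {z₀ : ℂ} {g : ℂ → ℂ} (hg : HadamardGaps z₀ g) : HadamardGaps 0 (tr z₀ g) := by
  obtain ⟨hg, q, m, hq, hm, hgm⟩ := hg
  refine ⟨tr_diff z₀ hg, q, m, hq, hm, fun k hk => hgm k ?_⟩
  rwa [tr_iter, zero_add] at hk

theorem gapOver_translate {Y : Set (ℂ → ℂ)} {z₀ : ℂ} {f : ℂ → ℂ} (hf : f ∈ GapOver Y z₀) :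
    tr z₀ f ∈ GapOver (tr z₀ '' Y) 0 := by
  have h1 : tr z₀ f ∈ (GapOver Y z₀).map (tr z₀) := ⟨f, hf, rfl⟩
  rw [GapOver, AlgHom.map_adjoin] at h1
  refine (Algebra.adjoin_mono ?_) h1
  rintro _ ⟨g, hg | hg, rfl⟩
  · exact Or.inl ⟨g, hg, rfl⟩
  · exact Or.inr (tr_gaps hg)

/-- change of variable in the coefficients -/
noncomputable def trP (z₀ : ℂ) : Polynomial ℂ →+* Polynomial ℂ :=
  Polynomial.compRingHom (Polynomial.X + Polynomial.C z₀)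

theorem trP_eval (z₀ : ℂ) (p : Polynomial ℂ) (z : ℂ) : (trP z₀ p).eval z = p.eval (z + z₀) := by
  rw [trP, Polynomial.coe_compRingHom_apply, Polynomial.eval_comp]
  simp

theorem trP_inj (z₀ : ℂ) : Function.Injective (trP z₀) := by
  intro p q h
  apply Polynomial.funext
  intro z
  have h1 := congrArg (Polynomial.eval (z - z₀)) h
  rwa [trP_eval, trP_eval, sub_add_cancel] at h1

theorem tr_dAlg (z₀ : ℂ) {u : ℂ → ℂ} (hu : DAlg u) : DAlg (tr z₀ u) := by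
  obtain ⟨n, P, hP, h⟩ := hu
  refine ⟨n, MvPolynomial.map (trP z₀) P, ?_, fun z => ?_⟩
  · intro h0
    apply hP
    apply MvPolynomial.map_injective _ (trP_inj z₀)
    rw [h0, map_zero]
  · rw [MvPolynomial.eval₂_map]
    have h1 : (Polynomial.evalRingHom z).comp (trP z₀) = Polynomial.evalRingHom (z + z₀) := by
      apply RingHom.ext
      intro p
      exact trP_eval z₀ p z
    have h2 : (fun i : Fin n => iteratedDeriv i (tr z₀ u) z) =
        fun i : Fin n => iteratedDeriv i u (z + z₀) := funext fun i => tr_iter z₀ u i z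
    rw [h1, h2]
    exact h (z + z₀)

theorem tr_dFin (z₀ : ℂ) {u : ℂ → ℂ} (hu : u ∈ DFin) : tr z₀ u ∈ DFin := by
  obtain ⟨hd, m, a, ⟨k, hk, hak⟩, h⟩ := hu
  refine ⟨tr_diff z₀ hd, m, fun k => trP z₀ (a k), ⟨k, hk, ?_⟩, fun z => ?_⟩
  · intro h0
    exact hak (trP_inj z₀ (h0.trans (map_zero _).symm))
  · simp only [trP_eval, tr_iter]
    exact h (z + z₀)

theorem tr_coef {Y : Set (ℂ → ℂ)} {z₀ : ℂ} {u : ℂ → ℂ} (hu : u ∈ CoefRing (tr z₀ '' Y)) :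
    tr (-z₀) u ∈ CoefRing Y := by
  have h1 : tr (-z₀) u ∈ (CoefRing (tr z₀ '' Y)).map (tr (-z₀)) := ⟨u, hu, rfl⟩
  rw [CoefRing, AlgHom.map_adjoin] at h1
  refine (Algebra.adjoin_le ?_) h1
  rintro _ ⟨g, hg | ⟨v, hv, rfl⟩, rfl⟩
  · have h2 : tr (-z₀) g = fun z => (Polynomial.X - Polynomial.C z₀ : Polynomial ℂ).eval z := by
      funext z
      rw [hg, tr_apply]
      simp [sub_eq_add_neg]
    rw [h2]
    exact poly_mem_coef Y _
  · rw [tr_neg]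
    exact Algebra.subset_adjoin (Set.mem_insert_of_mem _ hv)

/-! ### Closure and translation -/

open Pool.Agent.TH143.GT in
theorem genPt_tr {n : ℕ} {f : ℂ → Fin (n + 1) → ℂ} (z₀ : ℂ) {K : Type} [Field K] [Algebra ℂ K]
    {w : ℕ} {y : Fin (n + 1) → K} (hy : GenPt f Set.univ K w y) :
    GenPt (fun z => f (z + z₀)) Set.univ K w y := by
  refine ⟨hy.ne, hy.gen, hy.dim, fun G hG => (hy.rel G hG).trans ?_⟩
  constructor
  · intro h z _
    exact h _ (Set.mem_univ _)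
  · intro h z _
    have h1 := h (z - z₀) (Set.mem_univ _)
    rwa [sub_add_cancel] at h1

/-- **Dichotomy** for an arbitrary centre. -/
theorem dichotomy {Y : Set (ℂ → ℂ)} (hY : ∀ u ∈ Y, Differentiable ℂ u ∧ DAlg u) {z₀ : ℂ} {n : ℕ}
    {h : ℂ → Fin (n + 1) → ℂ} (hh : ∀ j, (fun z => h z j) ∈ GapOver Y z₀) (h0 : ∃ z, h z ≠ 0)
    {K : Type} [Field K] [Algebra ℂ K] {w : ℕ} {y : Fin (n + 1) → K}
    (hy : Pool.Agent.TH143.GT.GenPt h Set.univ K w y) :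
    (Pool.Agent.TH143.GT.Covered K ∧ ∃ r : K, ¬ Pool.Agent.TH143.GT.AllFlat 1 y r) ∨
      ∃ u : ℂ → Fin (n + 1) → ℂ, (∀ j, (fun z => u z j) ∈ CoefRing Y) ∧ (∃ z, u z ≠ 0) ∧
        ∀ z j k, u z j * h z k = u z k * h z j := by
  have hY' : ∀ u ∈ tr z₀ '' Y, Differentiable ℂ u ∧ DAlg u := by
    rintro _ ⟨u, hu, rfl⟩
    exact ⟨tr_diff z₀ (hY u hu).1, tr_dAlg z₀ (hY u hu).2⟩
  obtain ⟨s, m, ⟨D⟩⟩ := exists_pfm (f := fun z => h (z + z₀)) hY'
    (fun j => gapOver_translate (hh j))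
  rcases D.dichotomy (fun u hu => (hY' u hu).1) (by
    obtain ⟨z, hz⟩ := h0
    exact ⟨z - z₀, by rwa [sub_add_cancel]⟩) (genPt_tr z₀ hy) with h1 | ⟨u, h1, ⟨z1, h2⟩, h3⟩
  · exact Or.inl h1
  · right
    refine ⟨fun z => u (z + -z₀), fun j => tr_coef (h1 j), ⟨z1 - -z₀, by
      beta_reduce
      rwa [sub_add_cancel]⟩, fun z j k => ?_⟩
    have h4 := h3 (z + -z₀) j k
    rwa [neg_add_cancel_right] at h4

/-- **Reduction to curves given by linear differential equations**, for an arbitrary centre. -/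
theorem exists_dfin_tr {Y : Set (ℂ → ℂ)} (hY : Y ⊆ DFin) {z₀ : ℂ} {n : ℕ} {h : ℂ → Fin n → ℂ}
    (hh : ∀ j, (fun z => h z j) ∈ GapOver Y z₀) :
    ∃ u : ℂ → Fin n → ℂ, (∀ j, (fun z => u z j) ∈ DFin) ∧
      ∀ G : MvPolynomial (Fin n) ℂ, (∃ e, G.IsHomogeneous e) →
        ((∀ z, MvPolynomial.eval (h z) G = 0) ↔ ∀ z, MvPolynomial.eval (u z) G = 0) := by
  obtain ⟨u, h1, h2⟩ := exists_dfin (Y := tr z₀ '' Y) (by
    rintro _ ⟨u, hu, rfl⟩
    exact tr_dFin z₀ (hY hu)) (h := fun z => h (z + z₀)) (fun j => gapOver_translate (hh j))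
  refine ⟨u, h1, fun G hG => ?_⟩
  rw [← h2 G hG]
  constructor
  · intro h3 z
    exact h3 _
  · intro h3 z
    have h4 := h3 (z - z₀)
    rwa [sub_add_cancel] at h4

theorem gapOver_diff {Y : Set (ℂ → ℂ)} (hY : ∀ u ∈ Y, Differentiable ℂ u) {z₀ : ℂ} {u : ℂ → ℂ}
    (hu : u ∈ GapOver Y z₀) : Differentiable ℂ u := by
  refine differentiable_of_mem ?_ hu
  rintro v (hv | hv)
  · exact hY v hv
  · exact hv.1

end Pool.Agent.TH600.LC
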