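import Pool.Agent.TH143.HE.PCur

/-!
# Polynomial sequences of points on rational curves

Adapted from `Pool.Agent.TH143.HE.PCur` (helper143).
-/

set_option autoImplicit false

namespace Pool.Agent.TH600.LC

open MvPolynomial Filter Pool.Agent.TH143 Pool.Agent.TH143.HE

variable {N : ℕ} {R : Type} [CommRing R]

/-- A sequence given by a polynomial. -/
def PolySeq {L : Type} [Field L] (x : ℕ → L) : Prop :=
  ∃ p : Polynomial L, ∀ m : ℕ, x m = p.eval (m : L)

theorem PolySeq.pRec {L : Type} [Field L] [CharZero L] {x : ℕ → L} (h : PolySeq x) : PRec x := by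
  obtain ⟨p, hp⟩ := h
  have h1 := PRec_poly p 0
  have h2 : (fun m : ℕ => p.eval ((m + 0 : ℕ) : L)) = x := by
    funext m
    rw [Nat.add_zero, hp m]
  rwa [h2] at h1

theorem polySeq_shift {L : Type} [Field L] (p : Polynomial L) (s : ℕ) :
    PolySeq fun m : ℕ => p.eval ((m + s : ℕ) : L) := by
  refine ⟨p.comp (Polynomial.X + Polynomial.C (s : L)), fun m => ?_⟩
  rw [Polynomial.eval_comp, Polynomial.eval_add, Polynomial.eval_X, Polynomial.eval_C]
  push_cast
  rfl

/-- **The sequence** of points on a rational curve. -/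
theorem exists_seq_poly {L : Type} [Field L] [CharZero L] (φ : R →+* L)
    {I I' : Ideal (MvPolynomial (Fin (N + 1)) R)} {p : Fin (N + 1) → Polynomial L}
    (h : RCur φ I I' p) :
    ∃ x : ℕ → Fin (N + 1) → L, (∀ m, x m ≠ 0) ∧ (∀ m, IsPtP φ I (x m)) ∧
      (∀ m, ¬ IsPtP φ I' (x m)) ∧ (∀ j, PolySeq fun m => x m j) ∧
      ∀ v : Fin (N + 1) → L, v ≠ 0 → {m | ∀ i j, x m i * v j = x m j * v i}.Finite := by
  classical
  obtain ⟨h1, ⟨G', hG', hGh, hne⟩, hnc⟩ := h
  have hinj : ∀ s : ℕ, Function.Injective fun m : ℕ => ((m + s : ℕ) : L) := by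
    intro s a b hab
    have := Nat.cast_injective hab
    omega
  have hfin : ∀ (q : Polynomial L), q ≠ 0 → ∀ s : ℕ,
      {m : ℕ | q.eval ((m + s : ℕ) : L) = 0}.Finite := by
    intro q hq s
    have h2 : {z : L | q.IsRoot z}.Finite := Polynomial.finite_setOfPred_isRoot hq
    exact h2.preimage (hinj s).injOn
  have hnc' := (nc_iff p).1 hnc
  obtain ⟨j0, k0, u0, v0, huv⟩ := hnc'
  have hj0 : p j0 ≠ 0 ∨ p k0 ≠ 0 := by
    by_contra hcon
    push Not at hcon
    apply huv
    rw [hcon.1, hcon.2]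
  obtain ⟨k1, hk1⟩ : ∃ k, p k ≠ 0 := by
    rcases hj0 with h2 | h2
    · exact ⟨_, h2⟩
    · exact ⟨_, h2⟩
  obtain ⟨s, hs⟩ : ∃ s : ℕ, ∀ m, s ≤ m → (p k1).eval (m : L) ≠ 0 ∧
      (eval₂ (Polynomial.C.comp φ) p G').eval (m : L) ≠ 0 := by
    have h2 := (hfin _ hk1 0).compl_mem_cofinite
    have h3 := (hfin _ hne 0).compl_mem_cofinite
    rw [Nat.cofinite_eq_atTop] at h2 h3
    exact eventually_atTop.1 (Filter.Eventually.and h2 h3)
  refine ⟨fun m j => (p j).eval ((m + s : ℕ) : L), fun m h0 => ?_, fun m G hG hGf => ?_,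
    fun m hcon => ?_, fun j => polySeq_shift (p j) s, fun v hv => ?_⟩
  · exact (hs (m + s) (by omega)).1 (congrFun h0 k1)
  · rw [← eval₂_eval, h1 G hG hGf, Polynomial.eval_zero]
  · apply (hs (m + s) (by omega)).2
    rw [eval₂_eval]
    exact hcon G' hG' hGh
  · -- a nonzero minor
    obtain ⟨i, j, hij⟩ : ∃ i j, p i * Polynomial.C (v j) - p j * Polynomial.C (v i) ≠ 0 := by
      by_contra hcon
      push Not at hcon
      obtain ⟨k, hk⟩ := Function.ne_iff.1 hv
      have hk' : v k ≠ 0 := hk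
      apply huv
      have h2 : ∀ i u, (p i).eval u = (p k).eval u * (v i / v k) := by
        intro i u
        have h3 := congrArg (Polynomial.eval u) (hcon i k)
        simp only [Polynomial.eval_sub, Polynomial.eval_mul, Polynomial.eval_C,
          Polynomial.eval_zero] at h3
        rw [mul_div_assoc', eq_div_iff hk']
        linear_combination h3
      rw [h2 j0 u0, h2 k0 v0, h2 k0 u0, h2 j0 v0]
      ring
    refine (hfin _ hij s).subset fun m hm => ?_
    have h3 := hm i j
    change Polynomial.eval _ _ = 0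
    rw [Polynomial.eval_sub, Polynomial.eval_mul, Polynomial.eval_mul, Polynomial.eval_C,
      Polynomial.eval_C, sub_eq_zero]
    exact h3

end Pool.Agent.TH600.LC
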