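import Pool.Agent.TH600.LC.Lang
import Pool.Agent.TH600.LC.Seq
import Pool.Agent.TH143.HE.Desc

/-!
# Affine schemes: curves with coordinates in the gap ring and affine lines

`exists_seq_aff` is adapted from `Pool.Agent.TH143.HE.Desc` (helper143).
-/

set_option autoImplicit false

namespace Pool.Agent.TH600.LC

open MvPolynomial Filter Pool.Agent.TH143 Pool.Agent.TH143.HE IsDedekindDomain NumberField

section general

variable {n : ℕ} {R : Type} [CommRing R]

/-- All nonconstant morphisms from the affine line to the variety of `I` have their image in the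
variety of `I'`. -/
def A1CurvesIn (φ : R →+* ℂ) (I I' : Ideal (MvPolynomial (Fin n) R)) : Prop :=
  ∀ p : Fin n → Polynomial ℂ, (∀ u, IsPt φ I (fun j => (p j).eval u)) →
    (∃ u v j, (p j).eval u ≠ (p j).eval v) → ∀ u, IsPt φ I' (fun j => (p j).eval u)

theorem cur0_iff {A : Type} [Field A] [Infinite A] (φ : R →+* A) (p : Fin n → Polynomial A)
    (G : MvPolynomial (Fin n) R) :
    cur φ 0 p G = 0 ↔ ∀ u, eval₂ φ (fun j => (p j).eval u) G = 0 := by
  have h0 : ∀ u, (eval₂ (Polynomial.C.comp φ) p G).eval u =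
      eval₂ φ (fun j => (p j).eval u) G := by
    intro u
    rw [← Polynomial.coe_evalRingHom, eval₂_comp_left]
    congr 1
    ext r
    simp
  rw [cur_zero_iff]
  constructor
  · intro h u
    have h1 : eval₂ (Polynomial.C.comp φ) p G = 0 := by
      apply Polynomial.eq_zero_of_infinite_isRoot
      refine Set.Infinite.mono (s := {u : A | u ≠ 0}) ?_
        (Set.finite_singleton (0 : A)).infinite_compl
      intro u hu
      change Polynomial.eval u _ = 0
      rw [h0]
      have h2 := h u hu
      simpa only [pow_zero, div_one] using h2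
    rw [← h0, h1, Polynomial.eval_zero]
  · intro h u _
    simpa only [pow_zero, div_one] using h u

theorem nc0_iff {A : Type} [Field A] [Infinite A] (p : Fin n → Polynomial A) :
    (∃ u v j, (p j).eval u ≠ (p j).eval v) ↔ ∃ j i, i ≠ 0 ∧ (p j).coeff i ≠ 0 := by
  constructor
  · rintro ⟨u, v, j, h⟩
    by_contra hcon
    push Not at hcon
    apply h
    have h1 : p j = Polynomial.C ((p j).coeff 0) := by
      ext i
      rw [Polynomial.coeff_C]
      by_cases hi : i = 0
      · rw [if_pos hi, hi]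
      · rw [if_neg hi, hcon j i hi]
    rw [h1, Polynomial.eval_C, Polynomial.eval_C]
  · rintro ⟨j, i, hi, hc⟩
    by_contra hcon
    push Not at hcon
    have h1 : p j = Polynomial.C ((p j).eval 0) := Polynomial.funext fun u => by
      rw [Polynomial.eval_C]
      exact hcon u 0 j
    apply hc
    rw [h1, Polynomial.coeff_C, if_neg hi]

theorem a1CurvesIn_iff {φ : R →+* ℂ} {I I' : Ideal (MvPolynomial (Fin n) R)} :
    A1CurvesIn φ I I' ↔ ∀ p : Fin n → Polynomial ℂ, ¬ Cur φ I I' 0 p := by
  constructor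
  · rintro h p ⟨h1, ⟨G', hG', hne⟩, hc⟩
    apply hne
    rw [cur0_iff]
    intro u
    exact h p (fun u G hG => (cur0_iff φ p G).1 (h1 G hG) u) ((nc0_iff p).2 hc) u G' hG'
  · intro h p h1 h2 u G' hG'
    by_contra hne
    exact h p ⟨fun G hG => (cur0_iff φ p G).2 fun u => h1 u G hG,
      ⟨G', hG', fun h0 => hne ((cur0_iff φ p G').1 h0 u)⟩, (nc0_iff p).1 h2⟩

/-- The image of every nonconstant entire curve in the variety of `I`, with coordinates in the
ring generated by the entire functions with Hadamard gaps at some point, lies in the variety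
of `I'`. -/
def AffGapCurvesIn (φ : R →+* ℂ) (I I' : Ideal (MvPolynomial (Fin n) R)) : Prop :=
  ∀ f : ℂ → Fin n → ℂ, (∀ j, Differentiable ℂ (fun z => f z j)) →
    (∃ z₀, ∀ j, (fun z => f z j) ∈ GapRing z₀) →
    (∀ z, IsPt φ I (f z)) → (∃ z z', f z ≠ f z') → ∀ z, IsPt φ I' (f z)

theorem affGap_of_a1 {φ : R →+* ℂ} {I I' : Ideal (MvPolynomial (Fin n) R)}
    (h : A1CurvesIn φ I I') : AffGapCurvesIn φ I I' := by
  rintro f hf ⟨z₀, hgap⟩ hX ⟨z1, w1, hnc⟩ z G' hG'
  have hpt : ∀ (J : Ideal (MvPolynomial (Fin n) R)) (x : Fin n → ℂ), IsPt φ J x ↔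
      ∀ G ∈ (MvPolynomial.map φ '' (J : Set (MvPolynomial (Fin n) R))), eval x G = 0 := by
    intro J x
    constructor
    · rintro hx _ ⟨G, hG, rfl⟩
      rw [eval_map]
      exact hx G hG
    · intro hx G hG
      rw [← eval_map]
      exact hx _ ⟨G, hG, rfl⟩
  have h1 := affine_main (MvPolynomial.map φ '' (I : Set (MvPolynomial (Fin n) R)))
    (MvPolynomial.map φ '' (I' : Set (MvPolynomial (Fin n) R))) (fun p hp hpn u => ?_)
    (f := fun z => f (z + z₀)) (fun j => gapRing_translate (hgap j))
    (fun j => (hf j).comp (differentiable_id.add_const _)) (fun z => (hpt I _).1 (hX _))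
    ⟨z1 - z₀, w1 - z₀, by rwa [sub_add_cancel, sub_add_cancel]⟩ (z - z₀) (MvPolynomial.map φ G')
    ⟨G', hG', rfl⟩
  · rwa [sub_add_cancel, eval_map] at h1
  · exact (hpt I' _).1 (h p (fun u => (hpt I _).2 (hp u)) hpn u)

theorem a1_of_affGap {φ : R →+* ℂ} {I I' : Ideal (MvPolynomial (Fin n) R)}
    (h : AffGapCurvesIn φ I I') : A1CurvesIn φ I I' := by
  rintro p hp ⟨u, v, j, hne⟩ w
  exact h (fun z j => (p j).eval z) (fun j => (p j).differentiable) ⟨0, fun j => poly_mem (p j)⟩
    hp ⟨u, v, fun h0 => hne (congrFun h0 j)⟩ w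

end general

/-- **The sequence.** -/
theorem exists_seq_aff {n : ℕ} {L : Type} [Field L] [NumberField L] {R : Type} [CommRing R]
    (φ : R →+* L) {I I' : Ideal (MvPolynomial (Fin n) R)} {p : Fin n → Polynomial L}
    (h : Cur φ I I' 0 p) :
    ∃ (S : Set (HeightOneSpectrum (𝓞 L))) (x : ℕ → Fin n → L), S.Finite ∧
      (∀ m j, x m j ∈ S.integer L) ∧ (∀ m, IsPt φ I (x m)) ∧ (∀ m, ¬ IsPt φ I' (x m)) ∧
      (∀ j, PolySeq fun m => x m j) ∧ ¬ (Set.range x).Finite := by
  classical
  obtain ⟨h1, ⟨G', hG', hne⟩, hc⟩ := h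
  obtain ⟨j0, i0, hi0, hc0⟩ := hc
  have hinj : ∀ s : ℕ, Function.Injective fun m : ℕ => ((m + s : ℕ) : L) := by
    intro s a b hab
    have := Nat.cast_injective hab
    omega
  have hfin : ∀ (q : Polynomial L), q ≠ 0 → ∀ s : ℕ,
      {m : ℕ | q.eval ((m + s : ℕ) : L) = 0}.Finite := by
    intro q hq s
    have h2 : {z : L | q.IsRoot z}.Finite := Polynomial.finite_setOfPred_isRoot hq
    exact h2.preimage (hinj s).injOn
  -- a shift
  let g : Polynomial L := eval₂ (Polynomial.C.comp φ) p G'
  have hg : ∀ u, g.eval u = eval₂ φ (fun j => (p j).eval u) G' := by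
    intro u
    simp only [g]
    rw [← Polynomial.coe_evalRingHom, eval₂_comp_left]
    congr 1
    ext r
    simp
  have hg0 : g ≠ 0 := by
    intro h0
    apply hne
    rw [cur0_iff]
    intro u
    rw [← hg, h0, Polynomial.eval_zero]
  obtain ⟨s, hs⟩ : ∃ s : ℕ, ∀ m, s ≤ m → g.eval (m : L) ≠ 0 := by
    have h3 := (hfin _ hg0 0).compl_mem_cofinite
    rw [Nat.cofinite_eq_atTop] at h3
    exact eventually_atTop.1 h3
  let x : ℕ → Fin n → L := fun m j => (p j).eval ((m + s : ℕ) : L)
  let S : Set (HeightOneSpectrum (𝓞 L)) :=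
    ⋃ c ∈ (Finset.univ.biUnion fun j => (p j).coeffs : Finset L),
        HeightOneSpectrum.Support (𝓞 L) c
  have hSfin : S.Finite :=
    (Finset.finite_toSet _).biUnion fun c _ => HeightOneSpectrum.Support.finite _ _
  have hcS : ∀ j i, (p j).coeff i ∈ S.integer L := by
    intro j i
    by_cases hz : (p j).coeff i = 0
    · rw [hz]
      exact (S.integer L).zero_mem
    · intro v hv
      by_contra hcon
      rw [not_le] at hcon
      refine hv (Set.mem_biUnion (x := (p j).coeff i) ?_ hcon)
      exact Finset.mem_biUnion.2 ⟨j, Finset.mem_univ _, Polynomial.coeff_mem_coeffs hz⟩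
  refine ⟨S, x, hSfin, fun m j => ?_, fun m => ?_, fun m => ?_, fun j => polySeq_shift (p j) s,
    fun hfin' => ?_⟩
  · simp only [x]
    rw [Polynomial.eval_eq_sum_range]
    exact (S.integer L).sum_mem fun i _ => (S.integer L).mul_mem (hcS j i)
      ((S.integer L).pow_mem ((S.integer L).natCast_mem _) _)
  · intro G hG
    exact (cur0_iff φ p G).1 (h1 G hG) _
  · intro hcon
    apply hs (m + s) (by omega)
    rw [hg]
    exact hcon G' hG'
  · -- a value taken infinitely often
    obtain ⟨y, hy⟩ : ∃ y, ¬ (x ⁻¹' {y}).Finite := by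
      by_contra hcon
      push Not at hcon
      have h3 := hfin'.preimage' (f := x) fun b _ => by
        have := hcon b
        simpa using this
      rw [Set.preimage_range] at h3
      exact Set.infinite_univ h3
    have h3 : p j0 = Polynomial.C (y j0) := by
      by_contra hcon
      apply hy
      refine (hfin _ (sub_ne_zero.2 hcon) s).subset fun m hm => ?_
      have h4 : x m = y := hm
      change Polynomial.eval _ _ = 0
      rw [Polynomial.eval_sub, Polynomial.eval_C, ← h4]
      exact sub_self _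
    apply hc0
    rw [h3, Polynomial.coeff_C, if_neg hi0]

end Pool.Agent.TH600.LC
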