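import Pool.Agent.TH600.LC.Main
import Pool.Agent.TH143.HE.PCur

/-!
# Varieties over number fields: curves with coordinates in the gap ring

The definitions of the arithmetic conditions and the implications between them follow
`MP_f82ddf_nt.HolonomicLang` (helper143).
-/

set_option autoImplicit false

namespace Pool.Agent.TH600.LC

open MvPolynomial Pool.Agent.TH143 Pool.Agent.TH143.HE
open scoped LinearAlgebra.Projectivization

section general

variable {N : ℕ} {R : Type} [CommRing R]

/-- The curve `f` in the projective space is given by functions in the ring generated by the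
entire functions with Hadamard gaps at some point `z₀`: after multiplication by an entire function
`c`, its homogeneous coordinates belong to this ring. -/
def GapCurve (f : ℂ → Fin (N + 1) → ℂ) : Prop :=
  ∃ (z₀ : ℂ) (c : ℂ → ℂ), Differentiable ℂ c ∧ (∃ z, c z ≠ 0) ∧
    ∀ j, (fun z => c z * f z j) ∈ GapRing z₀

/-- All nonconstant entire curves in the variety of `I`, with homogeneous coordinates in the ring
generated by the entire functions with Hadamard gaps, have their image in the variety of `I'`. -/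
def GapCurvesIn (φ : R →+* ℂ) (I I' : Ideal (MvPolynomial (Fin (N + 1)) R)) : Prop :=
  ∀ f : ℂ → Fin (N + 1) → ℂ, (∀ j, Differentiable ℂ (fun z => f z j)) → (∀ z, f z ≠ 0) →
    GapCurve f → (∀ z, IsPtP φ I (f z)) → NonConstC f → ∀ z, IsPtP φ I' (f z)

/-- the forms of an ideal, over `ℂ` -/
def forms (φ : R →+* ℂ) (I : Ideal (MvPolynomial (Fin (N + 1)) R)) :
    Set (MvPolynomial (Fin (N + 1)) ℂ) :=
  {G | ∃ H ∈ I, (∃ d, H.IsHomogeneous d) ∧ G = MvPolynomial.map φ H}

theorem forms_homog {φ : R →+* ℂ} {I : Ideal (MvPolynomial (Fin (N + 1)) R)} :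
    ∀ G ∈ forms φ I, ∃ d, G.IsHomogeneous d := by
  rintro _ ⟨H, -, ⟨d, hd⟩, rfl⟩
  exact ⟨d, hd.map φ⟩

theorem isPtP_forms {φ : R →+* ℂ} {I : Ideal (MvPolynomial (Fin (N + 1)) R)}
    {x : Fin (N + 1) → ℂ} : IsPtP φ I x ↔ ∀ G ∈ forms φ I, eval x G = 0 := by
  constructor
  · rintro h _ ⟨H, hH, hd, rfl⟩
    rw [eval_map]
    exact h H hH hd
  · intro h H hH hd
    rw [← eval_map]
    exact h _ ⟨H, hH, hd, rfl⟩

/-- If all rational curves lie in `Z` then all curves of the gap ring lie in `Z`. -/
theorem gap_of_rat {φ : R →+* ℂ} {I I' : Ideal (MvPolynomial (Fin (N + 1)) R)}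
    (h : RatCurvesIn φ I I') : GapCurvesIn φ I I' := by
  rintro f hf hne ⟨z₀, c, hc, hc0, hcf⟩ hX ⟨z1, w1, j1, k1, hnc⟩ z
  rw [isPtP_forms]
  have hadd : ∀ {g : ℂ → ℂ}, Differentiable ℂ g → Differentiable ℂ fun z => g (z + z₀) :=
    fun hg => hg.comp (differentiable_id.add_const _)
  have h1 := proj_main (forms φ I) (forms φ I') forms_homog forms_homog (fun p hp hpn => ?_)
    (f := fun z => f (z + z₀)) (fun j => hadd (hf j)) (fun z => hne _)
    (c := fun z => c (z + z₀)) (hadd hc) ?_ (fun j => gapRing_translate (hcf j)) (fun z => ?_) ?_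
    (z - z₀)
  · rwa [sub_add_cancel] at h1
  · intro u
    obtain ⟨j, k, u', v, hne⟩ := hpn
    exact isPtP_forms.1 (h p (fun u => isPtP_forms.2 (hp u)) ⟨j, k, u', v, hne⟩ u)
  · obtain ⟨z, hz⟩ := hc0
    exact ⟨z - z₀, by rwa [sub_add_cancel]⟩
  · exact isPtP_forms.1 (hX _)
  · exact ⟨z1 - z₀, w1 - z₀, j1, k1, by rwa [sub_add_cancel, sub_add_cancel]⟩

/-- Polynomials belong to the ring. -/
theorem poly_mem (p : Polynomial ℂ) : (fun z => p.eval z) ∈ GapRing 0 := by
  have hX : (fun z : ℂ => z) ∈ GapRing 0 := by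
    refine Algebra.subset_adjoin ⟨differentiable_id, 2, fun j => 2 ^ j, by norm_num,
      fun j => by push_cast; rw [pow_succ]; linarith, fun k hk => ⟨0, ?_⟩⟩
    by_contra hne
    apply hk
    change ¬ k = 2 ^ 0 at hne
    rw [pow_zero] at hne
    rcases Nat.eq_zero_or_pos k with h0 | h0
    · subst h0
      rw [iteratedDeriv_zero]
    · have h2 : 1 < k := by omega
      obtain ⟨l, rfl⟩ : ∃ l, k = l + 2 := ⟨k - 2, by omega⟩
      rw [iteratedDeriv_succ']
      have h3 : deriv (fun z : ℂ => z) = fun _ => 1 := by funext z; simp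
      rw [h3, iteratedDeriv_succ', deriv_const']
      simp [iteratedDeriv_const]
  have h2 : (fun z => p.eval z) = Polynomial.aeval (fun z : ℂ => z) p := by
    funext z
    induction p using Polynomial.induction_on' with
    | add p q hp hq => simp only [Polynomial.eval_add, map_add, Pi.add_apply, hp, hq]
    | monomial n a => simp [Polynomial.aeval_monomial]
  rw [h2]
  exact Polynomial.aeval_mem_adjoin_singleton ℂ _ |> fun h =>
    (Algebra.adjoin_le (Set.singleton_subset_iff.2 hX)) h

theorem rat_of_gap {φ : R →+* ℂ} {I I' : Ideal (MvPolynomial (Fin (N + 1)) R)}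
    (h : GapCurvesIn φ I I') : RatCurvesIn φ I I' := by
  classical
  intro p hp hnc u0 G' hG' hGh
  -- remove the common zeros
  obtain ⟨j0, k0, u1, v1, hne⟩ := hnc
  obtain ⟨q, hq, hqg⟩ := Finset.extract_gcd (s := (Finset.univ : Finset (Fin (N + 1)))) p
    ⟨0, Finset.mem_univ _⟩
  set g := Finset.univ.gcd p with hg
  have hpq : ∀ j, p j = g * q j := fun j => hq j (Finset.mem_univ j)
  have hg0 : g ≠ 0 := by
    intro h0
    apply hne
    rw [hpq j0, hpq k0, h0]
    simp
  have hne' : (q j0).eval u1 * (q k0).eval v1 ≠ (q k0).eval u1 * (q j0).eval v1 := by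
    intro h0
    apply hne
    rw [hpq j0, hpq k0]
    simp only [Polynomial.eval_mul]
    linear_combination (g.eval u1 * g.eval v1) * h0
  have hz : ∀ z, (fun j => (q j).eval z) ≠ 0 := by
    intro z h0
    have h1 : (Polynomial.X - Polynomial.C z) ∣ Finset.univ.gcd q := by
      refine Finset.dvd_gcd fun j _ => ?_
      rw [Polynomial.dvd_iff_isRoot]
      exact congrFun h0 j
    rw [hqg] at h1
    exact Polynomial.not_isUnit_X_sub_C z (isUnit_of_dvd_one h1)
  have hval : ∀ G : MvPolynomial (Fin (N + 1)) R, (∃ d, G.IsHomogeneous d) →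
      (eval₂ (Polynomial.C.comp φ) p G = 0 ↔ eval₂ (Polynomial.C.comp φ) q G = 0) := by
    rintro G ⟨d, hd⟩
    have h1 : p = fun j => g * q j := funext hpq
    rw [h1, eval₂_smul_homog _ g q hd]
    constructor
    · intro h2
      exact (mul_eq_zero.1 h2).resolve_left (pow_ne_zero _ hg0)
    · intro h2
      rw [h2, mul_zero]
  have hzero : ∀ (r : Fin (N + 1) → Polynomial ℂ) (G : MvPolynomial (Fin (N + 1)) R),
      (eval₂ (Polynomial.C.comp φ) r G = 0 ↔ ∀ u, eval₂ φ (fun j => (r j).eval u) G = 0) := by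
    intro r G
    constructor
    · intro h1 u
      rw [← eval₂_eval, h1, Polynomial.eval_zero]
    · intro h1
      apply Polynomial.funext
      intro u
      rw [eval₂_eval, h1, Polynomial.eval_zero]
  have h1 := h (fun z j => (q j).eval z) (fun j => (q j).differentiable) hz
    ⟨0, fun _ => 1, differentiable_const _, ⟨0, one_ne_zero⟩, fun j => by
      simpa only [one_mul] using poly_mem (q j)⟩ (fun z G hG hGf => ?_) ⟨u1, v1, j0, k0, hne'⟩
  · rw [← eval₂_eval, (hval G' hGh).2, Polynomial.eval_zero]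
    exact (hzero q G').2 fun u => h1 u G' hG' hGh
  · refine (hzero q G).1 ((hval G hGf).1 ((hzero p G).2 fun u => hp u G hG hGf)) z

end general

end Pool.Agent.TH600.LC
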