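import Pool.Agent.TH600.LC.Family
import Pool.Agent.H458.EC.Analytic

/-!
# The ring generated by the entire functions with Hadamard gaps
-/

namespace Pool.Agent.TH600.LC

open Finset H458.EC

set_option linter.unusedSectionVars false

/-- `g` is an entire function whose Taylor series at `z₀` has Hadamard gaps: the exponents belong to
a sequence `m` of natural numbers with `m (j+1) ≥ q * m j` for some `q > 1`. -/
def HadamardGaps (z₀ : ℂ) (g : ℂ → ℂ) : Prop :=
  Differentiable ℂ g ∧ ∃ (q : ℝ) (m : ℕ → ℕ), 1 < q ∧ (∀ j, q * m j ≤ m (j + 1)) ∧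
    ∀ k, iteratedDeriv k g z₀ ≠ 0 → ∃ j, k = m j

/-- The ring generated by the entire functions with Hadamard gaps at `z₀`. -/
noncomputable def GapRing (z₀ : ℂ) : Subalgebra ℂ (ℂ → ℂ) := Algebra.adjoin ℂ {g | HadamardGaps z₀ g}

/-- Translation. -/
theorem gapRing_translate {z₀ : ℂ} {f : ℂ → ℂ} (hf : f ∈ GapRing z₀) :
    (fun z => f (z + z₀)) ∈ GapRing 0 := by
  let T : (ℂ → ℂ) →ₐ[ℂ] (ℂ → ℂ) :=
    { toFun := fun f z => f (z + z₀)
      map_one' := rfl
      map_mul' := fun _ _ => rfl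
      map_zero' := rfl
      map_add' := fun _ _ => rfl
      commutes' := fun _ => rfl }
  have h1 : T f ∈ (GapRing z₀).map T := ⟨f, hf, rfl⟩
  rw [GapRing, AlgHom.map_adjoin] at h1
  refine (Algebra.adjoin_mono ?_) h1
  rintro _ ⟨g, ⟨hg, q, m, hq, hm, hgm⟩, rfl⟩
  refine ⟨hg.comp (differentiable_id.add_const _), q, m, hq, hm, fun k hk => hgm k ?_⟩
  have h2 : iteratedDeriv k (fun z => g (z + z₀)) 0 = iteratedDeriv k g (0 + z₀) := by
    rw [iteratedDeriv_comp_add_const]
  have h3 : iteratedDeriv k (T g) 0 ≠ 0 := hk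
  change iteratedDeriv k (fun z => g (z + z₀)) 0 ≠ 0 at h3
  rw [h2, zero_add] at h3
  exact h3

/-- Finitely many elements of the ring are polynomials in finitely many functions with gaps. -/
theorem exists_repr {N : ℕ} {f : ℂ → Fin N → ℂ} (hf : ∀ j, (fun z => f z j) ∈ GapRing 0) :
    ∃ (m : ℕ) (g : ℂ → Fin m → ℂ) (Q : Fin N → MvPolynomial (Fin m) ℂ),
      (∀ i, HadamardGaps 0 (fun z => g z i)) ∧ ∀ z j, f z j = MvPolynomial.eval (g z) (Q j) := by
  classical
  let G := {g : ℂ → ℂ // HadamardGaps 0 g}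
  have h1 : ∀ j, ∃ P : MvPolynomial G ℂ, MvPolynomial.aeval (fun g : G => g.1) P =
      fun z => f z j := by
    intro j
    have h2 := hf j
    rw [GapRing, ← Subtype.range_coe (s := {g | HadamardGaps 0 g}),
      Algebra.adjoin_range_eq_range_aeval] at h2
    exact h2
  choose P hP using h1
  let T : Finset G := Finset.univ.biUnion fun j => (P j).vars
  have h3 : ∀ j, ∃ P' : MvPolynomial {x : G // x ∈ (T : Set G)} ℂ,
      MvPolynomial.rename (fun x : {x : G // x ∈ (T : Set G)} => x.1) P' = P j := by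
    intro j
    have h4 : P j ∈ MvPolynomial.supported ℂ (T : Set G) := by
      rw [MvPolynomial.mem_supported]
      intro x hx
      exact Finset.mem_coe.2 (Finset.mem_biUnion.2 ⟨j, Finset.mem_univ _, hx⟩)
    rw [MvPolynomial.supported_eq_range_rename] at h4
    exact h4
  choose P' hP' using h3
  let e : {x : G // x ∈ (T : Set G)} ≃ Fin T.card := T.equivFin
  refine ⟨T.card, fun z i => (e.symm i).1.1 z,
    fun j => MvPolynomial.rename e (P' j), fun i => (e.symm i).1.2, fun z j => ?_⟩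
  have h5 := congrFun (hP j) z
  rw [← h5, ← hP' j, MvPolynomial.aeval_rename, MvPolynomial.eval_rename]
  have h6 : ∀ R : MvPolynomial {x : G // x ∈ (T : Set G)} ℂ,
      (MvPolynomial.aeval ((fun g : G => g.1) ∘ (fun x : {x : G // x ∈ (T : Set G)} => x.1)) R) z =
        MvPolynomial.eval (fun x : {x : G // x ∈ (T : Set G)} => x.1.1 z) R := by
    intro R
    have h7 : (MvPolynomial.aeval ((fun g : G => g.1) ∘
        (fun x : {x : G // x ∈ (T : Set G)} => x.1)) R) z =
        (Pi.evalRingHom (fun _ : ℂ => ℂ) z)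
          (MvPolynomial.aeval ((fun g : G => g.1) ∘
            (fun x : {x : G // x ∈ (T : Set G)} => x.1)) R) := rfl
    rw [h7, MvPolynomial.aeval_def, MvPolynomial.hom_eval₂]
    rfl
  rw [h6]
  congr 1
  congr 1
  funext x
  simp

/-- The Taylor series. -/
noncomputable def tser {m : ℕ} (g : ℂ → Fin m → ℂ) (i : Fin m) : PowerSeries ℂ :=
  PowerSeries.mk fun k => ((k.factorial : ℂ))⁻¹ * iteratedDeriv k (fun z => g z i) 0

theorem hasSum_tser {m : ℕ} {g : ℂ → Fin m → ℂ} {i : Fin m}
    (hg : Differentiable ℂ (fun z => g z i)) (z : ℂ) :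
    HasSum (fun k => PowerSeries.coeff k (tser g i) * z ^ k) (g z i) := by
  have h := Complex.hasSum_taylorSeries_of_entire hg 0 z
  simp only [sub_zero, smul_eq_mul] at h
  have e : (fun k => PowerSeries.coeff k (tser g i) * z ^ k) =
      fun k => ((k.factorial : ℂ))⁻¹ * (z ^ k * iteratedDeriv k (fun z => g z i) 0) := by
    funext k
    rw [tser, PowerSeries.coeff_mk]
    ring
  rw [e]
  exact h

theorem ent_tser {m : ℕ} {g : ℂ → Fin m → ℂ} {i : Fin m}
    (hg : Differentiable ℂ (fun z => g z i)) : Ent (tser g i) := by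
  intro r hr
  have h := (summable_norm_iff.2 (hasSum_tser hg (r : ℂ)).summable)
  refine h.congr fun k => ?_
  rw [norm_mul, norm_pow, Complex.norm_of_nonneg hr]

theorem ev_tser {m : ℕ} {g : ℂ → Fin m → ℂ} {i : Fin m}
    (hg : Differentiable ℂ (fun z => g z i)) (z : ℂ) : H458.EC.ev (tser g i) z = g z i :=
  (hasSum_tser hg z).tsum_eq

theorem ent_coe (p : Polynomial ℂ) : Ent (p : PowerSeries ℂ) := by
  intro r _
  apply summable_of_ne_finset_zero (s := range (p.natDegree + 1))
  intro k hk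
  rw [mem_range] at hk
  rw [Polynomial.coeff_coe, Polynomial.coeff_eq_zero_of_natDegree_lt (by omega)]
  simp

theorem ev_coe (p : Polynomial ℂ) (z : ℂ) : H458.EC.ev (p : PowerSeries ℂ) z = p.eval z := by
  unfold H458.EC.ev
  rw [tsum_eq_sum (s := range (p.natDegree + 1)), Polynomial.eval_eq_sum_range]
  · refine Finset.sum_congr rfl fun k _ => ?_
    rw [Polynomial.coeff_coe]
  · intro k hk
    rw [mem_range] at hk
    rw [Polynomial.coeff_coe, Polynomial.coeff_eq_zero_of_natDegree_lt (by omega), zero_mul]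

/-- Series with values `0` for relations. -/
theorem tser_rel {m : ℕ} {g : ℂ → Fin m → ℂ} (hg : ∀ i, Differentiable ℂ (fun z => g z i))
    {G : MvPolynomial (Fin m) ℂ} (h : ∀ z, MvPolynomial.eval (g z) G = 0) :
    MvPolynomial.eval₂ PowerSeries.C (tser g) G = 0 := by
  have h1 := ent_eval₂ G (A := tser g) fun i => ent_tser (hg i)
  refine eq_zero_of_ev h1.1 fun z => ?_
  rw [h1.2 z]
  have h2 : (fun i => H458.EC.ev (tser g i) z) = g z := funext fun i => ev_tser (hg i) z
  rw [h2, h z]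

theorem sparse_tser {m : ℕ} {g : ℂ → Fin m → ℂ} (hg : ∀ i, HadamardGaps 0 (fun z => g z i)) :
    Sparse {n | ∃ i, PowerSeries.coeff n (tser g i) ≠ 0} := by
  have h1 : ∀ i, ∃ A : Set ℕ, Sparse A ∧ ∀ n, PowerSeries.coeff n (tser g i) ≠ 0 → n ∈ A := by
    intro i
    obtain ⟨-, q, l, hq, hl, hgl⟩ := hg i
    refine ⟨Set.range l, sparse_of_gaps hq hl, fun n hn => ?_⟩
    rw [tser, PowerSeries.coeff_mk] at hn
    obtain ⟨j, hj⟩ := hgl n (right_ne_zero_of_mul hn)
    exact ⟨j, hj.symm⟩
  choose A hA hA' using h1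
  refine (sparse_iUnion Finset.univ A fun i _ => hA i).mono ?_
  rintro n ⟨i, hi⟩
  rw [Set.mem_iUnion₂]
  exact ⟨i, Finset.mem_univ _, hA' i n hi⟩

/-- **Structure of relations** between entire functions with Hadamard gaps. -/
theorem structure_gaps {m : ℕ} {g : ℂ → Fin m → ℂ} (hg : ∀ i, HadamardGaps 0 (fun z => g z i)) :
    ∃ (a : Polynomial ℂ) (I : Finset (Fin m)) (p : Fin m → Polynomial ℂ)
      (b : Fin m → Fin m → Polynomial ℂ), a ≠ 0 ∧
      (∀ z i, a.eval z * g z i = (p i).eval z + ∑ l ∈ I, (b i l).eval z * g z l) ∧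
      ∀ G : MvPolynomial (Fin m) ℂ, (∀ z, MvPolynomial.eval (g z) G = 0) →
        ∀ (z : ℂ) (x : Fin m → ℂ), a.eval z ≠ 0 →
        MvPolynomial.eval (fun i => ((p i).eval z + ∑ l ∈ I, (b i l).eval z * x l) / a.eval z)
          G = 0 := by
  obtain ⟨I, a, p, b, hI, ha, hrel⟩ := exists_rel (tser g)
  refine ⟨a, I, p, b, ha, fun z i => ?_, fun G hG z x hz => ?_⟩
  · have h1 := congrArg (fun A => H458.EC.ev A z) (hrel i)
    have hsum : ∀ s : Finset (Fin m), Ent (∑ l ∈ s, (b i l : PowerSeries ℂ) * tser g l) ∧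
        H458.EC.ev (∑ l ∈ s, (b i l : PowerSeries ℂ) * tser g l) z =
          ∑ l ∈ s, (b i l).eval z * g z l := by
      intro s
      induction s using Finset.induction_on with
      | empty =>
        rw [Finset.sum_empty, Finset.sum_empty]
        have h2 := ent_coe 0
        have h3 := ev_coe 0 z
        rw [Polynomial.coe_zero] at h2 h3
        exact ⟨h2, by rw [h3, Polynomial.eval_zero]⟩
      | insert l s hl ih =>
        rw [Finset.sum_insert hl, Finset.sum_insert hl]
        have h2 := (ent_coe (b i l)).mul (ent_tser (hg l).1)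
        exact ⟨h2.add ih.1, by
          rw [ev_add h2 ih.1, ev_mul (ent_coe _) (ent_tser (hg l).1), ev_coe, ev_tser (hg l).1,
            ih.2]⟩
    rw [ev_mul (ent_coe a) (ent_tser (hg i).1), ev_coe, ev_tser (hg i).1,
      ev_add (ent_coe _) (hsum I).1, ev_coe, (hsum I).2] at h1
    exact h1
  · exact family_eval (tser g) (sparse_tser hg) hI hrel (tser_rel (fun i => (hg i).1) hG) hz x

end Pool.Agent.TH600.LC
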