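import Pool.Agent.TH600.LC.Curve

/-!
# Entire curves with coordinates in the gap ring lie on rational curves
-/

namespace Pool.Agent.TH600.LC

open Finset

set_option linter.unusedSectionVars false

theorem eventually_ne_poly {a : Polynomial ℂ} {z0 : ℂ} (h : a.eval z0 ≠ 0) :
    ∀ᶠ z in nhds z0, a.eval z ≠ 0 := a.continuous.continuousAt.eventually_ne h

/-- **Affine varieties.** -/
theorem affine_main {n : ℕ} (V V' : Set (MvPolynomial (Fin n) ℂ))
    (hA : ∀ p : Fin n → Polynomial ℂ,
      (∀ u, ∀ G ∈ V, MvPolynomial.eval (fun j => (p j).eval u) G = 0) →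
      (∃ u v j, (p j).eval u ≠ (p j).eval v) →
      ∀ u, ∀ G ∈ V', MvPolynomial.eval (fun j => (p j).eval u) G = 0)
    {f : ℂ → Fin n → ℂ} (hf : ∀ j, (fun z => f z j) ∈ GapRing 0)
    (hfd : ∀ j, Differentiable ℂ (fun z => f z j))
    (hX : ∀ z, ∀ G ∈ V, MvPolynomial.eval (f z) G = 0) (hnc : ∃ z w, f z ≠ f w) :
    ∀ z, ∀ G ∈ V', MvPolynomial.eval (f z) G = 0 := by
  obtain ⟨m, ⟨D⟩⟩ := exists_fml hf
  by_cases hc : ∃ z0 x0 j0, D.a.eval z0 ≠ 0 ∧ D.Ψ z0 x0 j0 ≠ f z0 j0
  · obtain ⟨z0, x0, j0, ha, hne⟩ := hc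
    intro z G hG
    refine ent_zero_of_near (z1 := z0) (differentiable_eval hfd G) ?_ z
    have h1 : ContinuousAt (fun z => D.Ψ z x0 j0 - f z j0) z0 :=
      (D.continuous_Ψ ha x0 j0).sub (hfd j0).continuous.continuousAt
    filter_upwards [eventually_ne_poly ha, h1.eventually_ne (sub_ne_zero.2 hne)] with z hz hz'
    have h2 := hA (D.crv z x0) (fun u G hG => ?_) ⟨1, 0, j0, ?_⟩ 0 G hG
    · have h3 : (fun j => (D.crv z x0 j).eval 0) = f z := funext fun j => D.crv_zero hz x0 j
      rwa [h3] at h2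
    · have h3 : (fun j => (D.crv z x0 j).eval u) =
          D.Ψ z (fun l => D.g z l + u * (x0 l - D.g z l)) :=
        funext fun j => D.eval_crv hz x0 u j
      rw [h3]
      exact D.rel_Ψ (fun w => hX w G hG) hz _
    · rw [D.crv_one hz, D.crv_zero hz]
      exact sub_ne_zero.1 hz'
  · push Not at hc
    -- `f` is a polynomial curve
    have hp : ∀ j, ∃ P : Polynomial ℂ, ∀ z, f z j = P.eval z := by
      intro j
      refine poly_of_quot _ (D.a ^ (D.Q j).totalDegree) (D.rp (D.Q j).totalDegree 0 j)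
        (fun z => f z j) rfl (pow_ne_zero _ D.a0) (hfd j) ?_
      have h1 : ∀ z, D.a.eval z * ((D.a ^ (D.Q j).totalDegree).eval z * f z j -
          (D.rp (D.Q j).totalDegree 0 j).eval z) = 0 := by
        intro z
        by_cases hz : D.a.eval z = 0
        · rw [hz, zero_mul]
        · rw [D.eval_rp le_rfl hz, hc z 0 j hz, Polynomial.eval_pow, sub_self, mul_zero]
      have h2 := ent_mul (A := fun z => D.a.eval z) D.a.differentiable
        (F := fun z => (D.a ^ (D.Q j).totalDegree).eval z * f z j -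
          (D.rp (D.Q j).totalDegree 0 j).eval z)
        (((D.a ^ (D.Q j).totalDegree).differentiable.mul (hfd j)).sub
          (Polynomial.differentiable _)) h1 (by
            by_contra hcon
            push Not at hcon
            exact D.a0 (Polynomial.funext fun z => by rw [hcon z, Polynomial.eval_zero]))
      intro z
      exact sub_eq_zero.1 (h2 z)
    choose P hP using hp
    have hfP : ∀ z, f z = fun j => (P j).eval z := fun z => funext fun j => hP j z
    obtain ⟨z, w, hzw⟩ := hnc
    obtain ⟨j, hj⟩ := Function.ne_iff.1 hzw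
    have h3 := hA P (fun u G hG => by rw [← hfP u]; exact hX u G hG)
      ⟨z, w, j, by rw [← hP, ← hP]; exact hj⟩
    intro z G hG
    rw [hfP z]
    exact h3 z G hG

theorem eval_smul_homog {n d : ℕ} {G : MvPolynomial (Fin n) ℂ} (hG : G.IsHomogeneous d) (c : ℂ)
    (v : Fin n → ℂ) :
    MvPolynomial.eval (fun j => c * v j) G = c ^ d * MvPolynomial.eval v G := by
  rw [MvPolynomial.eval_eq', MvPolynomial.eval_eq', Finset.mul_sum]
  refine Finset.sum_congr rfl fun α hα => ?_
  have h5 := hG (MvPolynomial.mem_support_iff.1 hα)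
  rw [weight_one_eq, Finsupp.degree_eq_sum] at h5
  simp only [mul_pow, Finset.prod_mul_distrib]
  rw [Finset.prod_pow_eq_pow_sum, h5]
  ring

theorem poly_ne_zero_exists {a : Polynomial ℂ} (h : a ≠ 0) : ∃ z, a.eval z ≠ 0 := by
  by_contra hcon
  push Not at hcon
  exact h (Polynomial.funext fun z => by rw [hcon z, Polynomial.eval_zero])

/-- **Projective varieties.** -/
theorem proj_main {N : ℕ} (V V' : Set (MvPolynomial (Fin (N + 1)) ℂ))
    (hV : ∀ G ∈ V, ∃ d, G.IsHomogeneous d) (hV' : ∀ G ∈ V', ∃ d, G.IsHomogeneous d)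
    (hA : ∀ p : Fin (N + 1) → Polynomial ℂ,
      (∀ u, ∀ G ∈ V, MvPolynomial.eval (fun j => (p j).eval u) G = 0) →
      (∃ j k u v, (p j).eval u * (p k).eval v ≠ (p k).eval u * (p j).eval v) →
      ∀ u, ∀ G ∈ V', MvPolynomial.eval (fun j => (p j).eval u) G = 0)
    {f : ℂ → Fin (N + 1) → ℂ} (hfd : ∀ j, Differentiable ℂ (fun z => f z j))
    (hfne : ∀ z, f z ≠ 0) {c : ℂ → ℂ} (hcd : Differentiable ℂ c) (hc0 : ∃ z, c z ≠ 0)
    (hf : ∀ j, (fun z => c z * f z j) ∈ GapRing 0)
    (hX : ∀ z, ∀ G ∈ V, MvPolynomial.eval (f z) G = 0)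
    (hnc : ∃ z w j k, f z j * f w k ≠ f z k * f w j) :
    ∀ z, ∀ G ∈ V', MvPolynomial.eval (f z) G = 0 := by
  obtain ⟨m, ⟨D⟩⟩ := exists_fml (f := fun z j => c z * f z j) hf
  have hcf : ∀ z, ∀ G ∈ V, MvPolynomial.eval (fun j => c z * f z j) G = 0 := by
    intro z G hG
    obtain ⟨d, hd⟩ := hV G hG
    rw [eval_smul_homog hd, hX z G hG, mul_zero]
  have hdiv : ∀ z, c z ≠ 0 → ∀ G ∈ V', MvPolynomial.eval (fun j => c z * f z j) G = 0 →
      MvPolynomial.eval (f z) G = 0 := by
    intro z hz G hG h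
    obtain ⟨d, hd⟩ := hV' G hG
    rw [eval_smul_homog hd] at h
    exact (mul_eq_zero.1 h).resolve_left (pow_ne_zero _ hz)
  by_cases hcase : ∃ z0 x0 j0 k0, D.a.eval z0 ≠ 0 ∧ c z0 ≠ 0 ∧
      D.Ψ z0 x0 j0 * (c z0 * f z0 k0) ≠ D.Ψ z0 x0 k0 * (c z0 * f z0 j0)
  · obtain ⟨z0, x0, j0, k0, ha, hcz, hne⟩ := hcase
    intro z G hG
    refine ent_zero_of_near (z1 := z0) (differentiable_eval hfd G) ?_ z
    have hcd' : ContinuousAt c z0 := hcd.continuous.continuousAt
    have h1 : ContinuousAt (fun z => D.Ψ z x0 j0 * (c z * f z k0) -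
        D.Ψ z x0 k0 * (c z * f z j0)) z0 :=
      ((D.continuous_Ψ ha x0 j0).mul (hcd'.mul (hfd k0).continuous.continuousAt)).sub
        ((D.continuous_Ψ ha x0 k0).mul (hcd'.mul (hfd j0).continuous.continuousAt))
    filter_upwards [eventually_ne_poly ha, h1.eventually_ne (sub_ne_zero.2 hne),
      hcd'.eventually_ne hcz] with z hz hz' hz''
    apply hdiv z hz'' G hG
    have h2 := hA (D.crv z x0) (fun u G hG => ?_) ⟨j0, k0, 1, 0, ?_⟩ 0 G hG
    · have h3 : (fun j => (D.crv z x0 j).eval 0) = fun j => c z * f z j :=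
        funext fun j => D.crv_zero hz x0 j
      rwa [h3] at h2
    · have h3 : (fun j => (D.crv z x0 j).eval u) =
          D.Ψ z (fun l => D.g z l + u * (x0 l - D.g z l)) :=
        funext fun j => D.eval_crv hz x0 u j
      rw [h3]
      exact D.rel_Ψ (fun w => hcf w G hG) hz _
    · rw [D.crv_one hz, D.crv_zero hz, D.crv_one hz, D.crv_zero hz]
      exact sub_ne_zero.1 hz'
  · push Not at hcase
    -- `f` is a rational curve
    obtain ⟨z1, hz1a, hz1c⟩ : ∃ z, D.a.eval z ≠ 0 ∧ c z ≠ 0 := by
      by_contra hcon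
      push Not at hcon
      obtain ⟨z2, hz2⟩ := hc0
      refine hz2 (ent_mul (A := fun z => D.a.eval z) D.a.differentiable hcd (fun z => ?_)
        (poly_ne_zero_exists D.a0) z2)
      by_cases h : D.a.eval z = 0
      · rw [h, zero_mul]
      · rw [hcon z h, mul_zero]
    set d := Finset.univ.sup fun j => (D.Q j).totalDegree with hd
    have hdj : ∀ j, (D.Q j).totalDegree ≤ d := fun j =>
      Finset.le_sup (f := fun j => (D.Q j).totalDegree) (Finset.mem_univ j)
    set x1 := D.g z1 with hx1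
    set R : Fin (N + 1) → Polynomial ℂ := D.rp d x1 with hR
    have hRz : ∀ z, D.a.eval z ≠ 0 → ∀ j, (R j).eval z = D.a.eval z ^ d * D.Ψ z x1 j :=
      fun z hz j => D.eval_rp (hdj j) hz
    have hR1 : ∃ j, (R j).eval z1 ≠ 0 := by
      obtain ⟨j, hj⟩ := Function.ne_iff.1 (hfne z1)
      refine ⟨j, ?_⟩
      rw [hRz z1 hz1a, hx1, D.Ψ_g hz1a]
      exact mul_ne_zero (pow_ne_zero _ hz1a) (mul_ne_zero hz1c hj)
    obtain ⟨j1, hj1⟩ := hR1
    -- proportionality
    have hprop : ∀ j k z, (R j).eval z * f z k = (R k).eval z * f z j := by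
      intro j k
      have h1 : ∀ z, (D.a.eval z * c z) * ((R j).eval z * f z k - (R k).eval z * f z j) = 0 := by
        intro z
        by_cases hz : D.a.eval z = 0
        · rw [hz]; ring
        · by_cases hz' : c z = 0
          · rw [hz']; ring
          · have h2 := hcase z x1 j k hz hz'
            rw [hRz z hz, hRz z hz]
            linear_combination D.a.eval z * D.a.eval z ^ d * h2
      have h2 := ent_mul (A := fun z => D.a.eval z * c z) (D.a.differentiable.mul hcd)
        (F := fun z => (R j).eval z * f z k - (R k).eval z * f z j)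
        (((R j).differentiable.mul (hfd k)).sub ((R k).differentiable.mul (hfd j))) h1
        ⟨z1, mul_ne_zero hz1a hz1c⟩
      intro z
      exact sub_eq_zero.1 (h2 z)
    have hRV : ∀ u, ∀ G ∈ V, MvPolynomial.eval (fun j => (R j).eval u) G = 0 := by
      intro u G hG
      obtain ⟨e, he⟩ := hV G hG
      refine ent_mul (A := fun z => D.a.eval z) D.a.differentiable
        (F := fun z => MvPolynomial.eval (fun j => (R j).eval z) G)
        (differentiable_eval (fun j => (R j).differentiable) G) (fun z => ?_)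
        (poly_ne_zero_exists D.a0) u
      by_cases hz : D.a.eval z = 0
      · rw [hz, zero_mul]
      · have h1 : (fun j => (R j).eval z) = fun j => D.a.eval z ^ d * D.Ψ z x1 j :=
          funext fun j => hRz z hz j
        rw [h1, eval_smul_homog he, D.rel_Ψ (fun w => hcf w G hG) hz, mul_zero, mul_zero]
    have hRnc : ∃ j k u v, (R j).eval u * (R k).eval v ≠ (R k).eval u * (R j).eval v := by
      by_contra hcon
      push Not at hcon
      obtain ⟨z, w, j, k, hne⟩ := hnc
      apply hne
      -- `f z` is proportional to `R z1`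
      have h1 : ∀ j k z, f z j * (R k).eval z1 = f z k * (R j).eval z1 := by
        intro j k
        have h2 : ∀ z, (R j1).eval z * (f z j * (R k).eval z1 - f z k * (R j).eval z1) = 0 := by
          intro z
          have e1 := hprop j1 j z
          have e2 := hprop j1 k z
          have e3 := hcon j k z z1
          linear_combination (R k).eval z1 * e1 - (R j).eval z1 * e2 + f z j1 * e3
        have h3 := ent_mul (A := fun z => (R j1).eval z) (R j1).differentiable
          (F := fun z => f z j * (R k).eval z1 - f z k * (R j).eval z1)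
          (((hfd j).mul_const _).sub ((hfd k).mul_const _)) h2 ⟨z1, hj1⟩
        intro z
        exact sub_eq_zero.1 (h3 z)
      have e1 := h1 j j1 z
      have e2 := h1 k j1 z
      have e3 := h1 j j1 w
      have e4 := h1 k j1 w
      have h5 : (R j1).eval z1 * (R j1).eval z1 * (f z j * f w k - f z k * f w j) = 0 := by
        linear_combination ((R j1).eval z1 * f w k) * e1 + (f z j1 * (R j).eval z1) * e4
          - ((R j1).eval z1 * f w j) * e2 - (f z j1 * (R k).eval z1) * e3
      exact sub_eq_zero.1 ((mul_eq_zero.1 h5).resolve_left (mul_ne_zero hj1 hj1))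
    have hRV' := hA R hRV hRnc
    intro z G hG
    obtain ⟨e, he⟩ := hV' G hG
    refine ent_mul (A := fun z => (R j1).eval z ^ e) ((R j1).differentiable.pow e)
      (F := fun z => MvPolynomial.eval (f z) G) (differentiable_eval hfd G) (fun z => ?_)
      ⟨z1, pow_ne_zero _ hj1⟩ z
    rw [← eval_smul_homog he]
    have h1 : (fun j => (R j1).eval z * f z j) = fun j => f z j1 * (R j).eval z := by
      funext j
      rw [hprop j1 j z]
      ring
    rw [h1, eval_smul_homog he, hRV' z G hG, mul_zero]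

end Pool.Agent.TH600.LC
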