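import Pool.Agent.TH600.LC.Coef
import Pool.Agent.TH600.LC.Main

/-!
# The family of a curve with coordinates in a ring generated by gap functions and coefficients
-/

set_option autoImplicit false

namespace Pool.Agent.TH600.LC

open Finset AlgebraicIndependent Module

theorem exists_T_fam {s : ℕ} {y : ℂ → Fin s → ℂ} (hyd : ∀ i, Differentiable ℂ (fun z => y z i))
    (hy : ∀ i, DAlg (fun z => y z i))
    {D : Derivation ℂ (EE ℂ) (EE ℂ)} (hD : ∀ u, D (emb ℂ u) = emb ℂ (theta ℂ u)) :
    ∃ T : Set (EE ℂ), T.Finite ∧ (∀ s ∈ T, D s ∈ clo (KK ℂ) T) ∧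
      ∀ i, emb ℂ (tser y i) ∈ clo (KK ℂ) T := by
  choose T hT hTD hTy using fun i => exists_T (hyd i) (hy i) hD
  refine ⟨⋃ i, T i, Set.finite_iUnion hT, fun u hu => ?_, fun i => ?_⟩
  · obtain ⟨i, hi⟩ := Set.mem_iUnion.1 hu
    exact clo_mono (Set.subset_iUnion T i) (hTD i u hi)
  · rw [tser_eq]
    exact clo_mono (Set.subset_iUnion T i) (hTy i)

open H458.EC in
theorem rel_eval {m : ℕ} {g : ℂ → Fin m → ℂ} (hg : ∀ i, Differentiable ℂ (fun z => g z i))
    {I : Finset (Fin m)} {a : Polynomial ℂ} {p : Fin m → Polynomial ℂ}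
    {b : Fin m → Fin m → Polynomial ℂ}
    (hrel : ∀ i, (a : PowerSeries ℂ) * tser g i = p i + ∑ l ∈ I, (b i l : PowerSeries ℂ) *
      tser g l) (z : ℂ) (i : Fin m) :
    a.eval z * g z i = (p i).eval z + ∑ l ∈ I, (b i l).eval z * g z l := by
  have h1 := congrArg (fun A => H458.EC.ev A z) (hrel i)
  have hsum : ∀ s : Finset (Fin m), Ent (∑ l ∈ s, (b i l : PowerSeries ℂ) * tser g l) ∧
      H458.EC.ev (∑ l ∈ s, (b i l : PowerSeries ℂ) * tser g l) z =
        ∑ l ∈ s, (b i l).eval z * g z l := by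
    intro s
    induction s using Finset.induction_on with
    | empty =>
      rw [Finset.sum_empty, Finset.sum_empty]
      have h2 := ent_coe 0
      have h3 := ev_coe 0 z
      rw [Polynomial.coe_zero] at h2 h3
      exact ⟨h2, by rw [h3, Polynomial.eval_zero]⟩
    | insert l s hl ih =>
      rw [Finset.sum_insert hl, Finset.sum_insert hl]
      have h2 := (ent_coe (b i l)).mul (ent_tser (hg l))
      exact ⟨h2.add ih.1, by
        rw [H458.EC.ev_add h2 ih.1, H458.EC.ev_mul (ent_coe _) (ent_tser (hg l)), ev_coe,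
          ev_tser (hg l), ih.2]⟩
  rw [H458.EC.ev_mul (ent_coe a) (ent_tser (hg i)), ev_coe, ev_tser (hg i),
    H458.EC.ev_add (ent_coe _) (hsum I).1, ev_coe, (hsum I).2] at h1
  exact h1

theorem tser_rel_sum {s m : ℕ} {y : ℂ → Fin s → ℂ} {g : ℂ → Fin m → ℂ}
    (hy : ∀ i, Differentiable ℂ (fun z => y z i)) (hg : ∀ i, Differentiable ℂ (fun z => g z i))
    {H : MvPolynomial (Fin s ⊕ Fin m) ℂ}
    (h : ∀ z, MvPolynomial.eval (Sum.elim (y z) (g z)) H = 0) :
    MvPolynomial.eval₂ PowerSeries.C (Sum.elim (tser y) (tser g)) H = 0 := by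
  let u : ℂ → Fin (s + m) → ℂ := fun z i => Sum.elim (y z) (g z) (finSumFinEquiv.symm i)
  have hu : ∀ i, Differentiable ℂ (fun z => u z i) := by
    intro i
    simp only [u]
    rcases finSumFinEquiv.symm i with j | j
    · exact hy j
    · exact hg j
  have h1 := tser_rel hu (G := MvPolynomial.rename finSumFinEquiv H) (fun z => by
    rw [MvPolynomial.eval_rename, ← h z]
    congr 2
    funext i
    simp only [Function.comp_apply, u, Equiv.symm_apply_apply])
  rw [MvPolynomial.eval₂_rename] at h1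
  rw [← h1]
  congr 1
  funext i
  rcases i with i | i
  · simp only [Sum.elim_inl, Function.comp_apply, tser_eq, u, Equiv.symm_apply_apply]
  · simp only [Sum.elim_inr, Function.comp_apply, tser_eq, u, Equiv.symm_apply_apply]

/-- **Structure of relations** between differentially algebraic functions and functions with
Hadamard gaps. -/
theorem structure_coef {s m : ℕ} {y : ℂ → Fin s → ℂ} {g : ℂ → Fin m → ℂ}
    (hyd : ∀ i, Differentiable ℂ (fun z => y z i)) (hy : ∀ i, DAlg (fun z => y z i))
    (hg : ∀ i, HadamardGaps 0 (fun z => g z i)) :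
    ∃ (a : Polynomial ℂ) (I : Finset (Fin m)) (p : Fin m → Polynomial ℂ)
      (b : Fin m → Fin m → Polynomial ℂ), a ≠ 0 ∧
      (∀ z i, a.eval z * g z i = (p i).eval z + ∑ l ∈ I, (b i l).eval z * g z l) ∧
      ∀ H : MvPolynomial (Fin s ⊕ Fin m) ℂ,
        (∀ z, MvPolynomial.eval (Sum.elim (y z) (g z)) H = 0) →
        ∀ (z : ℂ) (x : Fin m → ℂ), a.eval z ≠ 0 →
        MvPolynomial.eval (Sum.elim (y z)
          (fun i => ((p i).eval z + ∑ l ∈ I, (b i l).eval z * x l) / a.eval z)) H = 0 := by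
  obtain ⟨I, a, p, b, hI, ha, hrel⟩ := exists_rel (tser g)
  refine ⟨a, I, p, b, ha, rel_eval (fun i => (hg i).1) hrel, fun H hH z x hz => ?_⟩
  obtain ⟨D, hD, hD'⟩ := exists_der ℂ
  obtain ⟨T, hT, hTD, hTy⟩ := exists_T_fam hyd hy hD
  have hser := tser_rel_sum hyd (fun i => (hg i).1) hH
  -- the coefficients
  let φ : ℂ →+* MvPolynomial I (MvPolynomial (Fin s) (Polynomial ℂ)) :=
    MvPolynomial.C.comp (MvPolynomial.C.comp Polynomial.C)
  let t : MvPolynomial I (MvPolynomial (Fin s) (Polynomial ℂ)) :=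
    MvPolynomial.C (MvPolynomial.C a)
  let w : Fin s ⊕ Fin m → MvPolynomial I (MvPolynomial (Fin s) (Polynomial ℂ)) :=
    Sum.elim (fun i => MvPolynomial.C (MvPolynomial.C a * MvPolynomial.X i))
      (fun i => MvPolynomial.C (MvPolynomial.C (p i)) +
        ∑ l : I, MvPolynomial.C (MvPolynomial.C (b i l)) * MvPolynomial.X l)
  let P := hval H.totalDegree φ t w H
  have h1 : MvPolynomial.eval₂ ((emb ℂ).comp (sR y)) (fun l : I => emb ℂ (tser g l)) P = 0 := by
    change (MvPolynomial.eval₂Hom ((emb ℂ).comp (sR y)) (fun l : I => emb ℂ (tser g l))) P = 0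
    have e0 := map_hval (MvPolynomial.eval₂Hom ((emb ℂ).comp (sR y))
      (fun l : I => emb ℂ (tser g l))) H.totalDegree φ t w H
    rw [e0]
    have e1 : (MvPolynomial.eval₂Hom ((emb ℂ).comp (sR y))
        (fun l : I => emb ℂ (tser g l))).comp φ = (emb ℂ).comp PowerSeries.C := by
      ext c
      simp [φ, sR]
    have e2 : (MvPolynomial.eval₂Hom ((emb ℂ).comp (sR y))
        (fun l : I => emb ℂ (tser g l))) t = emb ℂ (a : PowerSeries ℂ) := by
      simp [t, sR]
    have e3 : (fun i => (MvPolynomial.eval₂Hom ((emb ℂ).comp (sR y))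
        (fun l : I => emb ℂ (tser g l))) (w i)) =
        fun i => emb ℂ (a : PowerSeries ℂ) * emb ℂ (Sum.elim (tser y) (tser g) i) := by
      funext i
      rcases i with i | i
      · simp [w, sR]
      · rw [Sum.elim_inr, ← map_mul, hrel i, map_add, map_sum, ← Finset.sum_coe_sort I
          (fun l => emb ℂ ((b i l : PowerSeries ℂ) * tser g l))]
        simp [w, sR]
    rw [e1, e2, e3, hval_mul _ _ _ le_rfl, ← MvPolynomial.hom_eval₂, hser, map_zero, mul_zero]
  have h2 := family_diff (tser g) (sparse_tser hg) hI hD hD' hT hTD ((emb ℂ).comp (sR y))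
    (fun r => by
      induction r using MvPolynomial.induction_on with
      | C p =>
        have : sR y (MvPolynomial.C p) = (p : PowerSeries ℂ) := by simp [sR]
        rw [RingHom.comp_apply, this]
        exact emb_coe_mem T p
      | add p q hp hq =>
        rw [map_add]
        exact (clo (KK ℂ) T).add_mem hp hq
      | mul_X p i hp =>
        have : sR y (MvPolynomial.X i) = tser y i := by simp [sR]
        rw [map_mul]
        refine (clo (KK ℂ) T).mul_mem hp ?_
        rw [RingHom.comp_apply, this]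
        exact hTy i) P h1
  have h3 : MvPolynomial.map (sZ y z) P = 0 := by
    ext α
    rw [MvPolynomial.coeff_map, MvPolynomial.coeff_zero]
    have h4 := congrArg (MvPolynomial.coeff α) h2
    rw [MvPolynomial.coeff_map, MvPolynomial.coeff_zero, RingHom.comp_apply] at h4
    exact sZ_zero hyd (emb_injective (by rw [h4, map_zero])) z
  have h4 : (MvPolynomial.eval₂Hom (sZ y z) (fun l : I => x l)) P = 0 := by
    rw [MvPolynomial.coe_eval₂Hom, ← MvPolynomial.eval_map, h3, map_zero]
  have e0 := map_hval (MvPolynomial.eval₂Hom (sZ y z) (fun l : I => x l)) H.totalDegree φ t w H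
  rw [e0] at h4
  have e1 : (MvPolynomial.eval₂Hom (sZ y z) (fun l : I => x l)).comp φ = RingHom.id ℂ := by
    ext c
    simp [φ, sZ]
  have e2 : (MvPolynomial.eval₂Hom (sZ y z) (fun l : I => x l)) t = a.eval z := by
    simp [t, sZ]
  have e3 : (fun i => (MvPolynomial.eval₂Hom (sZ y z) (fun l : I => x l)) (w i)) =
      fun i => a.eval z * Sum.elim (y z)
        (fun i => ((p i).eval z + ∑ l ∈ I, (b i l).eval z * x l) / a.eval z) i := by
    funext i
    rcases i with i | i
    · simp [w, sZ]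
    · rw [Sum.elim_inr, mul_div_cancel₀ _ hz, ← Finset.sum_coe_sort I
        (fun l => (b i l).eval z * x l)]
      simp [w, sZ]
  rw [e1, e2, e3, hval_mul _ _ _ le_rfl, MvPolynomial.eval₂_id] at h4
  exact (mul_eq_zero.1 h4).resolve_left (pow_ne_zero _ hz)

end Pool.Agent.TH600.LC
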