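import Pool.Agent.TH600.LC.Ana

/-!
# Entire curves with coordinates in the ring generated by the functions with Hadamard gaps
-/

namespace Pool.Agent.TH600.LC

open Finset

set_option linter.unusedSectionVars false

/-! ### Entire functions -/

theorem ent_mul {A F : ℂ → ℂ} (hA : Differentiable ℂ A) (hF : Differentiable ℂ F)
    (h : ∀ z, A z * F z = 0) (hA0 : ∃ z, A z ≠ 0) : ∀ z, F z = 0 := by
  obtain ⟨z1, hz1⟩ := hA0
  have h1 : ∀ᶠ z in nhds z1, A z ≠ 0 := hA.continuous.continuousAt.eventually_ne hz1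
  have h2 : F =ᶠ[nhds z1] 0 := by
    filter_upwards [h1] with z hz
    exact (mul_eq_zero.1 (h z)).resolve_left hz
  have h3 := AnalyticOnNhd.eqOn_zero_of_preconnected_of_eventuallyEq_zero
    (fun z _ => hF.analyticAt z : AnalyticOnNhd ℂ F Set.univ) isPreconnected_univ
    (Set.mem_univ z1) h2
  exact fun z => h3 (Set.mem_univ z)

theorem ent_zero_of_near {F : ℂ → ℂ} (hF : Differentiable ℂ F) {z1 : ℂ}
    (h : ∀ᶠ z in nhds z1, F z = 0) : ∀ z, F z = 0 := by
  have h3 := AnalyticOnNhd.eqOn_zero_of_preconnected_of_eventuallyEq_zero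
    (fun z _ => hF.analyticAt z : AnalyticOnNhd ℂ F Set.univ) isPreconnected_univ
    (Set.mem_univ z1) h
  exact fun z => h3 (Set.mem_univ z)

theorem differentiable_eval {n : ℕ} {f : ℂ → Fin n → ℂ} (hf : ∀ j, Differentiable ℂ (fun z => f z j))
    (G : MvPolynomial (Fin n) ℂ) : Differentiable ℂ (fun z => MvPolynomial.eval (f z) G) := by
  induction G using MvPolynomial.induction_on with
  | C c => simp
  | add p q hp hq =>
    simp only [map_add]
    exact hp.add hq
  | mul_X p i hp =>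
    simp only [map_mul, MvPolynomial.eval_X]
    exact hp.mul (hf i)

/-- An entire function which is a quotient of polynomials is a polynomial. -/
theorem poly_of_quot (n : ℕ) : ∀ (A R : Polynomial ℂ) (F : ℂ → ℂ), A.natDegree = n → A ≠ 0 →
    Differentiable ℂ F → (∀ z, A.eval z * F z = R.eval z) → ∃ P : Polynomial ℂ, ∀ z, F z = P.eval z := by
  induction n with
  | zero =>
    intro A R F hn hA _ h
    rw [Polynomial.natDegree_eq_zero] at hn
    obtain ⟨c, rfl⟩ := hn
    have hc : c ≠ 0 := by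
      rintro rfl
      exact hA (map_zero _)
    refine ⟨Polynomial.C c⁻¹ * R, fun z => ?_⟩
    rw [Polynomial.eval_mul, Polynomial.eval_C, ← h z, Polynomial.eval_C, inv_mul_cancel_left₀ hc]
  | succ n ih =>
    intro A R F hn hA hF h
    obtain ⟨z0, hz0⟩ := IsAlgClosed.exists_root A (by
      intro h0
      rw [Polynomial.degree_eq_natDegree hA, hn] at h0
      exact absurd h0 (by exact_mod_cast Nat.succ_ne_zero n))
    obtain ⟨A', rfl⟩ := Polynomial.dvd_iff_isRoot.2 hz0
    have hR : R.IsRoot z0 := by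
      rw [Polynomial.IsRoot, ← h z0, hz0, zero_mul]
    obtain ⟨R', rfl⟩ := Polynomial.dvd_iff_isRoot.2 hR
    have hA' : A' ≠ 0 := right_ne_zero_of_mul hA
    refine ih A' R' F ?_ hA' hF ?_
    · rw [Polynomial.natDegree_mul (Polynomial.X_sub_C_ne_zero z0) hA',
        Polynomial.natDegree_X_sub_C] at hn
      omega
    · have h1 : ∀ z, (Polynomial.X - Polynomial.C z0).eval z *
          (A'.eval z * F z - R'.eval z) = 0 := by
        intro z
        have h2 := h z
        rw [Polynomial.eval_mul, Polynomial.eval_mul] at h2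
        rw [mul_sub, ← mul_assoc, h2, sub_self]
      have h3 := ent_mul (A := fun z => (Polynomial.X - Polynomial.C z0).eval z)
        (F := fun z => A'.eval z * F z - R'.eval z) (Polynomial.differentiable _)
        ((A'.differentiable.mul hF).sub R'.differentiable) h1
        ⟨z0 + 1, by simp⟩
      intro z
      exact sub_eq_zero.1 (h3 z)

/-! ### The family of an element of the ring -/

/-- The family attached to a curve with coordinates in the gap ring. -/
structure Fml {N : ℕ} (f : ℂ → Fin N → ℂ) (m : ℕ) where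
  /-- functions with gaps -/
  g : ℂ → Fin m → ℂ
  /-- polynomials -/
  Q : Fin N → MvPolynomial (Fin m) ℂ
  /-- denominator -/
  a : Polynomial ℂ
  /-- indices of a basis -/
  I : Finset (Fin m)
  /-- constant terms -/
  p : Fin m → Polynomial ℂ
  /-- coefficients -/
  b : Fin m → Fin m → Polynomial ℂ
  dg : ∀ i, Differentiable ℂ (fun z => g z i)
  fQ : ∀ z j, f z j = MvPolynomial.eval (g z) (Q j)
  a0 : a ≠ 0
  rel : ∀ z i, a.eval z * g z i = (p i).eval z + ∑ l ∈ I, (b i l).eval z * g z l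
  zero : ∀ G : MvPolynomial (Fin m) ℂ, (∀ z, MvPolynomial.eval (g z) G = 0) →
        ∀ (z : ℂ) (x : Fin m → ℂ), a.eval z ≠ 0 →
        MvPolynomial.eval (fun i => ((p i).eval z + ∑ l ∈ I, (b i l).eval z * x l) / a.eval z)
          G = 0

theorem exists_fml {N : ℕ} {f : ℂ → Fin N → ℂ} (hf : ∀ j, (fun z => f z j) ∈ GapRing 0) :
    ∃ m, Nonempty (Fml f m) := by
  obtain ⟨m, g, Q, hg, hQ⟩ := exists_repr hf
  obtain ⟨a, I, p, b, ha, hrel, hz⟩ := structure_gaps hg
  exact ⟨m, ⟨⟨g, Q, a, I, p, b, fun i => (hg i).1, hQ, ha, hrel, hz⟩⟩⟩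

namespace Fml

variable {N m : ℕ} {f : ℂ → Fin N → ℂ} (D : Fml f m)

/-- the point of the affine space with parameters `z, x` -/
noncomputable def Φ (z : ℂ) (x : Fin m → ℂ) (i : Fin m) : ℂ :=
  ((D.p i).eval z + ∑ l ∈ D.I, (D.b i l).eval z * x l) / D.a.eval z

/-- the point of the variety with parameters `z, x` -/
noncomputable def Ψ (z : ℂ) (x : Fin m → ℂ) (j : Fin N) : ℂ := MvPolynomial.eval (D.Φ z x) (D.Q j)

theorem Φ_g {z : ℂ} (hz : D.a.eval z ≠ 0) : D.Φ z (D.g z) = D.g z := by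
  funext i
  rw [Φ, ← D.rel z i, mul_div_cancel_left₀ _ hz]

theorem Ψ_g {z : ℂ} (hz : D.a.eval z ≠ 0) : D.Ψ z (D.g z) = f z := by
  funext j
  rw [Ψ, D.Φ_g hz, D.fQ]

theorem Φ_line (z : ℂ) (x y : Fin m → ℂ) (t : ℂ) :
    D.Φ z (fun l => x l + t * (y l - x l)) = fun i => D.Φ z x i + t * (D.Φ z y i - D.Φ z x i) := by
  funext i
  simp only [Φ]
  rw [← sub_div, mul_div_assoc', ← add_div]
  congr 1
  have : ∑ l ∈ D.I, (D.b i l).eval z * (x l + t * (y l - x l)) =
      ∑ l ∈ D.I, (D.b i l).eval z * x l + t * (∑ l ∈ D.I, (D.b i l).eval z * y l -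
        ∑ l ∈ D.I, (D.b i l).eval z * x l) := by
    rw [← Finset.sum_sub_distrib, Finset.mul_sum, ← Finset.sum_add_distrib]
    exact Finset.sum_congr rfl fun l _ => by ring
  rw [this]
  ring

theorem rel_Ψ {G : MvPolynomial (Fin N) ℂ} (hG : ∀ z, MvPolynomial.eval (f z) G = 0) {z : ℂ}
    (hz : D.a.eval z ≠ 0) (x : Fin m → ℂ) : MvPolynomial.eval (D.Ψ z x) G = 0 := by
  have h1 : ∀ y : Fin m → ℂ, MvPolynomial.eval y (MvPolynomial.bind₁ D.Q G) =
      MvPolynomial.eval (fun j => MvPolynomial.eval y (D.Q j)) G := by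
    intro y
    rw [MvPolynomial.eval, MvPolynomial.eval₂Hom_bind₁]
    rfl
  have h2 := D.zero (MvPolynomial.bind₁ D.Q G) (fun w => by
    rw [h1, ← hG w]
    congr 2
    funext j
    exact (D.fQ w j).symm) z x hz
  rw [h1] at h2
  exact h2

/-- the polynomial curve through `f z` -/
noncomputable def crv (z : ℂ) (x : Fin m → ℂ) (j : Fin N) : Polynomial ℂ :=
  MvPolynomial.aeval (fun i => Polynomial.C (D.g z i) +
    Polynomial.C (D.Φ z x i - D.g z i) * Polynomial.X) (D.Q j)

theorem eval_crv {z : ℂ} (hz : D.a.eval z ≠ 0) (x : Fin m → ℂ) (t : ℂ) (j : Fin N) :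
    (D.crv z x j).eval t = D.Ψ z (fun l => D.g z l + t * (x l - D.g z l)) j := by
  rw [crv, Ψ, D.Φ_line, MvPolynomial.aeval_def]
  have h1 : Polynomial.eval t (MvPolynomial.eval₂ (algebraMap ℂ (Polynomial ℂ))
      (fun i => Polynomial.C (D.g z i) +
        Polynomial.C (D.Φ z x i - D.g z i) * Polynomial.X) (D.Q j)) =
      (Polynomial.evalRingHom t) (MvPolynomial.eval₂ (algebraMap ℂ (Polynomial ℂ))
      (fun i => Polynomial.C (D.g z i) +
        Polynomial.C (D.Φ z x i - D.g z i) * Polynomial.X) (D.Q j)) := rfl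
  rw [h1, MvPolynomial.hom_eval₂]
  have h2 : (Polynomial.evalRingHom t).comp (algebraMap ℂ (Polynomial ℂ)) = RingHom.id ℂ := by
    ext c
    simp
  rw [h2, MvPolynomial.eval₂_id]
  congr 2
  funext i
  rw [D.Φ_g hz]
  simp
  ring

theorem crv_zero {z : ℂ} (hz : D.a.eval z ≠ 0) (x : Fin m → ℂ) (j : Fin N) :
    (D.crv z x j).eval 0 = f z j := by
  rw [D.eval_crv hz]
  simp only [zero_mul, add_zero]
  rw [D.Ψ_g hz]

theorem crv_one {z : ℂ} (hz : D.a.eval z ≠ 0) (x : Fin m → ℂ) (j : Fin N) :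
    (D.crv z x j).eval 1 = D.Ψ z x j := by
  rw [D.eval_crv hz]
  congr 1
  funext l
  ring

/-- the polynomials which are the values of the family at a constant argument -/
noncomputable def rp (d : ℕ) (x : Fin m → ℂ) (j : Fin N) : Polynomial ℂ :=
  hval d Polynomial.C D.a
    (fun i => D.p i + ∑ l ∈ D.I, D.b i l * Polynomial.C (x l)) (D.Q j)

theorem eval_rp {d : ℕ} {x : Fin m → ℂ} {j : Fin N} (hd : (D.Q j).totalDegree ≤ d) {z : ℂ}
    (hz : D.a.eval z ≠ 0) : (D.rp d x j).eval z = D.a.eval z ^ d * D.Ψ z x j := by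
  have h1 : (D.rp d x j).eval z = (Polynomial.evalRingHom z) (D.rp d x j) := rfl
  rw [h1, rp, map_hval]
  have h2 : (Polynomial.evalRingHom z).comp Polynomial.C = RingHom.id ℂ := by
    ext c
    simp
  have h3 : (fun i => (Polynomial.evalRingHom z) (D.p i + ∑ l ∈ D.I, D.b i l *
      Polynomial.C (x l))) = fun i => D.a.eval z * D.Φ z x i := by
    funext i
    rw [Φ, mul_div_cancel₀ _ hz]
    simp [Polynomial.eval_finsetSum]
  rw [h2, h3, Polynomial.coe_evalRingHom, hval_mul _ _ _ hd, MvPolynomial.eval₂_id]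
  rfl

theorem continuous_Ψ {z0 : ℂ} (hz : D.a.eval z0 ≠ 0) (x : Fin m → ℂ) (j : Fin N) :
    ContinuousAt (fun z => D.Ψ z x j) z0 := by
  have h1 : ∀ i, ContinuousAt (fun z => D.Φ z x i) z0 := by
    intro i
    unfold Φ
    refine ContinuousAt.div ?_ (D.a.continuous.continuousAt) hz
    refine (D.p i).continuous.continuousAt.add ?_
    exact tendsto_finsetSum _ fun l _ => ((D.b i l).continuous.continuousAt.mul
      continuousAt_const)
  have h2 : ContinuousAt (fun z => D.Φ z x) z0 := continuousAt_pi.2 h1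
  exact (MvPolynomial.continuous_eval (D.Q j)).continuousAt.comp h2

end Fml

end Pool.Agent.TH600.LC
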