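import Pool.Agent.TH600.LC.DiffFam
import Pool.Agent.TH600.LC.Curve

/-!
# Entire functions with gaps over rings of differentially algebraic entire functions
-/

set_option autoImplicit false

namespace Pool.Agent.TH600.LC

open Finset AlgebraicIndependent Module

/-- `y` satisfies a nontrivial algebraic differential equation `P(z, y, y', ..., y^(n-1)) = 0` whose
coefficients are polynomials. -/
def DAlg (y : ℂ → ℂ) : Prop :=
  ∃ (n : ℕ) (P : MvPolynomial (Fin n) (Polynomial ℂ)), P ≠ 0 ∧
    ∀ z, MvPolynomial.eval₂ (Polynomial.evalRingHom z) (fun i : Fin n => iteratedDeriv i y z) P = 0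

/-- The Taylor series. -/
noncomputable def ts (h : ℂ → ℂ) : PowerSeries ℂ :=
  PowerSeries.mk fun k => ((k.factorial : ℂ))⁻¹ * iteratedDeriv k h 0

theorem tser_eq {m : ℕ} (g : ℂ → Fin m → ℂ) (i : Fin m) : tser g i = ts fun z => g z i := rfl

theorem theta_ts (h : ℂ → ℂ) : theta ℂ (ts h) = PowerSeries.X * ts (deriv h) := by
  ext n
  rw [coeff_theta]
  cases n with
  | zero => simp
  | succ n =>
    rw [PowerSeries.coeff_succ_X_mul, ts, ts, PowerSeries.coeff_mk, PowerSeries.coeff_mk,
      iteratedDeriv_succ', Nat.factorial_succ]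
    push_cast
    have h1 : ((n : ℂ) + 1) ≠ 0 := by exact_mod_cast Nat.succ_ne_zero n
    field_simp

/-- Evaluation of polynomials in `z` and `y`. -/
noncomputable def sR {s : ℕ} (y : ℂ → Fin s → ℂ) :
    MvPolynomial (Fin s) (Polynomial ℂ) →+* PowerSeries ℂ :=
  MvPolynomial.eval₂Hom Polynomial.coeToPowerSeries.ringHom (tser y)

/-- Evaluation of polynomials in `z` and `y` at the point `z`. -/
noncomputable def sZ {s : ℕ} (y : ℂ → Fin s → ℂ) (z : ℂ) :
    MvPolynomial (Fin s) (Polynomial ℂ) →+* ℂ :=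
  MvPolynomial.eval₂Hom (Polynomial.evalRingHom z) (y z)

open H458.EC in
theorem ent_sR {s : ℕ} {y : ℂ → Fin s → ℂ} (hy : ∀ i, Differentiable ℂ (fun z => y z i))
    (r : MvPolynomial (Fin s) (Polynomial ℂ)) :
    Ent (sR y r) ∧ ∀ z : ℂ, H458.EC.ev (sR y r) z = sZ y z r := by
  induction r using MvPolynomial.induction_on with
  | C p =>
    have h1 : sR y (MvPolynomial.C p) = (p : PowerSeries ℂ) := by simp [sR]
    have h2 : ∀ z, sZ y z (MvPolynomial.C p) = p.eval z := by simp [sZ]
    rw [h1]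
    exact ⟨ent_coe p, fun z => by rw [ev_coe, h2]⟩
  | add p q hp hq =>
    rw [map_add]
    exact ⟨hp.1.add hq.1, fun z => by rw [H458.EC.ev_add hp.1 hq.1, hp.2, hq.2, map_add]⟩
  | mul_X p i hp =>
    have h1 : sR y (MvPolynomial.X i) = tser y i := by simp [sR]
    have h2 : ∀ z, sZ y z (MvPolynomial.X i) = y z i := by simp [sZ]
    rw [map_mul, h1]
    exact ⟨hp.1.mul (ent_tser (hy i)), fun z => by
      rw [H458.EC.ev_mul hp.1 (ent_tser (hy i)), hp.2, ev_tser (hy i), map_mul, h2]⟩

theorem sZ_zero {s : ℕ} {y : ℂ → Fin s → ℂ} (hy : ∀ i, Differentiable ℂ (fun z => y z i))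
    {r : MvPolynomial (Fin s) (Polynomial ℂ)} (hr : sR y r = 0) (z : ℂ) : sZ y z r = 0 := by
  have h1 := (ent_sR hy r).2 z
  rw [← h1, hr]
  have h2 := ev_coe 0 z
  rwa [Polynomial.coe_zero, Polynomial.eval_zero] at h2

theorem sR_zero {s : ℕ} {y : ℂ → Fin s → ℂ} (hy : ∀ i, Differentiable ℂ (fun z => y z i))
    {r : MvPolynomial (Fin s) (Polynomial ℂ)} (hr : ∀ z, sZ y z r = 0) : sR y r = 0 := by
  refine H458.EC.eq_zero_of_ev (ent_sR hy r).1 fun z => ?_
  rw [(ent_sR hy r).2, hr z]

theorem emb_coe_mem (T : Set (EE ℂ)) (p : Polynomial ℂ) :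
    emb ℂ (p : PowerSeries ℂ) ∈ clo (KK ℂ) T := by
  rw [← algebraMap_kk]
  exact (clo (KK ℂ) T).algebraMap_mem _

/-- **Differentially algebraic functions** generate differential fields of finite transcendence
degree. -/
theorem exists_T {y : ℂ → ℂ} (hyd : Differentiable ℂ y) (hy : DAlg y)
    {D : Derivation ℂ (EE ℂ) (EE ℂ)} (hD : ∀ u, D (emb ℂ u) = emb ℂ (theta ℂ u)) :
    ∃ T : Set (EE ℂ), T.Finite ∧ (∀ s ∈ T, D s ∈ clo (KK ℂ) T) ∧ emb ℂ (ts y) ∈ clo (KK ℂ) T := by
  classical
  obtain ⟨n, P, hP, hP0⟩ := hy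
  let Y : ℕ → EE ℂ := fun j => emb ℂ (ts (iteratedDeriv j y))
  have hdj : ∀ j, Differentiable ℂ (iteratedDeriv j y) := fun j => by
    have h1 : ContDiff ℂ ⊤ y := hyd.contDiff
    exact (h1.differentiable_iteratedDeriv j (by exact_mod_cast WithTop.coe_lt_top _))
  have hDY : ∀ j, D (Y j) = emb ℂ (PowerSeries.X) * Y (j + 1) := by
    intro j
    simp only [Y]
    rw [hD, theta_ts, map_mul, iteratedDeriv_succ]
  -- one of the derivatives is algebraic over the preceding ones
  obtain ⟨j, hjn, hj⟩ : ∃ j < n, Y j ∈ clo (KK ℂ) (Y '' Set.Iio j) := by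
    by_contra hcon
    push Not at hcon
    have hind : ∀ j ≤ n, (matroid (KK ℂ) (EE ℂ)).Indep (Y '' Set.Iio j) := by
      intro j
      induction j with
      | zero =>
        intro _
        have : Set.Iio 0 = (∅ : Set ℕ) := by ext x; simp
        rw [this, Set.image_empty]
        exact (matroid (KK ℂ) (EE ℂ)).empty_indep
      | succ j ih =>
        intro hj
        have h1 : Set.Iio (j + 1) = insert j (Set.Iio j) := by
          ext x
          simp only [Set.mem_Iio, Set.mem_insert_iff]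
          omega
        rw [h1, Set.image_insert_eq]
        have h2 := hcon j (by omega)
        have h3 : Y j ∉ (matroid (KK ℂ) (EE ℂ)).closure (Y '' Set.Iio j) := by
          rw [← coe_clo]
          exact h2
        exact ((ih (by omega)).notMem_closure_iff (Set.mem_univ _)).1 h3 |>.1
    have hinj : Function.Injective fun i : Fin n => Y i := by
      intro i i' h
      by_contra hne
      rcases lt_or_gt_of_ne (fun h0 => hne (Fin.ext h0)) with h1 | h1
      · refine hcon i' i'.2 ?_
        rw [← show Y i = Y i' from h]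
        exact subset_clo _ ⟨i, h1, rfl⟩
      · refine hcon i i.2 ?_
        rw [show Y i = Y i' from h]
        exact subset_clo _ ⟨i', h1, rfl⟩
    have h1 : AlgebraicIndependent (KK ℂ) fun i : Fin n => Y i := by
      rw [← algebraicIndependent_subtype_range hinj]
      have h2 : Set.range (fun i : Fin n => Y i) = Y '' Set.Iio n := by
        ext x
        constructor
        · rintro ⟨i, rfl⟩
          exact ⟨i, i.2, rfl⟩
        · rintro ⟨i, hi, rfl⟩
          exact ⟨⟨i, hi⟩, rfl⟩
      rw [h2]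
      exact hind n le_rfl
    have h2 : MvPolynomial.map (algebraMap (Polynomial ℂ) (KK ℂ)) P = 0 := by
      refine algebraicIndependent_iff.1 h1 _ ?_
      rw [MvPolynomial.aeval_def, MvPolynomial.eval₂_map]
      have h3 : (algebraMap (KK ℂ) (EE ℂ)).comp (algebraMap (Polynomial ℂ) (KK ℂ)) =
          (emb ℂ).comp Polynomial.coeToPowerSeries.ringHom :=
        RingHom.ext fun p => algebraMap_kk p
      let y' : ℂ → Fin n → ℂ := fun z i => iteratedDeriv i y z
      have h4 : sR y' P = 0 := sR_zero (fun i => hdj i) hP0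
      rw [h3]
      have h5 := MvPolynomial.eval₂_comp_left (emb ℂ) Polynomial.coeToPowerSeries.ringHom
        (tser y') P
      have h6 : MvPolynomial.eval₂ Polynomial.coeToPowerSeries.ringHom (tser y') P = 0 := h4
      rw [h6, map_zero] at h5
      exact h5.symm
    exact hP (MvPolynomial.map_injective _ (IsFractionRing.injective _ _) (by
      rw [h2, map_zero]))
  refine ⟨Y '' Set.Iio j, (Set.finite_Iio j).image Y, ?_, ?_⟩
  · rintro _ ⟨i, hi, rfl⟩
    rw [hDY]
    refine (clo (KK ℂ) (Y '' Set.Iio j)).mul_mem ?_ ?_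
    · have h1 := emb_coe_mem (Y '' Set.Iio j) Polynomial.X
      rwa [Polynomial.coe_X] at h1
    · rcases Nat.lt_or_ge (i + 1) j with h1 | h1
      · exact subset_clo _ ⟨i + 1, h1, rfl⟩
      · have h2 : i + 1 = j := by
          have : i < j := hi
          omega
        rw [h2]
        exact hj
  · have h0 : Y 0 = emb ℂ (ts y) := by
      simp only [Y]
      rw [iteratedDeriv_zero]
    rw [← h0]
    rcases Nat.eq_zero_or_pos j with h1 | h1
    · rw [h1] at hj ⊢
      exact hj
    · exact subset_clo _ ⟨0, h1, rfl⟩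

end Pool.Agent.TH600.LC
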