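import Pool.Agent.TH600.LC.Coef
import Pool.Agent.TH143.Sys

/-!
# The entire functions with linear differential equations form a ring
-/

set_option autoImplicit false

namespace Pool.Agent.TH600.LC

open Finset
open Pool.Agent.TH143 (PolODE)

/-- `e` lies in a finite-dimensional space which is stable under the derivation. -/
def FinD (D : Derivation ℂ (EE ℂ) (EE ℂ)) (e : EE ℂ) : Prop :=
  ∃ V : Submodule (KK ℂ) (EE ℂ), V.FG ∧ e ∈ V ∧ ∀ v ∈ V, D v ∈ V

section

variable {D : Derivation ℂ (EE ℂ) (EE ℂ)}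

theorem FinD.add {e e' : EE ℂ} (h : FinD D e) (h' : FinD D e') : FinD D (e + e') := by
  obtain ⟨V, h1, h2, h3⟩ := h
  obtain ⟨V', h1', h2', h3'⟩ := h'
  refine ⟨V ⊔ V', h1.sup h1', ?_, fun v hv => ?_⟩
  · exact Submodule.add_mem_sup h2 h2'
  · obtain ⟨a, ha, b, hb, rfl⟩ := Submodule.mem_sup.1 hv
    rw [map_add]
    exact Submodule.add_mem_sup (h3 a ha) (h3' b hb)

theorem FinD.mul {e e' : EE ℂ} (h : FinD D e) (h' : FinD D e') : FinD D (e * e') := by
  obtain ⟨V, h1, h2, h3⟩ := h
  obtain ⟨V', h1', h2', h3'⟩ := h'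
  refine ⟨V * V', h1.mul h1', Submodule.mul_mem_mul h2 h2', fun v hv => ?_⟩
  refine Submodule.mul_induction_on hv (fun a ha b hb => ?_) fun a b ha hb => ?_
  · rw [Derivation.leibniz, smul_eq_mul, smul_eq_mul, mul_comm b]
    exact (V * V').add_mem (Submodule.mul_mem_mul ha (h3' b hb))
      (Submodule.mul_mem_mul (h3 a ha) hb)
  · rw [map_add]
    exact (V * V').add_mem ha hb

theorem finD_kk (hc : ∀ c : KK ℂ, ∃ c' : KK ℂ, D (algebraMap (KK ℂ) (EE ℂ) c) =
    algebraMap (KK ℂ) (EE ℂ) c') (c : KK ℂ) : FinD D (algebraMap (KK ℂ) (EE ℂ) c) := by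
  refine ⟨1, ⟨{1}, by rw [Finset.coe_singleton, Submodule.one_eq_span]⟩,
    Submodule.mem_one.2 ⟨c, rfl⟩, ?_⟩
  intro v hv
  obtain ⟨c, rfl⟩ := Submodule.mem_one.1 hv
  obtain ⟨c', hc'⟩ := hc c
  rw [hc']
  exact Submodule.mem_one.2 ⟨c', rfl⟩

theorem differentiable_iter {y : ℂ → ℂ} (hyd : Differentiable ℂ y) (j : ℕ) :
    Differentiable ℂ (iteratedDeriv j y) := by
  have h1 : ContDiff ℂ ⊤ y := hyd.contDiff
  exact (h1.differentiable_iteratedDeriv j (by exact_mod_cast WithTop.coe_lt_top _))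

theorem finD_of_polODE (hD : ∀ u, D (emb ℂ u) = emb ℂ (theta ℂ u))
    (hc : ∀ c : KK ℂ, ∃ c' : KK ℂ, D (algebraMap (KK ℂ) (EE ℂ) c) =
      algebraMap (KK ℂ) (EE ℂ) c') {f : ℂ → ℂ} (hfd : Differentiable ℂ f) (hf : PolODE f) :
    FinD D (emb ℂ (ts f)) := by
  classical
  obtain ⟨m, a, ⟨k0, hk0, hn⟩, h⟩ := hf
  let T := (Finset.range (m + 1)).filter fun k => a k ≠ 0
  have hT : T.Nonempty :=
    ⟨k0, Finset.mem_filter.mpr ⟨Finset.mem_range.mpr (Nat.lt_succ_of_le hk0), hn⟩⟩
  set l := T.max' hT with hl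
  have hlT : l ∈ T := T.max'_mem hT
  have hlm : l ≤ m := Nat.lt_succ_iff.mp (Finset.mem_range.mp (Finset.mem_filter.mp hlT).1)
  have hlN : a l ≠ 0 := (Finset.mem_filter.mp hlT).2
  have hbig : ∀ k ∈ Finset.range (m + 1), k ∉ Finset.range (l + 1) → a k = 0 := by
    intro k hk hkl
    by_contra hcon
    have : k ∈ T := Finset.mem_filter.mpr ⟨hk, hcon⟩
    have h2 := T.le_max' k this
    rw [Finset.mem_range] at hkl
    omega
  have hsub : Finset.range (l + 1) ⊆ Finset.range (m + 1) := by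
    intro k hk
    rw [Finset.mem_range] at hk ⊢
    omega
  let Y : ℕ → EE ℂ := fun j => emb ℂ (ts (iteratedDeriv j f))
  have hDY : ∀ j, D (Y j) = emb ℂ (PowerSeries.X) * Y (j + 1) := by
    intro j
    simp only [Y]
    rw [hD, theta_ts, map_mul, iteratedDeriv_succ]
  -- the relation
  have hrel : ∑ k ∈ Finset.range (l + 1), emb ℂ (a k : PowerSeries ℂ) * Y k = 0 := by
    let g : ℂ → Fin (l + 1) → ℂ := fun z i => iteratedDeriv i f z
    let P : MvPolynomial (Fin (l + 1)) (Polynomial ℂ) :=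
      ∑ i : Fin (l + 1), MvPolynomial.C (a i) * MvPolynomial.X i
    have h1 : sR g P = 0 := by
      refine sR_zero (fun i => differentiable_iter hfd i) fun z => ?_
      have h2 : sZ g z P = ∑ i : Fin (l + 1), (a i).eval z * iteratedDeriv i f z := by
        simp [P, sZ, g]
      rw [h2, Fin.sum_univ_eq_sum_range (fun k => (a k).eval z * iteratedDeriv k f z),
        Finset.sum_subset hsub (fun k hk hk' => by rw [hbig k hk hk', Polynomial.eval_zero,
          zero_mul])]
      exact h z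
    have h2 : sR g P = ∑ i : Fin (l + 1), (a i : PowerSeries ℂ) * ts (iteratedDeriv i f) := by
      simp [P, sR, g, tser_eq]
    rw [h2] at h1
    have h3 := congrArg (emb ℂ) h1
    rw [map_zero, map_sum] at h3
    rw [← h3, ← Fin.sum_univ_eq_sum_range (fun k => emb ℂ (a k : PowerSeries ℂ) * Y k)]
    refine Finset.sum_congr rfl fun i _ => ?_
    rw [map_mul]
  let V : Submodule (KK ℂ) (EE ℂ) := Submodule.span (KK ℂ) (Y '' Set.Iio l)
  have hYl : Y l ∈ V := by
    rw [Finset.sum_range_succ] at hrel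
    have h1 : emb ℂ (a l : PowerSeries ℂ) ≠ 0 := emb_coe_ne hlN
    have h2 : Y l = -((algebraMap (Polynomial ℂ) (KK ℂ) (a l))⁻¹ •
        ∑ k ∈ Finset.range l, (algebraMap (Polynomial ℂ) (KK ℂ) (a k)) • Y k) := by
      simp only [Algebra.smul_def, map_inv₀, algebraMap_kk]
      field_simp
      linear_combination hrel
    rw [h2]
    refine V.neg_mem (V.smul_mem _ (V.sum_mem fun k hk => V.smul_mem _ ?_))
    exact Submodule.subset_span ⟨k, Finset.mem_range.1 hk, rfl⟩
  have hYj : ∀ j ≤ l, Y j ∈ V := by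
    intro j hj
    rcases Nat.lt_or_ge j l with h1 | h1
    · exact Submodule.subset_span ⟨j, h1, rfl⟩
    · rw [show j = l by omega]
      exact hYl
  have hX : ∀ v ∈ V, emb ℂ (PowerSeries.X) * v ∈ V := by
    intro v hv
    have h1 := V.smul_mem (algebraMap (Polynomial ℂ) (KK ℂ) Polynomial.X) hv
    rwa [Algebra.smul_def, algebraMap_kk, Polynomial.coe_X] at h1
  refine ⟨V, Submodule.fg_span ((Set.finite_Iio l).image Y), ?_, fun v hv => ?_⟩
  · have h0 : emb ℂ (ts f) = Y 0 := by
      simp only [Y]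
      rw [iteratedDeriv_zero]
    rw [h0]
    exact hYj 0 (Nat.zero_le _)
  · induction hv using Submodule.span_induction with
    | mem v hv =>
      obtain ⟨j, hj, rfl⟩ := hv
      rw [hDY]
      exact hX _ (hYj (j + 1) hj)
    | zero =>
      rw [map_zero]
      exact V.zero_mem
    | add u v _ _ h1 h2 =>
      rw [map_add]
      exact V.add_mem h1 h2
    | smul c v hv h1 =>
      obtain ⟨c', hc'⟩ := hc c
      rw [Algebra.smul_def, Derivation.leibniz, hc', smul_eq_mul, smul_eq_mul,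
        ← Algebra.smul_def, mul_comm v, ← Algebra.smul_def]
      exact V.add_mem (V.smul_mem _ h1) (V.smul_mem _ hv)

theorem polODE_of_finD (hD : ∀ u, D (emb ℂ u) = emb ℂ (theta ℂ u)) {f : ℂ → ℂ}
    (hfd : Differentiable ℂ f) (hf : FinD D (emb ℂ (ts f))) : PolODE f := by
  classical
  obtain ⟨V, hfg, hfV, hst⟩ := hf
  let Y : ℕ → EE ℂ := fun j => emb ℂ (ts (iteratedDeriv j f))
  have hDY : ∀ j, D (Y j) = emb ℂ (PowerSeries.X) * Y (j + 1) := by
    intro j
    simp only [Y]
    rw [hD, theta_ts, map_mul, iteratedDeriv_succ]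
  have hYV : ∀ j, Y j ∈ V := by
    intro j
    induction j with
    | zero =>
      simp only [Y]
      rw [iteratedDeriv_zero]
      exact hfV
    | succ j ih =>
      have h1 := V.smul_mem (algebraMap (Polynomial ℂ) (KK ℂ) Polynomial.X)⁻¹ (hst _ ih)
      rw [hDY, Algebra.smul_def, map_inv₀, algebraMap_kk, Polynomial.coe_X] at h1
      have h2 : emb ℂ (PowerSeries.X : PowerSeries ℂ) ≠ 0 := by
        have h3 := emb_coe_ne (F := ℂ) (p := Polynomial.X) Polynomial.X_ne_zero
        rwa [Polynomial.coe_X] at h3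
      rwa [inv_mul_cancel_left₀ h2] at h1
  have hfin : Module.Finite (KK ℂ) V := Module.Finite.iff_fg.2 hfg
  set N := Module.finrank (KK ℂ) V with hN
  have hdep : ¬ LinearIndependent (KK ℂ) (fun i : Fin (N + 1) => (⟨Y i, hYV i⟩ : V)) := by
    intro h1
    have h2 := h1.fintype_card_le_finrank
    rw [Fintype.card_fin] at h2
    omega
  rw [Fintype.not_linearIndependent_iff] at hdep
  obtain ⟨c, hc, i0, hi0⟩ := hdep
  obtain ⟨b, hb⟩ := IsLocalization.exist_integer_multiples_of_finite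
    (nonZeroDivisors (Polynomial ℂ)) c
  choose a ha using hb
  have hb0 : (b : Polynomial ℂ) ≠ 0 := nonZeroDivisors.ne_zero b.2
  have ha' : ∀ i, algebraMap (Polynomial ℂ) (KK ℂ) (a i) =
      algebraMap (Polynomial ℂ) (KK ℂ) b * c i := by
    intro i
    rw [ha i, Algebra.smul_def]
  have hai0 : a i0 ≠ 0 := by
    intro h1
    have h2 := ha' i0
    rw [h1, map_zero] at h2
    rcases mul_eq_zero.1 h2.symm with h3 | h3
    · exact hb0 ((map_eq_zero_iff _ (IsFractionRing.injective (Polynomial ℂ) (KK ℂ))).1 h3)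
    · exact hi0 h3
  have h1 : ∑ i : Fin (N + 1), emb ℂ (a i : PowerSeries ℂ) * Y i = 0 := by
    have h2 : ∑ i : Fin (N + 1), c i • Y i = 0 := by
      have h3 := congrArg (Submodule.subtype V) hc
      simpa using h3
    have h3 : ∀ i : Fin (N + 1), emb ℂ (a i : PowerSeries ℂ) * Y i =
        emb ℂ ((b : Polynomial ℂ) : PowerSeries ℂ) * (c i • Y i) := by
      intro i
      rw [← algebraMap_kk, ha', map_mul, algebraMap_kk, Algebra.smul_def, mul_assoc]
    rw [Finset.sum_congr rfl fun i _ => h3 i, ← Finset.mul_sum, h2, mul_zero]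
  let g : ℂ → Fin (N + 1) → ℂ := fun z i => iteratedDeriv i f z
  let P : MvPolynomial (Fin (N + 1)) (Polynomial ℂ) :=
    ∑ i : Fin (N + 1), MvPolynomial.C (a i) * MvPolynomial.X i
  have h2 : sR g P = 0 := by
    have h3 : sR g P = ∑ i : Fin (N + 1), (a i : PowerSeries ℂ) * ts (iteratedDeriv i f) := by
      simp [P, sR, g, tser_eq]
    rw [h3]
    apply emb_injective
    rw [map_zero, map_sum, ← h1]
    refine Finset.sum_congr rfl fun i _ => ?_
    rw [map_mul]
  refine ⟨N, fun j => if h : j < N + 1 then a ⟨j, h⟩ else 0, ⟨i0, by omega, ?_⟩, fun z => ?_⟩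
  · beta_reduce
    rw [dif_pos i0.2]
    exact hai0
  · have h3 := sZ_zero (fun i => differentiable_iter hfd i) h2 z
    have h4 : sZ g z P = ∑ i : Fin (N + 1), (a i).eval z * iteratedDeriv i f z := by
      simp [P, sZ, g]
    rw [h4] at h3
    rw [← h3, ← Fin.sum_univ_eq_sum_range (fun k =>
      (if h : k < N + 1 then a ⟨k, h⟩ else 0).eval z * iteratedDeriv k f z)]
    refine Finset.sum_congr rfl fun i _ => ?_
    rw [dif_pos i.2]

end

theorem ts_add' {f g : ℂ → ℂ} (hf : Differentiable ℂ f) (hg : Differentiable ℂ g) :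
    ts (f + g) = ts f + ts g := by
  let u : ℂ → Fin 3 → ℂ := fun z => ![f z, g z, f z + g z]
  have h1 : sR u (MvPolynomial.X 2 - MvPolynomial.X 0 - MvPolynomial.X 1) = 0 := by
    refine sR_zero (fun i => ?_) fun z => ?_
    · fin_cases i
      · exact hf
      · exact hg
      · exact hf.add hg
    · simp [sZ, u]
  have h2 : ts (f + g) - ts f - ts g = 0 := by
    rw [← h1]
    simp only [sR, map_sub, MvPolynomial.coe_eval₂Hom, MvPolynomial.eval₂_X]
    rfl
  linear_combination h2

theorem ts_mul' {f g : ℂ → ℂ} (hf : Differentiable ℂ f) (hg : Differentiable ℂ g) :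
    ts (f * g) = ts f * ts g := by
  let u : ℂ → Fin 3 → ℂ := fun z => ![f z, g z, f z * g z]
  have h1 : sR u (MvPolynomial.X 2 - MvPolynomial.X 0 * MvPolynomial.X 1) = 0 := by
    refine sR_zero (fun i => ?_) fun z => ?_
    · fin_cases i
      · exact hf
      · exact hg
      · exact hf.mul hg
    · simp [sZ, u]
  have h2 : ts (f * g) - ts f * ts g = 0 := by
    rw [← h1]
    simp only [sR, map_sub, map_mul, MvPolynomial.coe_eval₂Hom, MvPolynomial.eval₂_X]
    rfl
  linear_combination h2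

/-- The ring of the entire functions which satisfy linear differential equations with polynomial
coefficients. -/
noncomputable def DFin : Subalgebra ℂ (ℂ → ℂ) where
  carrier := {f | Differentiable ℂ f ∧ PolODE f}
  mul_mem' := by
    rintro f g ⟨hf, hf'⟩ ⟨hg, hg'⟩
    obtain ⟨D, hD, hc⟩ := exists_der ℂ
    refine ⟨hf.mul hg, polODE_of_finD hD (hf.mul hg) ?_⟩
    rw [ts_mul' hf hg, map_mul]
    exact (finD_of_polODE hD hc hf hf').mul (finD_of_polODE hD hc hg hg')
  add_mem' := by
    rintro f g ⟨hf, hf'⟩ ⟨hg, hg'⟩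
    obtain ⟨D, hD, hc⟩ := exists_der ℂ
    refine ⟨hf.add hg, polODE_of_finD hD (hf.add hg) ?_⟩
    rw [ts_add' hf hg, map_add]
    exact (finD_of_polODE hD hc hf hf').add (finD_of_polODE hD hc hg hg')
  algebraMap_mem' := by
    intro c
    refine ⟨differentiable_const c, 1, fun k => if k = 1 then 1 else 0,
      ⟨1, le_rfl, by simp⟩, fun z => ?_⟩
    rw [Finset.sum_range_succ, Finset.sum_range_one, iteratedDeriv_one]
    have h1 : deriv (algebraMap ℂ (ℂ → ℂ) c) z = 0 := deriv_const z c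
    rw [h1]
    simp

theorem mem_dfin {f : ℂ → ℂ} : f ∈ DFin ↔ Differentiable ℂ f ∧ PolODE f := Iff.rfl

theorem id_mem_dfin : (fun z : ℂ => z) ∈ DFin := by
  refine mem_dfin.2 ⟨differentiable_id, 2, fun k => if k = 2 then 1 else 0,
      ⟨2, le_rfl, by simp⟩, fun z => ?_⟩
  have h1 : iteratedDeriv 2 (fun z : ℂ => z) z = 0 := by
    rw [iteratedDeriv_succ, iteratedDeriv_one]
    have h2 : deriv (fun z : ℂ => z) = fun _ => 1 := funext fun z => deriv_id z
    rw [h2]
    exact deriv_const z 1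
  simp [Finset.sum_range_succ, h1]

theorem exp_mem_dfin (lam : ℂ) : (fun z : ℂ => Complex.exp (lam * z)) ∈ DFin := by
  refine mem_dfin.2 ⟨by fun_prop, 1, fun k => if k = 1 then 1 else Polynomial.C (-lam),
      ⟨1, le_rfl, by simp⟩, fun z => ?_⟩
  have h1 : deriv (fun z : ℂ => Complex.exp (lam * z)) z = lam * Complex.exp (lam * z) := by
    have h2 : HasDerivAt (fun z : ℂ => Complex.exp (lam * z)) (Complex.exp (lam * z) * (lam * 1))
        z := ((hasDerivAt_id z).const_mul lam).cexp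
    rw [h2.deriv]
    ring
  rw [Finset.sum_range_succ, Finset.sum_range_one, iteratedDeriv_one, iteratedDeriv_zero, h1]
  simp

/-- Functions with linear differential equations are differentially algebraic. -/
theorem dAlg_of_polODE {f : ℂ → ℂ} (hf : PolODE f) : DAlg f := by
  obtain ⟨m, a, ⟨k0, hk0, hn⟩, h⟩ := hf
  refine ⟨m + 1, ∑ i : Fin (m + 1), MvPolynomial.C (a i) * MvPolynomial.X i, ?_, fun z => ?_⟩
  · intro h0
    have h1 := congrArg (MvPolynomial.coeff (Finsupp.single (⟨k0, by omega⟩ : Fin (m + 1)) 1)) h0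
    rw [MvPolynomial.coeff_zero, MvPolynomial.coeff_sum] at h1
    simp only [MvPolynomial.coeff_C_mul, MvPolynomial.coeff_X] at h1
    rw [Finset.sum_eq_single (⟨k0, by omega⟩ : Fin (m + 1))] at h1
    · simp at h1
      exact hn h1
    · intro i _ hi
      rw [if_neg, mul_zero]
      intro h2
      exact hi (Finsupp.single_left_injective one_ne_zero h2)
    · intro h2
      exact absurd (Finset.mem_univ _) h2
  · rw [MvPolynomial.eval₂_sum]
    simp only [MvPolynomial.eval₂_mul, MvPolynomial.eval₂_C, MvPolynomial.eval₂_X]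
    have h1 := h z
    rw [← Fin.sum_univ_eq_sum_range (fun k => (a k).eval z * iteratedDeriv k f z)] at h1
    exact h1

end Pool.Agent.TH600.LC
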