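import Mathlib

/-!
# Algebraic independence over differential fields of finite transcendence degree

`k ⊆ E` are fields of characteristic zero, `D` is a derivation of `E` with `D k ⊆ k`, and `V` is a
`k`-subspace of `E` with `1 ∈ V` and `D V ⊆ V`. We suppose that all finite families in `V` which are
linearly independent together with `1` are algebraically independent over `k`, and that `k` is the
only finite dimensional `D`-stable subspace between `k` and `V`. If `t` is a finite subset of `E`
with `D t` algebraic over `k(t)`, then all these families are algebraically independent over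
`k(t)`.
-/

set_option autoImplicit false

namespace Pool.Agent.TH600.LC

open AlgebraicIndependent Module

section clo

variable {k E : Type*} [Field k] [Field E] [Algebra k E]

/-- The elements of `E` which are algebraic over `k(S)`. -/
noncomputable def clo (k : Type*) {E : Type*} [Field k] [Field E] [Algebra k E] (S : Set E) :
    Subalgebra k E := (Subalgebra.algebraicClosure (Algebra.adjoin k S) E).restrictScalars k

theorem coe_clo (S : Set E) : (clo k S : Set E) = (matroid k E).closure S := by
  rw [matroid_closure_eq]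
  rfl

theorem mem_clo {S : Set E} {x : E} : x ∈ clo k S ↔ IsAlgebraic (Algebra.adjoin k S) x := Iff.rfl

theorem inv_mem_clo {S : Set E} {x : E} (hx : x ∈ clo k S) : x⁻¹ ∈ clo k S :=
  mem_clo.2 (mem_clo.1 hx).inv

theorem subset_clo (S : Set E) : S ⊆ (clo k S : Set E) := by
  rw [coe_clo]
  exact (matroid k E).subset_closure S (Set.subset_univ _)

theorem clo_le {S T : Set E} (h : S ⊆ (clo k T : Set E)) : clo k S ≤ clo k T := by
  intro x hx
  have h1 : x ∈ (clo k S : Set E) := hx
  change x ∈ (clo k T : Set E)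
  rw [coe_clo] at h1 ⊢
  rw [coe_clo] at h
  exact (Matroid.closure_subset_closure_iff_subset_closure (Set.subset_univ _)).2 h h1

theorem clo_mono {S T : Set E} (h : S ⊆ T) : clo k S ≤ clo k T :=
  clo_le (h.trans (subset_clo T))

theorem smul_mem_clo {S : Set E} {x : E} (hx : x ∈ clo k S) (c : k) : c • x ∈ clo k S :=
  (clo k S).smul_mem hx c

theorem adjoin_le_clo (S : Set E) : Algebra.adjoin k S ≤ clo k S :=
  Algebra.adjoin_le (subset_clo S)

/-- **Derivatives of algebraic elements.** -/
theorem der_mem_clo [CharZero E] {R₀ : Type*} [CommRing R₀] [Algebra R₀ E]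
    (D : Derivation R₀ E E)
    (hD : ∀ c : k, ∃ c' : k, D (algebraMap k E c) = algebraMap k E c') {S : Set E} {x : E}
    (hx : x ∈ clo k S) : D x ∈ clo k (S ∪ D '' S) := by
  set T := clo k (S ∪ D '' S) with hT
  have hA : ∀ a ∈ Algebra.adjoin k S, a ∈ T ∧ D a ∈ T := by
    intro a ha
    induction ha using Algebra.adjoin_induction with
    | mem x hx =>
      exact ⟨subset_clo _ (Or.inl hx), subset_clo _ (Or.inr ⟨x, hx, rfl⟩)⟩
    | algebraMap r =>
      obtain ⟨c', hc'⟩ := hD r
      refine ⟨T.algebraMap_mem r, ?_⟩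
      rw [hc']
      exact T.algebraMap_mem c'
    | add x y _ _ hx hy =>
      refine ⟨T.add_mem hx.1 hy.1, ?_⟩
      rw [map_add]
      exact T.add_mem hx.2 hy.2
    | mul x y _ _ hx hy =>
      refine ⟨T.mul_mem hx.1 hy.1, ?_⟩
      rw [Derivation.leibniz, smul_eq_mul, smul_eq_mul]
      exact T.add_mem (T.mul_mem hx.1 hy.2) (T.mul_mem hy.1 hx.2)
  have hxT : x ∈ T := clo_mono Set.subset_union_left hx
  have haev : ∀ P : Polynomial (Algebra.adjoin k S), Polynomial.aeval x P ∈ T := by
    intro P
    induction P using Polynomial.induction_on' with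
    | add P Q hP hQ =>
      rw [map_add]
      exact T.add_mem hP hQ
    | monomial n a =>
      rw [Polynomial.aeval_monomial]
      exact T.mul_mem (hA _ a.2).1 (T.pow_mem hxT n)
  have hder : ∀ P : Polynomial (Algebra.adjoin k S), ∃ R ∈ T, D (Polynomial.aeval x P) =
      R + Polynomial.aeval x (Polynomial.derivative P) * D x := by
    intro P
    induction P using Polynomial.induction_on' with
    | add P Q hP hQ =>
      obtain ⟨R, hR, h1⟩ := hP
      obtain ⟨R', hR', h2⟩ := hQ
      refine ⟨R + R', T.add_mem hR hR', ?_⟩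
      rw [map_add, map_add, h1, h2, map_add, map_add]
      ring
    | monomial n a =>
      refine ⟨x ^ n * D (a : E), T.mul_mem (T.pow_mem hxT n) (hA _ a.2).2, ?_⟩
      rw [Polynomial.aeval_monomial, Polynomial.derivative_monomial, Polynomial.aeval_monomial,
        Derivation.leibniz, Derivation.leibniz_pow]
      simp only [smul_eq_mul, nsmul_eq_mul, map_mul, map_natCast]
      change (a : E) * (n * (x ^ (n - 1) * D x)) + x ^ n * D (a : E) =
        x ^ n * D (a : E) + (a : E) * n * x ^ (n - 1) * D x
      ring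
  -- descent on the degree
  have key : ∀ (n : ℕ) (P : Polynomial (Algebra.adjoin k S)), P.natDegree ≤ n → P ≠ 0 →
      Polynomial.aeval x P = 0 → D x ∈ T := by
    intro n
    induction n with
    | zero =>
      intro P hn hP hx0
      exfalso
      rw [Polynomial.eq_C_of_natDegree_le_zero hn] at hx0 hP
      rw [Polynomial.aeval_C] at hx0
      apply hP
      have h1 : (P.coeff 0) = 0 := Subtype.ext hx0
      rw [h1, Polynomial.C_0]
    | succ n ih =>
      intro P hn hP hx0
      obtain ⟨R, hR, h1⟩ := hder P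
      rw [hx0, map_zero] at h1
      by_cases h2 : Polynomial.aeval x (Polynomial.derivative P) = 0
      · by_cases h3 : Polynomial.derivative P = 0
        · have h4 := Polynomial.derivative_eq_zero.1 h3
          exact ih P (by omega) hP hx0
        · refine ih _ ?_ h3 h2
          have h4 : P.natDegree ≠ 0 := by
            intro h0
            apply h3
            rw [Polynomial.eq_C_of_natDegree_eq_zero h0, Polynomial.derivative_C]
          have h5 := Polynomial.natDegree_derivative_lt h4
          omega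
      · have h3 : D x = -R * (Polynomial.aeval x (Polynomial.derivative P))⁻¹ := by
          rw [eq_mul_inv_iff_mul_eq₀ h2]
          linear_combination -h1
        rw [h3]
        exact T.mul_mem (T.neg_mem hR) (inv_mem_clo (haev _))
  obtain ⟨P, hP, hx0⟩ := mem_clo.1 hx
  exact key _ P le_rfl hP hx0

end clo

section rank

variable {k E : Type*} [Field k] [Field E] [Algebra k E]

theorem eRk_clo (S : Set E) : (matroid k E).eRk (clo k S) = (matroid k E).eRk S := by
  rw [coe_clo, Matroid.eRk_closure_eq]

theorem span_subset_clo {s T : Set E} (h : s ⊆ (clo k T : Set E)) :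
    ((Submodule.span k s : Submodule k E) : Set E) ⊆ (clo k T : Set E) := by
  have h1 : Submodule.span k s ≤ Subalgebra.toSubmodule (clo k T) := Submodule.span_le.2 h
  exact h1

theorem eRk_lt_top {t : Set E} (ht : t.Finite) (W : Submodule k E) [FiniteDimensional k W] :
    (matroid k E).eRk (t ∪ W) < ⊤ := by
  obtain ⟨s, hs⟩ := (Submodule.fg_iff_finiteDimensional W).2 inferInstance
  have h1 : (t ∪ W : Set E) ⊆ (clo k (t ∪ s) : Set E) := by
    rintro x (hx | hx)
    · exact subset_clo _ (Or.inl hx)
    · rw [← hs] at hx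
      exact span_subset_clo ((Set.subset_union_right).trans (subset_clo _)) hx
  calc (matroid k E).eRk (t ∪ W) ≤ (matroid k E).eRk (clo k (t ∪ s)) :=
        (matroid k E).eRk_mono h1
    _ = (matroid k E).eRk (t ∪ s) := eRk_clo _
    _ ≤ (t ∪ s : Set E).encard := (matroid k E).eRk_le_encard _
    _ < ⊤ := Set.encard_lt_top_iff.2 (ht.union s.finite_toSet)

/-- The transcendence degree of `k(t, W)`. -/
noncomputable def rk (k : Type*) {E : Type*} [Field k] [Field E] [Algebra k E] (t : Set E)
    (W : Submodule k E) : ℕ := ((matroid k E).eRk (t ∪ W)).toNat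

theorem coe_rk {t : Set E} (ht : t.Finite) (W : Submodule k E) [FiniteDimensional k W] :
    (rk k t W : ℕ∞) = (matroid k E).eRk (t ∪ W) := ENat.natCast_toNat (eRk_lt_top ht W).ne

theorem rk_le {t : Set E} (ht : t.Finite) {W W' : Submodule k E} [FiniteDimensional k W]
    [FiniteDimensional k W'] (h : (W' : Set E) ⊆ (clo k (t ∪ W) : Set E)) :
    rk k t W' ≤ rk k t W := by
  rw [← Nat.cast_le (α := ℕ∞), coe_rk ht, coe_rk ht, ← eRk_clo (t ∪ (W : Set E))]
  refine (matroid k E).eRk_mono ?_
  rintro x (hx | hx)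
  · exact subset_clo _ (Or.inl hx)
  · exact h hx

theorem finrank_sup_span {W : Submodule k E} [FiniteDimensional k W] {x : E} (hx : x ∉ W) :
    finrank k (W ⊔ k ∙ x : Submodule k E) = finrank k W + 1 := by
  have h1 := Submodule.finrank_sup_add_finrank_inf_eq W (k ∙ x)
  have h0 : x ≠ 0 := fun h => hx (by rw [h]; exact W.zero_mem)
  rw [finrank_span_singleton h0] at h1
  have h2 : W ⊓ k ∙ x = ⊥ := by
    rw [eq_bot_iff]
    intro y hy
    rw [Submodule.mem_inf, Submodule.mem_span_singleton] at hy
    obtain ⟨hyW, c, rfl⟩ := hy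
    rw [Submodule.mem_bot]
    by_cases hc : c = 0
    · rw [hc, zero_smul]
    · exfalso
      apply hx
      have h3 := W.smul_mem c⁻¹ hyW
      rwa [smul_smul, inv_mul_cancel₀ hc, one_smul] at h3
  rw [h2, finrank_bot, add_zero] at h1
  exact h1

theorem rk_sup_span {t : Set E} (ht : t.Finite) (W : Submodule k E) [FiniteDimensional k W]
    (x : E) : rk k t (W ⊔ k ∙ x) ≤ rk k t W + 1 := by
  rw [← Nat.cast_le (α := ℕ∞), coe_rk ht, Nat.cast_add, coe_rk ht, Nat.cast_one]
  refine le_trans ?_ ((matroid k E).eRk_insert_le_add_one x (t ∪ W))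
  rw [← eRk_clo (insert x (t ∪ (W : Set E)))]
  refine (matroid k E).eRk_mono ?_
  rintro y (hy | hy)
  · exact subset_clo (insert x (t ∪ (W : Set E))) (Or.inr (Or.inl hy))
  · obtain ⟨w, hw, z, hz, rfl⟩ := Submodule.mem_sup.1 hy
    refine Subalgebra.add_mem (clo k (insert x (t ∪ (W : Set E))))
      (subset_clo (insert x (t ∪ (W : Set E))) (Or.inr (Or.inr hw))) ?_
    obtain ⟨c, rfl⟩ := Submodule.mem_span_singleton.1 hz
    exact smul_mem_clo (subset_clo (insert x (t ∪ (W : Set E))) (Set.mem_insert x _)) c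

theorem rk_add_finrank_le {t : Set E} (ht : t.Finite) {W W' : Submodule k E}
    [FiniteDimensional k W'] (h : W ≤ W') :
    rk k t W' + finrank k W ≤ rk k t W + finrank k W' := by
  have key : ∀ (n : ℕ) (W : Submodule k E), W ≤ W' → finrank k W' = finrank k W + n →
      rk k t W' ≤ rk k t W + n := by
    intro n
    induction n with
    | zero =>
      intro W h hn
      have := Submodule.eq_of_le_of_finrank_eq h hn.symm
      rw [this, add_zero]
    | succ n ih =>
      intro W h hn
      have hlt : W < W' := by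
        refine lt_of_le_of_ne h fun h0 => ?_
        rw [h0] at hn
        omega
      obtain ⟨x, hx, hxW⟩ := SetLike.exists_of_lt hlt
      have hfd : FiniteDimensional k W := Submodule.finiteDimensional_of_le h
      have h1 : W ⊔ k ∙ x ≤ W' := sup_le h (by
        rw [Submodule.span_singleton_le_iff_mem]
        exact hx)
      have h2 := ih _ h1 (by rw [hn, finrank_sup_span hxW]; ring)
      have h3 := rk_sup_span ht W x
      omega
  have h1 := Submodule.finrank_mono h
  have h2 := key (finrank k W' - finrank k W) W h (by omega)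
  omega

end rank

section main

variable {k E : Type*} [Field k] [Field E] [Algebra k E] {R₀ : Type*} [CommRing R₀]
  [Algebra R₀ E]

/-- The subspace `W + D H`. -/
def plus (D : Derivation R₀ E E)
    (hD : ∀ c : k, ∃ c' : k, D (algebraMap k E c) = algebraMap k E c') {W H : Submodule k E}
    (hHW : H ≤ W) : Submodule k E where
  carrier := {y | ∃ w ∈ W, ∃ h ∈ H, y = w + D h}
  zero_mem' := ⟨0, W.zero_mem, 0, H.zero_mem, by simp⟩
  add_mem' := by
    rintro _ _ ⟨w, hw, h, hh, rfl⟩ ⟨w', hw', h', hh', rfl⟩
    refine ⟨w + w', W.add_mem hw hw', h + h', H.add_mem hh hh', ?_⟩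
    rw [map_add]
    ring
  smul_mem' := by
    rintro c _ ⟨w, hw, h, hh, rfl⟩
    obtain ⟨c', hc'⟩ := hD c
    refine ⟨c • w - c' • h, W.sub_mem (W.smul_mem _ hw) (W.smul_mem _ (hHW hh)), c • h,
      H.smul_mem _ hh, ?_⟩
    rw [Algebra.smul_def c h, Derivation.leibniz, hc', Algebra.smul_def, Algebra.smul_def,
      Algebra.smul_def]
    simp only [smul_eq_mul]
    ring

theorem mem_plus {D : Derivation R₀ E E}
    {hD : ∀ c : k, ∃ c' : k, D (algebraMap k E c) = algebraMap k E c'} {W H : Submodule k E}
    {hHW : H ≤ W} {y : E} : y ∈ plus D hD hHW ↔ ∃ w ∈ W, ∃ h ∈ H, y = w + D h := Iff.rfl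

theorem le_plus {D : Derivation R₀ E E}
    {hD : ∀ c : k, ∃ c' : k, D (algebraMap k E c) = algebraMap k E c'} {W H : Submodule k E}
    {hHW : H ≤ W} : W ≤ plus D hD hHW :=
  fun w hw => ⟨w, hw, 0, H.zero_mem, by rw [map_zero, add_zero]⟩

theorem finiteDimensional_plus {D : Derivation R₀ E E}
    {hD : ∀ c : k, ∃ c' : k, D (algebraMap k E c) = algebraMap k E c'} {W H : Submodule k E}
    {hHW : H ≤ W} [FiniteDimensional k W] : FiniteDimensional k (plus D hD hHW) := by
  have hfd : FiniteDimensional k H := Submodule.finiteDimensional_of_le hHW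
  obtain ⟨s, hs⟩ := (Submodule.fg_iff_finiteDimensional H).2 hfd
  have h1 : plus D hD hHW ≤ W ⊔ Submodule.span k (D '' (s : Set E)) := by
    rintro _ ⟨w, hw, h, hh, rfl⟩
    refine Submodule.add_mem _ (Submodule.mem_sup_left hw) ?_
    have h2 : ∀ h ∈ Submodule.span k (s : Set E), h ∈ H ∧
        D h ∈ W ⊔ Submodule.span k (D '' (s : Set E)) := by
      intro h hh
      induction hh using Submodule.span_induction with
      | mem x hx =>
        exact ⟨by rw [← hs]; exact Submodule.subset_span hx,
          Submodule.mem_sup_right (Submodule.subset_span ⟨x, hx, rfl⟩)⟩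
      | zero => exact ⟨H.zero_mem, by rw [map_zero]; exact Submodule.zero_mem _⟩
      | add x y _ _ hx hy =>
        exact ⟨H.add_mem hx.1 hy.1, by rw [map_add]; exact Submodule.add_mem _ hx.2 hy.2⟩
      | smul c x _ hx =>
        obtain ⟨c', hc'⟩ := hD c
        refine ⟨H.smul_mem _ hx.1, ?_⟩
        rw [Algebra.smul_def, Derivation.leibniz, hc', smul_eq_mul, smul_eq_mul,
          ← Algebra.smul_def, mul_comm x, ← Algebra.smul_def]
        exact Submodule.add_mem _ (Submodule.smul_mem _ _ hx.2)
          (Submodule.mem_sup_left (W.smul_mem _ (hHW hx.1)))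
    rw [← hs] at hh
    exact (h2 h hh).2
  have h2 : FiniteDimensional k (Submodule.span k (D '' (s : Set E))) :=
    FiniteDimensional.span_of_finite k (s.finite_toSet.image _)
  exact Submodule.finiteDimensional_of_le h1

/-- **Theorem.** -/
theorem diff_main [CharZero E] (D : Derivation R₀ E E)
    (hD : ∀ c : k, ∃ c' : k, D (algebraMap k E c) = algebraMap k E c') (V : Submodule k E)
    (hVD : ∀ v ∈ V, D v ∈ V)
    (hind : ∀ W : Submodule k E, FiniteDimensional k W → 1 ∈ W → W ≤ V →
      (finrank k W : ℕ∞) ≤ (matroid k E).eRk W + 1)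
    (hfin : ∀ W : Submodule k E, FiniteDimensional k W → 1 ∈ W → W ≤ V →
      (∀ w ∈ W, D w ∈ W) → finrank k W ≤ 1)
    {t : Set E} (ht : t.Finite) (hti : (matroid k E).Indep t) (htD : ∀ s ∈ t, D s ∈ clo k t) :
    ∀ W : Submodule k E, FiniteDimensional k W → 1 ∈ W → W ≤ V →
      finrank k W + t.ncard ≤ rk k t W + 1 := by
  classical
  by_contra hcon
  push Not at hcon
  obtain ⟨W0, hW0f, hW01, hW0V, hW0⟩ := hcon
  -- the defect
  let P : ℕ → Submodule k E → Prop := fun d W =>
    FiniteDimensional k W ∧ 1 ∈ W ∧ W ≤ V ∧ rk k t W + d + 1 ≤ finrank k W + t.ncard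
  have hbound : ∀ d W, P d W → d ≤ t.ncard := by
    rintro d W ⟨hf, h1, hV, hd⟩
    have h2 := hind W hf h1 hV
    have h3 : (finrank k W : ℕ∞) ≤ (rk k t W + 1 : ℕ) := by
      rw [Nat.cast_add, coe_rk ht, Nat.cast_one]
      refine h2.trans ?_
      gcongr
      exact (matroid k E).eRk_mono Set.subset_union_right
    have h4 : finrank k W ≤ rk k t W + 1 := by exact_mod_cast h3
    omega
  have hP1 : ∃ W, P 1 W := ⟨W0, hW0f, hW01, hW0V, by omega⟩
  obtain ⟨d, hd1, ⟨W1, hW1⟩, hdmax⟩ : ∃ d, 1 ≤ d ∧ (∃ W, P d W) ∧ ∀ W, ¬ P (d + 1) W := by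
    by_contra hcon
    push Not at hcon
    have h1 : ∀ n : ℕ, ∃ W, P (n + 1) W := by
      intro n
      induction n with
      | zero => exact hP1
      | succ n ih => exact hcon (n + 1) (by omega) ih
    obtain ⟨W, hW⟩ := h1 t.ncard
    have := hbound _ _ hW
    omega
  -- minimal dimension
  have hex : ∃ n, ∃ W, P d W ∧ finrank k W = n := ⟨_, W1, hW1, rfl⟩
  obtain ⟨W, ⟨hWf, hW1, hWV, hWd⟩, hWn⟩ := Nat.find_spec hex
  have hmin : ∀ W', P d W' → finrank k W ≤ finrank k W' := by
    intro W' hW'
    rw [hWn]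
    exact Nat.find_min' hex ⟨W', hW', rfl⟩
  -- the elements with derivative in `W`
  let W₁ : Submodule k E :=
    { carrier := {w | w ∈ W ∧ D w ∈ W}
      zero_mem' := ⟨W.zero_mem, by rw [map_zero]; exact W.zero_mem⟩
      add_mem' := fun hx hy => ⟨W.add_mem hx.1 hy.1, by
        rw [map_add]; exact W.add_mem hx.2 hy.2⟩
      smul_mem' := by
        rintro c x ⟨hx, hx'⟩
        obtain ⟨c', hc'⟩ := hD c
        refine ⟨W.smul_mem _ hx, ?_⟩
        rw [Algebra.smul_def, Derivation.leibniz, hc', smul_eq_mul, smul_eq_mul,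
          ← Algebra.smul_def, mul_comm x, ← Algebra.smul_def]
        exact W.add_mem (W.smul_mem _ hx') (W.smul_mem _ hx) }
  have htrk : t.ncard ≤ rk k t W := by
    rw [← Nat.cast_le (α := ℕ∞), coe_rk ht, ht.cast_ncard_eq, ← hti.eRk_eq_encard]
    exact (matroid k E).eRk_mono Set.subset_union_left
  by_cases hall : ∀ w ∈ W, D w ∈ W
  · have h1 := hfin W hWf hW1 hWV hall
    omega
  · push Not at hall
    obtain ⟨x, hxW, hxD⟩ := hall
    have hx1 : x ∉ W₁ := fun h => hxD h.2
    obtain ⟨φ, hφx, hφ⟩ := Submodule.exists_le_ker_of_notMem hx1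
    let H : Submodule k E := W ⊓ LinearMap.ker φ
    have hHW : H ≤ W := inf_le_left
    have hHf : FiniteDimensional k H := Submodule.finiteDimensional_of_le hHW
    have hxH : x ∉ H := fun h => hφx (LinearMap.mem_ker.1 h.2)
    have hD1 : D 1 = 0 := D.map_one_eq_zero
    have h1H : (1 : E) ∈ H := ⟨hW1, hφ ⟨hW1, by rw [hD1]; exact W.zero_mem⟩⟩
    have hWH : W ≤ H ⊔ k ∙ x := by
      intro w hw
      have h1 : w = (w - (φ w / φ x) • x) + (φ w / φ x) • x := by ring
      rw [h1]
      refine Submodule.add_mem _ (Submodule.mem_sup_left ⟨W.sub_mem hw (W.smul_mem _ hxW), ?_⟩)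
        (Submodule.mem_sup_right (Submodule.smul_mem _ _ (Submodule.mem_span_singleton_self x)))
      change φ (w - (φ w / φ x) • x) = 0
      rw [map_sub, map_smul, smul_eq_mul, div_mul_cancel₀ _ hφx, sub_self]
    have hWeq : W = H ⊔ k ∙ x := le_antisymm hWH (sup_le hHW (by
      rw [Submodule.span_singleton_le_iff_mem]; exact hxW))
    have hHrank : finrank k W = finrank k H + 1 := by
      rw [hWeq]
      exact finrank_sup_span hxH
    -- `x` is algebraic over `k(t, H)`
    have hrk : rk k t W ≤ rk k t H := by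
      by_contra hcon
      have h1 : P d H := ⟨hHf, h1H, hHW.trans hWV, by omega⟩
      have h2 := hmin H h1
      omega
    have hclos : x ∈ clo k (t ∪ H) := by
      have h1 : (matroid k E).closure (t ∪ H) = (matroid k E).closure (t ∪ W) := by
        refine Matroid.IsRkFinite.closure_eq_closure_of_subset_of_eRk_ge_eRk
          (Matroid.eRk_lt_top_iff.1 (eRk_lt_top ht H))
          (Set.union_subset_union_right _ hHW) ?_
        rw [← coe_rk ht, ← coe_rk ht]
        exact_mod_cast hrk
      have h2 : x ∈ (clo k (t ∪ W) : Set E) := subset_clo _ (Or.inr hxW)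
      change x ∈ (clo k (t ∪ H) : Set E)
      rw [coe_clo] at h2 ⊢
      rwa [h1]
    -- the derivatives
    let H₂ : Submodule k E := plus D hD hHW
    let W₂ : Submodule k E := plus D hD (le_refl W)
    have hH₂f : FiniteDimensional k H₂ := finiteDimensional_plus
    have hW₂f : FiniteDimensional k W₂ := finiteDimensional_plus
    have hWH₂ : W ≤ H₂ := le_plus
    have hDx : D x ∈ clo k (t ∪ H₂) := by
      have h1 := der_mem_clo D hD hclos
      refine clo_le ?_ h1
      rintro y ((hy | hy) | ⟨z, hz | hz, rfl⟩)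
      · exact subset_clo _ (Or.inl hy)
      · exact subset_clo _ (Or.inr (hWH₂ (hHW hy)))
      · exact clo_mono Set.subset_union_left (htD z hz)
      · exact subset_clo _ (Or.inr ⟨0, W.zero_mem, z, hz, by rw [zero_add]⟩)
    have hDxH : D x ∉ H₂ := by
      rintro ⟨w, hw, h, hh, heq⟩
      have h1 : x - h ∈ W₁ := ⟨W.sub_mem hxW (hHW hh), by
        rw [map_sub, heq, add_sub_cancel_right]; exact hw⟩
      have h2 : φ (x - h) = 0 := hφ h1
      rw [map_sub, LinearMap.mem_ker.1 hh.2, sub_zero] at h2
      exact hφx h2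
    have hW₂ : W₂ = H₂ ⊔ k ∙ (D x) := by
      apply le_antisymm
      · rintro _ ⟨w, hw, w', hw', rfl⟩
        obtain ⟨h, hh, z, hz, rfl⟩ := Submodule.mem_sup.1 (hWH hw')
        obtain ⟨c, rfl⟩ := Submodule.mem_span_singleton.1 hz
        obtain ⟨c', hc'⟩ := hD c
        have h1 : w + D (h + c • x) = (w + c' • x + D h) + c • D x := by
          rw [map_add, Algebra.smul_def c x, Derivation.leibniz, hc', Algebra.smul_def c' x,
            Algebra.smul_def c (D x), smul_eq_mul, smul_eq_mul]
          ring
        rw [h1]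
        exact Submodule.add_mem _ (Submodule.mem_sup_left
          ⟨w + c' • x, W.add_mem hw (W.smul_mem _ hxW), h, hh, rfl⟩)
          (Submodule.mem_sup_right (Submodule.smul_mem _ _ (Submodule.mem_span_singleton_self _)))
      · refine sup_le ?_ ?_
        · rintro _ ⟨w, hw, h, hh, rfl⟩
          exact ⟨w, hw, h, hHW hh, rfl⟩
        · rw [Submodule.span_singleton_le_iff_mem]
          exact ⟨0, W.zero_mem, x, hxW, by rw [zero_add]⟩
    have hW₂rank : finrank k W₂ = finrank k H₂ + 1 := by
      rw [hW₂]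
      exact finrank_sup_span hDxH
    have hr1 : rk k t W₂ ≤ rk k t H₂ := by
      refine rk_le ht ?_
      intro y hy
      have hy' : y ∈ H₂ ⊔ k ∙ (D x) := by rw [← hW₂]; exact hy
      obtain ⟨h, hh, z, hz, rfl⟩ := Submodule.mem_sup.1 hy'
      obtain ⟨c, rfl⟩ := Submodule.mem_span_singleton.1 hz
      exact (clo k _).add_mem (subset_clo _ (Or.inr hh)) (smul_mem_clo hDx c)
    have hr2 := rk_add_finrank_le ht hWH₂
    refine hdmax W₂ ⟨hW₂f, le_plus hW1, ?_, by omega⟩
    rintro _ ⟨w, hw, w', hw', rfl⟩
    exact V.add_mem (hWV hw) (hVD _ (hWV hw'))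

end main

end Pool.Agent.TH600.LC
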