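import Pool.Agent.TH600.LC.DiffPS

/-!
# Algebraic independence of sparse series over differential rings of finite transcendence degree
-/

set_option autoImplicit false

namespace Pool.Agent.TH600.LC

open Finset AlgebraicIndependent Module

section fields

variable {F : Type} [Field F]

theorem algInd_poly [CharZero F] {κ : Type} [Fintype κ] [DecidableEq κ] (g : κ → PowerSeries F)
    (hs : Sparse {n | ∃ i, PowerSeries.coeff n (g i) ≠ 0}) {I : Finset κ} (hI : Ind g I)
    (P : MvPolynomial I (Polynomial F)) (hP : evP (fun l : I => g l) P = 0) : P = 0 := by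
  obtain ⟨lam, r, hgap, hsub⟩ := hs.exists_gap
  have hg : ∀ (i : I) n, PowerSeries.coeff n (g i) ≠ 0 → n ∈ Set.range lam :=
    fun i n hn => hsub ⟨i, hn⟩
  set β : ℕ → I → F := fun j i => PowerSeries.coeff (lam j) (g i) with hβ
  have hser : ser lam β = fun i : I => g i := funext fun i => eq_ser hgap.mono (fun i : I => g i) hg i
  refine indep hgap β ?_ _ P le_rfl ?_
  · rintro c ⟨q, hq⟩
    rw [hser, evP_lin] at hq
    have h1 := hI (fun l => if h : l ∈ I then c ⟨l, h⟩ else 0) (fun l hl => dif_neg hl) ⟨q, by
      rw [← hq, ← Finset.sum_subset (Finset.subset_univ I)]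
      · rw [← Finset.sum_coe_sort I]
        refine Finset.sum_congr rfl fun l _ => ?_
        rw [dif_pos l.2]
      · intro l _ hl
        rw [dif_neg hl]
        simp⟩
    funext l
    have h2 := congrFun h1 l
    simp only [l.2, dif_pos] at h2
    exact h2
  · intro J n hn
    rw [← coeff_evP hgap.mono β _ hn, hser, hP, map_zero]

theorem algInd_series [CharZero F] {κ : Type} [Fintype κ] [DecidableEq κ] (g : κ → PowerSeries F)
    (hs : Sparse {n | ∃ i, PowerSeries.coeff n (g i) ≠ 0}) {I : Finset κ} (hI : Ind g I) :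
    AlgebraicIndependent (KK F) (fun l : I => emb F (g l)) := by
  have h0 : AlgebraicIndependent (Polynomial F) (fun l : I => emb F (g l)) := by
    rw [algebraicIndependent_iff]
    intro P hP
    refine algInd_poly g hs hI P (emb_injective ?_)
    rw [map_zero, ← hP, evP, MvPolynomial.coe_eval₂Hom, MvPolynomial.eval₂_comp_left,
      MvPolynomial.aeval_def]
    congr 1
  have halg : Algebra.IsAlgebraic (Polynomial F) (KK F) :=
    IsLocalization.isAlgebraic _ (nonZeroDivisors (Polynomial F))
  exact h0.extendScalars _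

/-- The span of the series with exponents in `A`. -/
noncomputable def VA (F : Type) [Field F] (A : Set ℕ) : Submodule (KK F) (EE F) :=
  Submodule.span (KK F) (emb F '' {u | ∀ n, PowerSeries.coeff n u ≠ 0 → n ∈ A})

theorem VA_der {D : Derivation F (EE F) (EE F)} (hD : ∀ u, D (emb F u) = emb F (theta F u))
    (hD' : ∀ c : KK F, ∃ c' : KK F, D (algebraMap (KK F) (EE F) c) = algebraMap (KK F) (EE F) c')
    (A : Set ℕ) : ∀ v ∈ VA F A, D v ∈ VA F A := by
  intro v hv
  suffices h : v ∈ VA F A ∧ D v ∈ VA F A from h.2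
  unfold VA at hv
  induction hv using Submodule.span_induction with
  | mem x hx =>
    refine ⟨Submodule.subset_span hx, ?_⟩
    obtain ⟨u, hu, rfl⟩ := hx
    refine Submodule.subset_span ⟨theta F u, fun n hn => hu n fun h0 => hn ?_, (hD u).symm⟩
    rw [coeff_theta, h0, mul_zero]
  | zero => exact ⟨Submodule.zero_mem _, by rw [map_zero]; exact Submodule.zero_mem _⟩
  | add x y _ _ hx hy =>
    exact ⟨Submodule.add_mem _ hx.1 hy.1, by rw [map_add]; exact Submodule.add_mem _ hx.2 hy.2⟩
  | smul c x _ hx =>
    obtain ⟨c', hc'⟩ := hD' c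
    refine ⟨Submodule.smul_mem _ _ hx.1, ?_⟩
    rw [Algebra.smul_def c x, Derivation.leibniz, hc', smul_eq_mul, smul_eq_mul,
      ← Algebra.smul_def c, mul_comm x, ← Algebra.smul_def c']
    exact Submodule.add_mem _ (Submodule.smul_mem _ _ hx.2) (Submodule.smul_mem _ _ hx.1)

theorem exists_near {A : Set ℕ} {v : EE F} (hv : v ∈ VA F A) :
    ∃ (q : Polynomial F) (u : PowerSeries F), q ≠ 0 ∧ Near A u ∧
      emb F (q : PowerSeries F) * v = emb F u := by
  unfold VA at hv
  induction hv using Submodule.span_induction with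
  | mem x hx =>
    obtain ⟨u, hu, rfl⟩ := hx
    exact ⟨1, u, one_ne_zero, near_of_mem hu, by rw [Polynomial.coe_one, map_one, one_mul]⟩
  | zero => exact ⟨1, 0, one_ne_zero, near_zero A, by rw [mul_zero, map_zero]⟩
  | add x y _ _ hx hy =>
    obtain ⟨q, u, hq, hu, h1⟩ := hx
    obtain ⟨q', u', hq', hu', h2⟩ := hy
    refine ⟨q * q', (q' : PowerSeries F) * u + (q : PowerSeries F) * u', mul_ne_zero hq hq',
      (hu.poly_mul q').add (hu'.poly_mul q), ?_⟩
    rw [Polynomial.coe_mul, map_mul, map_add, map_mul, map_mul, ← h1, ← h2]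
    ring
  | smul c x _ hx =>
    obtain ⟨q, u, hq, hu, h1⟩ := hx
    obtain ⟨r, s, hs, hc⟩ := exists_frac_kk c
    refine ⟨s * q, (r : PowerSeries F) * u, mul_ne_zero hs hq, hu.poly_mul r, ?_⟩
    rw [Algebra.smul_def c x, hc, Polynomial.coe_mul, map_mul, map_mul, ← h1]
    have := emb_coe_ne hs
    field_simp

open Classical in
theorem VA_fin [CharZero F] {A : Set ℕ} (hA : LongGaps A) {D : Derivation F (EE F) (EE F)}
    (hD : ∀ u, D (emb F u) = emb F (theta F u)) (W : Submodule (KK F) (EE F))
    (hW : FiniteDimensional (KK F) W) (hWA : W ≤ VA F A) (hWD : ∀ w ∈ W, D w ∈ W) :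
    finrank (KK F) W ≤ 1 := by
  have hle : W ≤ (KK F) ∙ (1 : EE F) := by
    intro w hw
    obtain ⟨q, u, hq, hu, hqu⟩ := exists_near (hWA hw)
    have hq0 := emb_coe_ne hq
    have huW : emb F u ∈ W := by
      rw [← hqu, ← algebraMap_kk, ← Algebra.smul_def]
      exact W.smul_mem _ hw
    have hit : ∀ j, emb F ((theta F)^[j] u) ∈ W := by
      intro j
      induction j with
      | zero => exact huW
      | succ j ih =>
        rw [Function.iterate_succ_apply', ← hD]
        exact hWD _ ih
    -- a linear relation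
    set n := finrank (KK F) W + 1 with hn
    have hdep : ¬ LinearIndependent (KK F) (fun j : Fin n => (⟨_, hit j⟩ : W)) := by
      intro hli
      have := hli.fintype_card_le_finrank
      rw [Fintype.card_fin] at this
      omega
    rw [Fintype.not_linearIndependent_iff] at hdep
    obtain ⟨c, hc, j0, hj0⟩ := hdep
    have hc' : ∑ j : Fin n, c j • emb F ((theta F)^[(j : ℕ)] u) = 0 := by
      have := congrArg Subtype.val hc
      simpa using this
    -- common denominator
    obtain ⟨b, hb⟩ := IsLocalization.exist_integer_multiples_of_finset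
      (nonZeroDivisors (Polynomial F)) (Finset.univ.image c)
    have hb' : ∀ j, ∃ d : Polynomial F, algebraMap (Polynomial F) (KK F) d =
        (b : Polynomial F) • c j := by
      intro j
      obtain ⟨d, hd⟩ := hb (c j) (Finset.mem_image_of_mem _ (Finset.mem_univ _))
      exact ⟨d, hd⟩
    choose d hd using hb'
    have hb0 : algebraMap (Polynomial F) (KK F) (b : Polynomial F) ≠ 0 := by
      rw [Ne, map_eq_zero_iff _ (IsFractionRing.injective _ _)]
      exact nonZeroDivisors.ne_zero b.2
    have hd0 : d j0 ≠ 0 := by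
      intro h0
      have h2 := hd j0
      rw [h0, map_zero, Algebra.smul_def] at h2
      exact (mul_ne_zero hb0 hj0) h2.symm
    have hrel : ∑ j : Fin n, (d j : PowerSeries F) * (theta F)^[(j : ℕ)] u = 0 := by
      apply emb_injective
      rw [map_zero, map_sum]
      have h3 : ∀ j : Fin n, emb F ((d j : PowerSeries F) * (theta F)^[(j : ℕ)] u) =
          algebraMap (KK F) (EE F) (algebraMap (Polynomial F) (KK F) b) *
            (c j • emb F ((theta F)^[(j : ℕ)] u)) := by
        intro j
        rw [map_mul, ← algebraMap_kk, hd, Algebra.smul_def, Algebra.smul_def (c j), map_mul]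
        ring
      rw [Finset.sum_congr rfl fun j _ => h3 j, ← Finset.mul_sum, hc', mul_zero]
    obtain ⟨p, hp⟩ := poly_of_ode (u := u) (fun L N => hu.gap hA L N) n
      (fun j => if h : j < n then d ⟨j, h⟩ else 0)
      ⟨j0, Finset.mem_range.2 j0.2, by rw [dif_pos j0.2]; exact hd0⟩ (by
        rw [← hrel, Finset.sum_range]
        refine Finset.sum_congr rfl fun j _ => ?_
        rw [dif_pos j.2])
    rw [Submodule.mem_span_singleton]
    refine ⟨algebraMap _ _ p / algebraMap _ _ q, ?_⟩
    rw [Algebra.smul_def _ (1 : EE F), mul_one, map_div₀, algebraMap_kk, algebraMap_kk, ← hp,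
      ← hqu, mul_div_cancel_left₀ _ hq0]
  calc finrank (KK F) W ≤ finrank (KK F) ((KK F) ∙ (1 : EE F)) := Submodule.finrank_mono hle
    _ ≤ 1 := by rw [finrank_span_singleton one_ne_zero]

/-- The rank of a span of sparse series. -/
theorem VA_rank [CharZero F] {A : Set ℕ} (hA : Sparse A) (W : Submodule (KK F) (EE F))
    (hW : FiniteDimensional (KK F) W) (hWA : W ≤ VA F A) :
    (finrank (KK F) W : ℕ∞) ≤ (matroid (KK F) (EE F)).eRk W + 1 := by
  classical
  -- a finite set of series
  obtain ⟨s, hs⟩ := (Submodule.fg_iff_finiteDimensional W).2 hW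
  have hT : ∀ x : s, ∃ T : Finset (EE F), (T : Set (EE F)) ⊆
      emb F '' {u | ∀ n, PowerSeries.coeff n u ≠ 0 → n ∈ A} ∧
      (x : EE F) ∈ Submodule.span (KK F) (T : Set (EE F)) := by
    intro x
    have hx : (x : EE F) ∈ VA F A := hWA (by rw [← hs]; exact Submodule.subset_span x.2)
    exact Submodule.mem_span_finite_of_mem_span hx
  choose T hTA hTx using hT
  let κ : Finset (EE F) := Finset.univ.biUnion T
  have hκ : ∀ x : κ, ∃ u : PowerSeries F, (∀ n, PowerSeries.coeff n u ≠ 0 → n ∈ A) ∧
      emb F u = x := by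
    intro x
    obtain ⟨y, _, hy⟩ := Finset.mem_biUnion.1 x.2
    obtain ⟨u, hu, h1⟩ := hTA y hy
    exact ⟨u, hu, h1⟩
  choose g hgA hg using hκ
  have hWκ : W ≤ Submodule.span (KK F) (κ : Set (EE F)) := by
    rw [← hs, Submodule.span_le]
    intro x hx
    refine Submodule.span_mono ?_ (hTx ⟨x, hx⟩)
    intro y hy
    exact Finset.mem_biUnion.2 ⟨⟨x, hx⟩, Finset.mem_univ _, hy⟩
  obtain ⟨I, a, p, b, hI, ha, hrel⟩ := exists_rel g
  have hsp : Sparse {n | ∃ i, PowerSeries.coeff n (g i) ≠ 0} :=
    hA.mono fun n ⟨i, hn⟩ => hgA i n hn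
  have hind := algInd_series g hsp hI
  let e : I → EE F := fun l => emb F (g l)
  let S : Finset (EE F) := insert 1 (Finset.univ.image e)
  let W' : Submodule (KK F) (EE F) := Submodule.span (KK F) (S : Set (EE F))
  have hWW' : W ≤ W' := by
    refine hWκ.trans (Submodule.span_le.2 fun x hx => ?_)
    have h1 := congrArg (emb F) (hrel ⟨x, hx⟩)
    have ha0 := emb_coe_ne ha
    have h2 : x = (emb F (p ⟨x, hx⟩ : PowerSeries F) / emb F (a : PowerSeries F)) +
        ∑ l : I, (emb F (b ⟨x, hx⟩ l : PowerSeries F) / emb F (a : PowerSeries F)) * e l := by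
      rw [map_mul, hg, map_add, map_sum, ← Finset.sum_coe_sort I
        (fun l => emb F ((b ⟨x, hx⟩ l : PowerSeries F) * g l))] at h1
      rw [← mul_right_inj' ha0, h1, mul_add, mul_div_cancel₀ _ ha0, Finset.mul_sum]
      congr 1
      refine Finset.sum_congr rfl fun l _ => ?_
      rw [map_mul]
      simp only [e]
      field_simp
    have hsc : ∀ (r : Polynomial F) (v : EE F), v ∈ W' →
        (emb F (r : PowerSeries F) / emb F (a : PowerSeries F)) * v ∈ W' := by
      intro r v hv
      rw [← algebraMap_kk, ← algebraMap_kk, ← map_div₀, ← Algebra.smul_def]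
      exact Submodule.smul_mem _ _ hv
    change x ∈ W'
    rw [h2]
    refine Submodule.add_mem _ ?_ (Submodule.sum_mem _ fun l _ => hsc _ _ ?_)
    · have h3 := hsc (p ⟨x, hx⟩) 1 (Submodule.subset_span (Finset.mem_coe.2
        (Finset.mem_insert_self _ _)))
      rwa [mul_one] at h3
    · exact Submodule.subset_span (Finset.mem_coe.2 (Finset.mem_insert_of_mem
        (Finset.mem_image_of_mem _ (Finset.mem_univ _))))
  have hW'f : FiniteDimensional (KK F) W' := FiniteDimensional.span_finset _ _
  have h1 : finrank (KK F) W' ≤ I.card + 1 := by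
    refine (finrank_span_finset_le_card (R := KK F) S).trans ?_
    refine (Finset.card_insert_le _ _).trans ?_
    have := Finset.card_image_le (s := (Finset.univ : Finset I)) (f := e)
    rw [Finset.card_univ, Fintype.card_coe] at this
    omega
  have h2 : (I.card : ℕ∞) ≤ (matroid (KK F) (EE F)).eRk W' := by
    have h3 : (matroid (KK F) (EE F)).Indep (Set.range e) := by
      rw [matroid_indep_iff]
      exact hind.to_subtype_range
    have h4 := h3.encard_le_eRk_of_subset (X := (W' : Set (EE F))) (by
      rintro _ ⟨l, rfl⟩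
      exact Submodule.subset_span (Finset.mem_coe.2 (Finset.mem_insert_of_mem
        (Finset.mem_image_of_mem _ (Finset.mem_univ _)))))
    have h5 : (Set.range e).encard = I.card := by
      rw [← Set.image_univ, hind.injective.encard_image, Set.encard_univ]
      simp
    rwa [h5] at h4
  have h3 := rk_add_finrank_le (k := KK F) (t := (∅ : Set (EE F))) Set.finite_empty hWW'
  have hcoe : ∀ (U : Submodule (KK F) (EE F)) [FiniteDimensional (KK F) U],
      (rk (KK F) (∅ : Set (EE F)) U : ℕ∞) = (matroid (KK F) (EE F)).eRk U := by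
    intro U _
    rw [coe_rk Set.finite_empty, Set.empty_union]
  rw [← hcoe W'] at h2
  rw [← hcoe W]
  have h4 : I.card ≤ rk (KK F) (∅ : Set (EE F)) W' := by exact_mod_cast h2
  have h5 : finrank (KK F) W ≤ rk (KK F) (∅ : Set (EE F)) W + 1 := by omega
  exact_mod_cast h5

/-- **Theorem.** Sparse series, linearly independent together with `1`, are algebraically
independent over every differential ring of finite transcendence degree. -/
theorem family_diff [CharZero F] {κ : Type} [Fintype κ] [DecidableEq κ] (g : κ → PowerSeries F)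
    (hs : Sparse {n | ∃ i, PowerSeries.coeff n (g i) ≠ 0}) {I : Finset κ} (hI : Ind g I)
    {D : Derivation F (EE F) (EE F)} (hD : ∀ u, D (emb F u) = emb F (theta F u))
    (hD' : ∀ c : KK F, ∃ c' : KK F, D (algebraMap (KK F) (EE F) c) = algebraMap (KK F) (EE F) c')
    {T : Set (EE F)} (hT : T.Finite) (hTD : ∀ s ∈ T, D s ∈ clo (KK F) T)
    {R : Type} [CommRing R] (θ : R →+* EE F) (hθ : ∀ r, θ r ∈ clo (KK F) T)
    (P : MvPolynomial I R) (hP : MvPolynomial.eval₂ θ (fun l : I => emb F (g l)) P = 0) :
    MvPolynomial.map θ P = 0 := by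
  classical
  -- a basis of `T`
  obtain ⟨t, htb⟩ := (matroid (KK F) (EE F)).exists_isBasis T (Set.subset_univ _)
  have htT : t ⊆ T := htb.subset
  have hti : (matroid (KK F) (EE F)).Indep t := htb.indep
  have htf : t.Finite := hT.subset htT
  have hTt : T ⊆ (clo (KK F) t : Set (EE F)) := by
    rw [coe_clo]
    exact htb.subset_closure
  have hclo : clo (KK F) T ≤ clo (KK F) t := clo_le hTt
  have htD : ∀ s ∈ t, D s ∈ clo (KK F) t := fun s hs => hclo (hTD s (htT hs))
  -- the space
  set A : Set ℕ := insert 0 {n | ∃ i, PowerSeries.coeff n (g i) ≠ 0} with hAdef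
  have hA : Sparse A := by
    have h0 : Sparse ({0} : Set ℕ) := ⟨0, fun M hM => by
      have : ({0} : Set ℕ) ∩ Set.Ico M (2 * M) = ∅ := by
        ext x
        simp only [Set.mem_inter_iff, Set.mem_singleton_iff, Set.mem_Ico, Set.mem_empty_iff_false,
          iff_false, not_and]
        omega
      rw [this, Set.ncard_empty]⟩
    exact (h0.union hs).mono (by rw [hAdef, Set.insert_eq])
  have hind := algInd_series g hs hI
  let e : I → EE F := fun l => emb F (g l)
  let S : Finset (EE F) := insert 1 (Finset.univ.image e)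
  let W : Submodule (KK F) (EE F) := Submodule.span (KK F) (S : Set (EE F))
  have hWf : FiniteDimensional (KK F) W := FiniteDimensional.span_finset _ _
  have h1W : (1 : EE F) ∈ W := Submodule.subset_span (Finset.mem_coe.2
    (Finset.mem_insert_self _ _))
  have heW : ∀ l, e l ∈ W := fun l => Submodule.subset_span (Finset.mem_coe.2
    (Finset.mem_insert_of_mem (Finset.mem_image_of_mem _ (Finset.mem_univ _))))
  have hWA : W ≤ VA F A := by
    refine Submodule.span_le.2 fun x hx => ?_
    rw [Finset.mem_coe] at hx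
    rcases Finset.mem_insert.1 hx with rfl | hx
    · refine Submodule.subset_span ⟨1, fun n hn => ?_, map_one _⟩
      rw [PowerSeries.coeff_one] at hn
      have h0 : n = 0 := by
        by_contra h
        rw [if_neg h] at hn
        exact hn rfl
      exact Or.inl h0
    · obtain ⟨l, _, rfl⟩ := Finset.mem_image.1 hx
      exact Submodule.subset_span ⟨g l, fun n hn => Or.inr ⟨l, hn⟩, rfl⟩
  have hchar : CharZero (EE F) :=
    charZero_of_injective_algebraMap (algebraMap F (EE F)).injective
  have hmain := diff_main D hD' (VA F A) (VA_der hD hD' A)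
    (fun W' h1 _ h2 => VA_rank hA W' h1 h2)
    (fun W' h1 _ h3 h4 => VA_fin hA.longGaps hD W' h1 h3 h4) htf hti htD W hWf h1W hWA
  have hrange : (matroid (KK F) (EE F)).Indep (Set.range e) := by
    rw [matroid_indep_iff]
    exact hind.to_subtype_range
  have hencard : (Set.range e).encard = I.card := by
    rw [← Set.image_univ, hind.injective.encard_image, Set.encard_univ]
    simp
  -- the dimension of `W`
  have hdim : I.card + 1 ≤ finrank (KK F) W := by
    have h1 : (KK F) ∙ (1 : EE F) ≤ W := by
      rw [Submodule.span_singleton_le_iff_mem]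
      exact h1W
    have h2 := rk_add_finrank_le (k := KK F) (t := (∅ : Set (EE F))) Set.finite_empty h1
    rw [finrank_span_singleton one_ne_zero] at h2
    have h3 : rk (KK F) (∅ : Set (EE F)) ((KK F) ∙ (1 : EE F)) = 0 := by
      have h4 : ((rk (KK F) (∅ : Set (EE F)) ((KK F) ∙ (1 : EE F)) : ℕ) : ℕ∞) ≤ 0 := by
        rw [coe_rk Set.finite_empty]
        calc (matroid (KK F) (EE F)).eRk (∅ ∪ ((KK F) ∙ (1 : EE F) : Submodule _ _))
            ≤ (matroid (KK F) (EE F)).eRk (clo (KK F) (∅ : Set (EE F))) := by
              refine (matroid (KK F) (EE F)).eRk_mono ?_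
              rw [Set.empty_union]
              refine span_subset_clo ?_
              rintro x hx
              rw [Set.mem_singleton_iff.1 hx]
              exact (clo (KK F) (∅ : Set (EE F))).one_mem
          _ = 0 := by rw [eRk_clo, Matroid.eRk_empty]
      have h4' : rk (KK F) (∅ : Set (EE F)) ((KK F) ∙ (1 : EE F)) ≤ 0 := by exact_mod_cast h4
      omega
    have h5 : (I.card : ℕ∞) ≤ (rk (KK F) (∅ : Set (EE F)) W : ℕ) := by
      rw [coe_rk Set.finite_empty, Set.empty_union, ← hencard]
      refine hrange.encard_le_eRk_of_subset ?_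
      rintro _ ⟨l, rfl⟩
      exact heW l
    have h6 : I.card ≤ rk (KK F) (∅ : Set (EE F)) W := by exact_mod_cast h5
    omega
  have hrk : I.card + t.ncard ≤ rk (KK F) t W := by omega
  -- the union is independent
  have hsub : (matroid (KK F) (EE F)).eRk (t ∪ W) ≤
      (matroid (KK F) (EE F)).eRk (t ∪ Set.range e) := by
    rw [← eRk_clo (t ∪ Set.range e)]
    refine (matroid (KK F) (EE F)).eRk_mono ?_
    rintro x (hx | hx)
    · exact subset_clo (t ∪ Set.range e) (Or.inl hx)
    · refine span_subset_clo ?_ hx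
      intro y hy
      rw [Finset.mem_coe] at hy
      rcases Finset.mem_insert.1 hy with rfl | hy
      · exact (clo (KK F) (t ∪ Set.range e)).one_mem
      · obtain ⟨l, _, rfl⟩ := Finset.mem_image.1 hy
        exact subset_clo (t ∪ Set.range e) (Or.inr ⟨l, rfl⟩)
  have hcard : ((I.card + t.ncard : ℕ) : ℕ∞) ≤
      (matroid (KK F) (EE F)).eRk (t ∪ Set.range e) := by
    refine le_trans ?_ hsub
    rw [← coe_rk htf]
    exact_mod_cast hrk
  have htenc : t.encard = (t.ncard : ℕ∞) := htf.cast_ncard_eq.symm
  have hfinu : (t ∪ Set.range e).Finite := htf.union (Set.finite_range e)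
  have hle : (t ∪ Set.range e).encard ≤ ((I.card + t.ncard : ℕ) : ℕ∞) := by
    refine (Set.encard_union_le _ _).trans ?_
    rw [hencard, htenc]
    push_cast
    rw [add_comm]
  have hunion : (matroid (KK F) (EE F)).Indep (t ∪ Set.range e) :=
    Matroid.IsRkFinite.indep_of_encard_le_eRk
      (Matroid.eRk_lt_top_iff.1 (lt_of_le_of_lt ((matroid (KK F) (EE F)).eRk_le_encard _)
        (Set.encard_lt_top_iff.2 hfinu))) (hle.trans hcard)
  have hdisj : Disjoint t (Set.range e) := by
    rw [Set.disjoint_iff_inter_eq_empty, ← Set.encard_eq_zero]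
    have h1 := Set.encard_union_add_encard_inter t (Set.range e)
    have h2 : ((I.card + t.ncard : ℕ) : ℕ∞) ≤ (t ∪ Set.range e).encard :=
      hcard.trans ((matroid (KK F) (EE F)).eRk_le_encard _)
    have h3 : (t ∪ Set.range e).encard = ((I.card + t.ncard : ℕ) : ℕ∞) := le_antisymm hle h2
    rw [h3, hencard, htenc] at h1
    have h4 : (t ∩ Set.range e).Finite := htf.subset Set.inter_subset_left
    rw [← h4.cast_ncard_eq] at h1 ⊢
    have h5 : I.card + t.ncard + (t ∩ Set.range e).ncard = t.ncard + I.card := by
      exact_mod_cast h1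
    have h6 : (t ∩ Set.range e).ncard = 0 := by omega
    rw [h6]
    rfl
  -- algebraic independence over the algebraic closure
  have hsum : AlgebraicIndependent (KK F) (Sum.elim e ((↑) : t → EE F)) := by
    have hinj : Function.Injective (Sum.elim e ((↑) : t → EE F)) := by
      refine Function.Injective.sumElim hind.injective Subtype.val_injective ?_
      intro l x h
      exact Set.disjoint_left.1 hdisj x.2 ⟨l, h⟩
    rw [← algebraicIndependent_subtype_range hinj]
    have h1 : Set.range (Sum.elim e ((↑) : t → EE F)) = t ∪ Set.range e := by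
      rw [Set.Sum.elim_range, Subtype.range_coe, Set.union_comm]
    rw [h1]
    exact hunion
  have h1 := (sumElim_iff.1 hsum).2
  rw [Subtype.range_coe] at h1
  have h2 := h1.subalgebraAlgebraicClosure
  -- transfer to `R`
  let B := Subalgebra.algebraicClosure (Algebra.adjoin (KK F) t) (EE F)
  let θ' : R →+* B := θ.codRestrict B fun r => hclo (hθ r)
  have hθ' : (algebraMap B (EE F)).comp θ' = θ := by
    ext r
    rfl
  have h3 : MvPolynomial.aeval e (MvPolynomial.map θ' P) = 0 := by
    rw [MvPolynomial.aeval_def, MvPolynomial.eval₂_map, hθ']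
    exact hP
  have h4 : MvPolynomial.map θ' P = 0 := (algebraicIndependent_iff.1 h2) _ h3
  rw [← hθ', ← MvPolynomial.map_map, h4, map_zero]

end fields

end Pool.Agent.TH600.LC
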