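import Pool.Agent.TH600.LC.Gaps
import Pool.Agent.TH600.LC.Diff

/-!
# Sparse power series over differential fields of finite transcendence degree
-/

set_option autoImplicit false

namespace Pool.Agent.TH600.LC

open Finset AlgebraicIndependent Module

/-- Derivations extend to the field of fractions. -/
theorem exists_der_frac {k B : Type} [Field k] [CommRing B] [IsDomain B] [Algebra k B]
    (E : Derivation k B B) : ∃ E' : Derivation k (FractionRing B) (FractionRing B),
      ∀ b, E' (algebraMap B (FractionRing B) b) = algebraMap B (FractionRing B) (E b) := by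
  let L := FractionRing B
  have hfe : Algebra.FormallyEtale B L :=
    Algebra.FormallyEtale.of_isLocalization (nonZeroDivisors B)
  let l0 : Ω[B⁄k] →ₗ[B] L := (Algebra.linearMap B L) ∘ₗ E.liftKaehlerDifferential
  let l : TensorProduct B L Ω[B⁄k] →ₗ[L] L := LinearMap.liftBaseChange L l0
  let e := KaehlerDifferential.tensorKaehlerEquivOfFormallyEtale k B L
  refine ⟨(l ∘ₗ e.symm.toLinearMap).compDer (KaehlerDifferential.D k L), fun c => ?_⟩
  change l (e.symm (KaehlerDifferential.D k L (algebraMap B L c))) = _
  rw [KaehlerDifferential.tensorKaehlerEquivOfFormallyEtale_symm_D_algebraMap,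
    LinearMap.liftBaseChange_tmul, one_smul]
  change algebraMap B L (E.liftKaehlerDifferential (KaehlerDifferential.D k B c)) = _
  rw [Derivation.liftKaehlerDifferential_comp_D]

section fields

variable {F : Type} [Field F]

/-- The field of fractions of the ring of power series. -/
abbrev EE (F : Type) [Field F] := FractionRing (PowerSeries F)

/-- The field of rational functions. -/
abbrev KK (F : Type) [Field F] := FractionRing (Polynomial F)

/-- The embedding of the power series. -/
noncomputable abbrev emb (F : Type) [Field F] : PowerSeries F →+* EE F :=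
  algebraMap (PowerSeries F) (EE F)

theorem emb_injective : Function.Injective (emb F) := IsFractionRing.injective _ _

theorem algebraMap_poly (p : Polynomial F) :
    algebraMap (Polynomial F) (EE F) p = emb F (p : PowerSeries F) := by
  rw [IsScalarTower.algebraMap_apply (Polynomial F) (PowerSeries F) (EE F)]
  rfl

instance : FaithfulSMul (Polynomial F) (EE F) := by
  rw [faithfulSMul_iff_algebraMap_injective]
  intro p q h
  rw [algebraMap_poly, algebraMap_poly] at h
  exact Polynomial.coe_injective _ (emb_injective h)

noncomputable instance : Algebra (KK F) (EE F) := FractionRing.liftAlgebra (Polynomial F) (EE F)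

instance : IsScalarTower (Polynomial F) (KK F) (EE F) :=
  FractionRing.isScalarTower_liftAlgebra (Polynomial F) (EE F)

instance : FaithfulSMul (KK F) (EE F) :=
  (faithfulSMul_iff_algebraMap_injective _ _).2 (algebraMap (KK F) (EE F)).injective

theorem algebraMap_kk (p : Polynomial F) :
    algebraMap (KK F) (EE F) (algebraMap (Polynomial F) (KK F) p) = emb F (p : PowerSeries F) := by
  rw [← IsScalarTower.algebraMap_apply, algebraMap_poly]

theorem emb_coe_ne {p : Polynomial F} (hp : p ≠ 0) : emb F (p : PowerSeries F) ≠ 0 := by
  rw [Ne, map_eq_zero_iff _ emb_injective]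
  intro h
  exact hp (Polynomial.coe_injective _ (by rw [h, Polynomial.coe_zero]))

theorem exists_frac_kk (c : KK F) : ∃ p q : Polynomial F, q ≠ 0 ∧
    algebraMap (KK F) (EE F) c = emb F (p : PowerSeries F) / emb F (q : PowerSeries F) := by
  obtain ⟨p, q, hq, rfl⟩ := IsFractionRing.div_surjective (A := Polynomial F) c
  exact ⟨p, q, nonZeroDivisors.ne_zero hq, by rw [map_div₀, algebraMap_kk, algebraMap_kk]⟩

/-- The derivation `X d/dX` of the field of fractions. -/
theorem exists_der (F : Type) [Field F] : ∃ D : Derivation F (EE F) (EE F),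
    (∀ u, D (emb F u) = emb F (theta F u)) ∧
    (∀ c : KK F, ∃ c' : KK F, D (algebraMap (KK F) (EE F) c) = algebraMap (KK F) (EE F) c') := by
  obtain ⟨D, hD⟩ := exists_der_frac (theta F)
  refine ⟨D, hD, fun c => ?_⟩
  obtain ⟨p, q, hq, hc⟩ := exists_frac_kk c
  have hpoly : ∀ p : Polynomial F, ∃ p' : Polynomial F,
      D (emb F (p : PowerSeries F)) = emb F (p' : PowerSeries F) := by
    intro p
    refine ⟨Polynomial.X * Polynomial.derivative p, ?_⟩
    rw [hD]
    congr 1
    rw [theta, Derivation.smul_apply, smul_eq_mul, PowerSeries.derivative_coe,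
      Polynomial.coe_mul, Polynomial.coe_X]
  obtain ⟨p', hp'⟩ := hpoly p
  obtain ⟨q', hq'⟩ := hpoly q
  refine ⟨algebraMap _ _ (p' * q - p * q') / algebraMap _ _ (q * q), ?_⟩
  have hq0 := emb_coe_ne hq
  rw [hc, Derivation.leibniz_div, hp', hq', map_div₀ (algebraMap (KK F) (EE F)), algebraMap_kk,
    algebraMap_kk]
  simp only [Polynomial.coe_mul, map_mul, smul_eq_mul, Polynomial.coe_sub, map_sub]
  field_simp

end fields

end Pool.Agent.TH600.LC
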