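import Pool.Agent.TH600.LC.DFin

/-!
# Exponential functions which are algebraically independent over a ring of power series
-/

set_option autoImplicit false

namespace Pool.Agent.TH600.LC

open Finset AlgebraicIndependent

section matroid

variable {k E : Type} [Field k] [Field E] [Algebra k E]

/-- An infinite algebraically independent family contains families of any finite size which are
algebraically independent over a ring of finite transcendence degree. -/
theorem exists_indep {ι : Type} [Infinite ι] {e : ι → E} (he : AlgebraicIndependent k e)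
    {C : Type} [CommRing C] [IsDomain C] [Algebra C E] [FaithfulSMul C E] {T : Set E}
    (hT : T.Finite) (hC : ∀ c : C, algebraMap C E c ∈ clo k T) (m : ℕ) :
    ∃ σ : Fin m → ι, AlgebraicIndependent C fun i => e (σ i) := by
  classical
  have hinj : Function.Injective e := he.injective
  have hr : (matroid k E).Indep (Set.range e) := by
    rw [matroid_indep_iff]
    exact (algebraicIndependent_subtype_range hinj).2 he
  have key : ∀ m : ℕ, ∃ S : Finset ι, S.card = m ∧ (matroid C E).Indep (e '' (S : Set ι)) := by
    intro m
    induction m with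
    | zero =>
      refine ⟨∅, rfl, ?_⟩
      rw [Finset.coe_empty, Set.image_empty]
      exact (matroid C E).empty_indep
    | succ m ih =>
      obtain ⟨S, hS, hI⟩ := ih
      by_contra hcon
      push Not at hcon
      have hfin : (T ∪ e '' (S : Set ι)).Finite := hT.union (S.finite_toSet.image e)
      -- the closure
      have hsub : Set.range e ⊆ (clo k (T ∪ e '' (S : Set ι)) : Set E) := by
        rintro _ ⟨i, rfl⟩
        have h1 : e i ∈ (matroid C E).closure (e '' (S : Set ι)) := by
          by_contra h2
          have h3 := (hI.notMem_closure_iff (Set.mem_univ _)).1 h2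
          have hiS : i ∉ S := fun h => h3.2 ⟨i, h, rfl⟩
          refine hcon (insert i S) (by rw [Finset.card_insert_of_notMem hiS, hS]) ?_
          rw [Finset.coe_insert, Set.image_insert_eq]
          exact h3.1
        rw [matroid_closure_eq] at h1
        have h2 : IsAlgebraic (Algebra.adjoin C (e '' (S : Set ι))) (e i) := h1
        obtain ⟨P, hP, hP0⟩ := h2
        let L := clo k (T ∪ e '' (S : Set ι))
        have hle : ∀ x ∈ Algebra.adjoin C (e '' (S : Set ι)), x ∈ L := by
          intro x hx
          induction hx using Algebra.adjoin_induction with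
          | mem x hx => exact subset_clo _ (Or.inr hx)
          | algebraMap c => exact clo_mono Set.subset_union_left (hC c)
          | add x y _ _ h1 h2 => exact L.add_mem h1 h2
          | mul x y _ _ h1 h2 => exact L.mul_mem h1 h2
        -- `e i` is algebraic over `L`
        let R := Algebra.adjoin k (T ∪ e '' (S : Set ι))
        let A' : Subalgebra R E := Subalgebra.algebraicClosure R E
        let φ : Algebra.adjoin C (e '' (S : Set ι)) →+* A' :=
          { toFun := fun x => ⟨x, hle x x.2⟩
            map_one' := rfl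
            map_mul' := fun _ _ => rfl
            map_zero' := rfl
            map_add' := fun _ _ => rfl }
        have hφ : Function.Injective φ := by
          intro x y h
          have h3 : (φ x : E) = (φ y : E) := congrArg Subtype.val h
          exact Subtype.ext h3
        have halg : IsAlgebraic A' (e i) := by
          refine ⟨P.map φ, (Polynomial.map_ne_zero_iff hφ).2 hP, ?_⟩
          rw [Polynomial.aeval_def, Polynomial.eval₂_map]
          exact hP0
        exact halg.restrictScalars R
      have h5 := (matroid k E).eRk_mono hsub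
      rw [hr.eRk_eq_encard, eRk_clo] at h5
      have h6 := h5.trans ((matroid k E).eRk_le_encard _)
      have h7 : (Set.range e).encard = ⊤ := by
        rw [Set.encard_eq_top_iff]
        exact Set.infinite_range_of_injective hinj
      rw [h7] at h6
      exact absurd (Set.encard_lt_top_iff.2 hfin) (not_lt.2 h6)
  obtain ⟨S, hS, hI⟩ := key m
  let σ : Fin m → ι := fun i => (S.equivFin.symm (Fin.cast hS.symm i)).1
  have hσ : Function.Injective σ := by
    intro i j hij
    have h1 := S.equivFin.symm.injective (Subtype.ext hij)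
    exact Fin.cast_injective _ h1
  refine ⟨σ, ?_⟩
  have h1 : Set.range (fun i => e (σ i)) = e '' (S : Set ι) := by
    ext x
    constructor
    · rintro ⟨i, rfl⟩
      exact ⟨σ i, (S.equivFin.symm (Fin.cast hS.symm i)).2, rfl⟩
    · rintro ⟨i, hi, rfl⟩
      refine ⟨Fin.cast hS (S.equivFin ⟨i, hi⟩), ?_⟩
      change e ((S.equivFin.symm (Fin.cast hS.symm (Fin.cast hS (S.equivFin ⟨i, hi⟩)))).1) = e i
      simp
  refine (algebraicIndependent_subtype_range (R := C) (hinj.comp hσ)).1 ?_
  have h2 : Set.range (e ∘ σ) = e '' (S : Set ι) := h1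
  rw [h2]
  exact hI

end matroid

/-! ### Exponentials -/

/-- the exponential function with exponent `μ` -/
noncomputable def ef (μ : ℂ) (z : ℂ) : ℂ := Complex.exp (μ * z)

theorem differentiable_ef (μ : ℂ) : Differentiable ℂ (ef μ) := by
  unfold ef
  fun_prop

theorem deriv_ef (μ : ℂ) : deriv (ef μ) = fun z => μ * ef μ z := by
  funext z
  have h2 : HasDerivAt (fun z : ℂ => Complex.exp (μ * z)) (Complex.exp (μ * z) * (μ * 1))
      z := ((hasDerivAt_id z).const_mul μ).cexp
  have h3 : ef μ = fun z : ℂ => Complex.exp (μ * z) := rfl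
  rw [h3, h2.deriv]
  ring

/-- the exponential series -/
noncomputable def eE (μ : ℂ) : EE ℂ := emb ℂ (ts (ef μ))

theorem eE_zero : eE 0 = 1 := by
  have h1 : ef 0 = fun _ => 1 := by
    funext z
    simp [ef]
  have h2 : ts (fun _ : ℂ => (1 : ℂ)) = 1 := by
    ext n
    rw [ts, PowerSeries.coeff_mk, PowerSeries.coeff_one]
    cases n with
    | zero => simp
    | succ n =>
      rw [iteratedDeriv_succ']
      have h3 : deriv (fun _ : ℂ => (1 : ℂ)) = fun _ => 0 := by
        funext z
        exact deriv_const z 1
      rw [h3]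
      simp
  rw [eE, h1, h2, map_one]

theorem eE_add (μ ν : ℂ) : eE (μ + ν) = eE μ * eE ν := by
  have h1 : ef (μ + ν) = ef μ * ef ν := by
    funext z
    rw [Pi.mul_apply, ef, ef, ef, ← Complex.exp_add]
    ring_nf
  rw [eE, h1, ts_mul' (differentiable_ef μ) (differentiable_ef ν), map_mul]
  rfl

theorem eE_ne_zero (μ : ℂ) : eE μ ≠ 0 := by
  intro h
  have h1 := eE_add μ (-μ)
  rw [add_neg_cancel, eE_zero, h, zero_mul] at h1
  exact one_ne_zero h1

theorem linInd_eE : LinearIndependent ℂ eE := by
  obtain ⟨D, hD, -⟩ := exists_der ℂ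
  let X' : EE ℂ := emb ℂ (PowerSeries.X)
  have hX : X' ≠ 0 := by
    have h3 := emb_coe_ne (F := ℂ) (p := Polynomial.X) Polynomial.X_ne_zero
    rwa [Polynomial.coe_X] at h3
  let f : Module.End ℂ (EE ℂ) := (LinearMap.mulLeft ℂ X'⁻¹).comp (D : EE ℂ →ₗ[ℂ] EE ℂ)
  refine Module.End.eigenvectors_linearIndependent' f (fun μ : ℂ => μ) Function.injective_id eE
    fun μ => ⟨?_, eE_ne_zero μ⟩
  rw [Module.End.mem_eigenspace_iff]
  change X'⁻¹ * D (eE μ) = μ • eE μ
  have h1 : ts (fun z => μ * ef μ z) = PowerSeries.C μ * ts (ef μ) := by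
    ext n
    rw [PowerSeries.coeff_C_mul, ts, ts, PowerSeries.coeff_mk, PowerSeries.coeff_mk]
    have h2 : iteratedDeriv n (fun z => μ * ef μ z) 0 = μ * iteratedDeriv n (ef μ) 0 :=
      iteratedDeriv_const_mul_field μ (ef μ)
    rw [h2]
    ring
  rw [eE, hD, theta_ts, deriv_ef, h1, map_mul, map_mul]
  have h2 : emb ℂ (PowerSeries.C μ) = algebraMap ℂ (EE ℂ) μ := rfl
  rw [h2, inv_mul_cancel_left₀ hX, ← Algebra.smul_def]

/-- **Exponentials** with exponents which are linearly independent over the rational numbers are
algebraically independent. -/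
theorem algInd_eE {ι : Type} {lam : ι → ℂ} (h : LinearIndependent ℚ lam) :
    AlgebraicIndependent ℂ fun i => eE (lam i) := by
  classical
  rw [algebraicIndependent_iff]
  intro P hP
  let μ : (ι →₀ ℕ) → ℂ := fun d => d.sum fun i n => (n : ℂ) * lam i
  have hμ : Function.Injective μ := by
    intro d d' hdd
    let q : (ι →₀ ℕ) → (ι →₀ ℚ) := fun d => d.mapRange (fun n : ℕ => (n : ℚ)) Nat.cast_zero
    have hq : ∀ d, Finsupp.linearCombination ℚ lam (q d) = μ d := by
      intro d
      rw [Finsupp.linearCombination_apply, Finsupp.sum_mapRange_index (fun i => by rw [zero_smul])]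
      refine Finsupp.sum_congr fun i _ => ?_
      rw [Rat.smul_def]
      push_cast
      rfl
    have h1 : q d = q d' := h (by rw [hq, hq, hdd])
    ext i
    have h2 := DFunLike.congr_fun h1 i
    simpa [q] using h2
  have hmon : ∀ d : ι →₀ ℕ, ∏ i ∈ d.support, eE (lam i) ^ d i = eE (μ d) := by
    intro d
    have hpow : ∀ (x : ℂ) (n : ℕ), eE x ^ n = eE (n * x) := by
      intro x n
      induction n with
      | zero => rw [pow_zero, Nat.cast_zero, zero_mul, eE_zero]
      | succ n ih =>
        rw [pow_succ, ih, ← eE_add]
        push_cast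
        ring_nf
    have hsum : ∀ (s : Finset ι) (v : ι → ℂ), ∏ i ∈ s, eE (v i) = eE (∑ i ∈ s, v i) := by
      intro s v
      induction s using Finset.induction_on with
      | empty => rw [Finset.prod_empty, Finset.sum_empty, eE_zero]
      | insert i s hi ih => rw [Finset.prod_insert hi, Finset.sum_insert hi, ih, eE_add]
    rw [Finset.prod_congr rfl fun i _ => hpow (lam i) (d i), hsum]
    rfl
  have h1 : ∑ d ∈ P.support, P.coeff d • eE (μ d) = 0 := by
    rw [← hP, MvPolynomial.aeval_def, MvPolynomial.eval₂_eq]
    refine Finset.sum_congr rfl fun d _ => ?_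
    rw [hmon, Algebra.smul_def]
  have h2 := linearIndependent_iff'.1 (linInd_eE.comp μ hμ) P.support (fun d => P.coeff d) h1
  ext d
  by_cases hd : d ∈ P.support
  · rw [h2 d hd, MvPolynomial.coeff_zero]
  · rw [MvPolynomial.notMem_support_iff.1 hd, MvPolynomial.coeff_zero]

theorem exists_lam : ∃ (ι : Type) (_ : Infinite ι) (lam : ι → ℂ), LinearIndependent ℚ lam := by
  let b := Module.Free.chooseBasis ℚ ℂ
  refine ⟨Module.Free.ChooseBasisIndex ℚ ℂ, ?_, b, b.linearIndependent⟩
  rw [Cardinal.infinite_iff, ← Module.Free.rank_eq_card_chooseBasisIndex, Complex.rank_rat_complex]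
  exact Cardinal.aleph0_le_continuum

end Pool.Agent.TH600.LC
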