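import Pool.Agent.TH600.LC.GenFam

/-!
# Families of rational curves from gap functions
-/

set_option autoImplicit false

namespace Pool.Agent.TH600.LC

open Finset

/-! ### Entire power series -/

/-- The algebra of the entire power series. -/
noncomputable def EntSub : Subalgebra ℂ (PowerSeries ℂ) where
  carrier := {A | H458.EC.Ent A}
  mul_mem' := fun hA hB => H458.EC.Ent.mul hA hB
  add_mem' := fun hA hB => H458.EC.Ent.add hA hB
  algebraMap_mem' := fun c => H458.EC.Ent.C c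

/-- Evaluation of entire power series. -/
noncomputable def evS (C : Subalgebra ℂ (PowerSeries ℂ)) (hC : C ≤ EntSub) (z : ℂ) : C →+* ℂ where
  toFun A := H458.EC.ev (A : PowerSeries ℂ) z
  map_one' := by
    have := ev_coe 1 z
    rwa [Polynomial.coe_one, Polynomial.eval_one] at this
  map_zero' := by
    have := ev_coe 0 z
    rwa [Polynomial.coe_zero, Polynomial.eval_zero] at this
  map_mul' A B := H458.EC.ev_mul (hC A.2) (hC B.2) z
  map_add' A B := H458.EC.ev_add (hC A.2) (hC B.2) z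

namespace Pfm

variable {Y : Set (ℂ → ℂ)} {N s m : ℕ} {f : ℂ → Fin N → ℂ} (D : Pfm Y f s m)

/-- the coefficient ring -/
noncomputable def CR : Subalgebra ℂ (PowerSeries ℂ) :=
  Algebra.adjoin ℂ (insert ((Polynomial.X : Polynomial ℂ) : PowerSeries ℂ)
    (Set.range (tser D.y)))

theorem CR_le : D.CR ≤ EntSub := by
  refine Algebra.adjoin_le ?_
  rintro A (rfl | ⟨i, rfl⟩)
  · exact ent_coe _
  · exact ent_tser (D.dy i)

/-- the variable `z` -/
noncomputable def cz : D.CR :=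
  ⟨((Polynomial.X : Polynomial ℂ) : PowerSeries ℂ), Algebra.subset_adjoin (Set.mem_insert _ _)⟩

/-- the coefficient functions -/
noncomputable def cy (i : Fin s) : D.CR :=
  ⟨tser D.y i, Algebra.subset_adjoin (Set.mem_insert_of_mem _ ⟨i, rfl⟩)⟩

/-- polynomials in `z` -/
noncomputable def cp (q : Polynomial ℂ) : D.CR := Polynomial.aeval D.cz q

/-- evaluation at `z` -/
noncomputable def evC (z : ℂ) : D.CR →+* ℂ := evS D.CR D.CR_le z

theorem evC_algebraMap (z c : ℂ) : D.evC z (algebraMap ℂ D.CR c) = c :=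
  H458.EC.ev_C c z

theorem evC_cy (z : ℂ) (i : Fin s) : D.evC z (D.cy i) = D.y z i := ev_tser (D.dy i) z

theorem evC_cz (z : ℂ) : D.evC z D.cz = z := by
  have h1 : D.evC z D.cz = H458.EC.ev ((Polynomial.X : Polynomial ℂ) : PowerSeries ℂ) z := rfl
  rw [h1, ev_coe, Polynomial.eval_X]

theorem evC_cp (z : ℂ) (q : Polynomial ℂ) : D.evC z (D.cp q) = q.eval z := by
  rw [cp, Polynomial.aeval_def, Polynomial.hom_eval₂, D.evC_cz]
  have h1 : (D.evC z).comp (algebraMap ℂ D.CR) = RingHom.id ℂ := by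
    ext c
    exact D.evC_algebraMap z c
  rw [h1]
  rfl

theorem eq_zero_of_evC {c : D.CR} (h : ∀ z, D.a.eval z ≠ 0 → D.evC z c = 0) : c = 0 := by
  have h1 : D.cp D.a * c = 0 := by
    apply Subtype.ext
    refine H458.EC.eq_zero_of_ev (D.CR_le (D.cp D.a * c).2) fun z => ?_
    change D.evC z (D.cp D.a * c) = 0
    rw [map_mul, D.evC_cp]
    by_cases hz : D.a.eval z = 0
    · rw [hz, zero_mul]
    · rw [h z hz, mul_zero]
  refine (mul_eq_zero.1 h1).resolve_left fun h0 => ?_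
  obtain ⟨z, hz⟩ := poly_ne_zero_exists D.a0
  apply hz
  rw [← D.evC_cp, h0, map_zero]


/-- the data of the family -/
noncomputable def gd : Gd D.CR N s m where
  ev := D.evC
  ev_alg := D.evC_algebraMap
  a := D.cp D.a
  y := D.cy
  p := fun i => D.cp (D.p i)
  b := fun i l => D.cp (D.b i l)
  I := D.I
  Q := D.Q
  inj := fun c h => D.eq_zero_of_evC fun z hz => h z (by rwa [D.evC_cp])

theorem gd_a (z : ℂ) : D.gd.ev z D.gd.a = D.a.eval z := D.evC_cp z D.a

theorem gd_Φ (z : ℂ) (x : Fin m → ℂ) : D.gd.Φ z x = D.Φ z x := by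
  funext i
  have e1 : D.gd.Φ z x i = (D.evC z (D.cp (D.p i)) +
    ∑ l ∈ D.I, D.evC z (D.cp (D.b i l)) * x l) / D.evC z (D.cp D.a) := rfl
  rw [e1, Φ]
  simp only [D.evC_cp]

theorem gd_Ψ (z : ℂ) (x : Fin m → ℂ) : D.gd.Ψ z x = D.Ψ z x := by
  funext j
  have e1 : D.gd.Ψ z x j = MvPolynomial.eval (Sum.elim (fun i => D.evC z (D.cy i))
    (D.gd.Φ z x)) (D.Q j) := rfl
  rw [e1, Ψ, D.gd_Φ]
  simp only [D.evC_cy]

end Pfm

/-! ### Coefficients -/

/-- The ring generated by `z` and the coefficient functions. -/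
noncomputable def CoefRing (Y : Set (ℂ → ℂ)) : Subalgebra ℂ (ℂ → ℂ) :=
  Algebra.adjoin ℂ (insert (fun z => z) Y)

theorem differentiable_of_mem {𝒢 : Set (ℂ → ℂ)} (h𝒢 : ∀ u ∈ 𝒢, Differentiable ℂ u) {u : ℂ → ℂ}
    (hu : u ∈ Algebra.adjoin ℂ 𝒢) : Differentiable ℂ u := by
  induction hu using Algebra.adjoin_induction with
  | mem u hu => exact h𝒢 u hu
  | algebraMap c => exact differentiable_const c
  | add u v _ _ h1 h2 => exact h1.add h2
  | mul u v _ _ h1 h2 => exact h1.mul h2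

theorem poly_mem_coef (Y : Set (ℂ → ℂ)) (p : Polynomial ℂ) :
    (fun z => p.eval z) ∈ CoefRing Y := by
  have h1 : (fun z => p.eval z) = Polynomial.aeval (fun z : ℂ => z) p := by
    funext z
    have h2 : (Polynomial.aeval (fun z : ℂ => z) p) z =
        (Pi.evalRingHom (fun _ : ℂ => ℂ) z) (Polynomial.aeval (fun z : ℂ => z) p) := rfl
    rw [h2, Polynomial.aeval_def, Polynomial.hom_eval₂]
    rfl
  rw [h1]
  exact Algebra.adjoin_mono (Set.singleton_subset_iff.2 (Set.mem_insert _ _))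
    (Polynomial.aeval_mem_adjoin_singleton ℂ _)

theorem hval_mem {R : Type*} [CommRing R] [Algebra ℂ R] (S : Subalgebra ℂ R) {κ : Type*}
    [Fintype κ] (d : ℕ) {t : R} (ht : t ∈ S) {v : κ → R} (hv : ∀ i, v i ∈ S)
    (G : MvPolynomial κ ℂ) : hval d (algebraMap ℂ R) t v G ∈ S := by
  unfold hval
  exact S.sum_mem fun γ _ => S.mul_mem (S.mul_mem (S.algebraMap_mem _) (S.pow_mem ht _))
    (S.prod_mem fun i _ => S.pow_mem (hv i) _)

namespace Pfm

variable {Y : Set (ℂ → ℂ)} {N s m : ℕ} {f : ℂ → Fin N → ℂ} (D : Pfm Y f s m)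

/-- the numerator of the family at a point depending on `z` -/
noncomputable def UU (d : ℕ) (x : Fin m → ℂ → ℂ) (j : Fin N) : ℂ → ℂ :=
  hval d (algebraMap ℂ (ℂ → ℂ)) (fun z => D.a.eval z)
    (Sum.elim (fun i => (fun z => D.a.eval z) * fun z => D.y z i)
      (fun i => (fun z => (D.p i).eval z) + ∑ l ∈ D.I, (fun z => (D.b i l).eval z) * x l)) (D.Q j)

theorem UU_mem (d : ℕ) {x : Fin m → ℂ → ℂ} {S : Subalgebra ℂ (ℂ → ℂ)} (hS : CoefRing Y ≤ S)
    (hx : ∀ l, x l ∈ S) (j : Fin N) : D.UU d x j ∈ S := by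
  have hp : ∀ p : Polynomial ℂ, (fun z => p.eval z) ∈ S := fun p => hS (poly_mem_coef Y p)
  refine hval_mem S d (hp _) (fun i => ?_) _
  rcases i with i | i
  · exact S.mul_mem (hp _) (hS (Algebra.subset_adjoin (Set.mem_insert_of_mem _ (D.yY i))))
  · exact S.add_mem (hp _) (S.sum_mem fun l _ => S.mul_mem (hp _) (hx l))

theorem UU_eval {d : ℕ} {j : Fin N} (hd : (D.Q j).totalDegree ≤ d) (x : Fin m → ℂ → ℂ) {z : ℂ}
    (hz : D.a.eval z ≠ 0) :
    D.UU d x j z = D.a.eval z ^ d * D.Ψ z (fun l => x l z) j := by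
  have h0 : D.UU d x j z = (Pi.evalRingHom (fun _ : ℂ => ℂ) z) (D.UU d x j) := rfl
  rw [h0, UU, map_hval]
  have e1 : (Pi.evalRingHom (fun _ : ℂ => ℂ) z).comp (algebraMap ℂ (ℂ → ℂ)) = RingHom.id ℂ := by
    ext c
    rfl
  have e3 : (fun i => (Pi.evalRingHom (fun _ : ℂ => ℂ) z)
      ((Sum.elim (fun i => (fun z => D.a.eval z) * fun z => D.y z i)
      (fun i => (fun z => (D.p i).eval z) + ∑ l ∈ D.I, (fun z => (D.b i l).eval z) * x l) :
        Fin s ⊕ Fin m → ℂ → ℂ) i)) =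
      fun i => D.a.eval z * Sum.elim (D.y z) (D.Φ z fun l => x l z) i := by
    funext i
    rcases i with i | i
    · rfl
    · rw [Sum.elim_inr, Sum.elim_inr, Φ, mul_div_cancel₀ _ hz]
      simp only [Pi.evalRingHom_apply, Pi.add_apply, Finset.sum_apply, Pi.mul_apply]
  rw [e1, e3]
  have e2 : (Pi.evalRingHom (fun _ : ℂ => ℂ) z) (fun z => D.a.eval z) = D.a.eval z := rfl
  rw [e2, hval_mul _ _ _ hd, MvPolynomial.eval₂_id]
  rfl

end Pfm

end Pool.Agent.TH600.LC
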