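import Pool.Agent.TH600.LC.Sparse

/-!
# Relations between sparse series

`g_i`, `i ∈ κ`, are finitely many power series over a field `F` of characteristic zero whose
exponents lie in a sparse set.  We choose `I ⊆ κ` such that `1` and the `g_l`, `l ∈ I`, are linearly
independent over `F[X]` and span all `g_i` over `F(X)`.  Then all polynomial relations between
the `g_i` follow from these linear relations.
-/

namespace Pool.Agent.TH600.LC

open Finset

set_option linter.unusedSectionVars false

variable {F : Type*} [Field F] {κ : Type*} [Fintype κ] [DecidableEq κ]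

/-! ### Homogenisation -/

/-- The value of the polynomial `G`, made homogeneous of degree `D` with a new variable `t`. -/
noncomputable def hval {R : Type*} [CommRing R] (D : ℕ) (φ : F →+* R) (t : R) (y : κ → R)
    (G : MvPolynomial κ F) : R :=
  ∑ γ ∈ G.support, φ (G.coeff γ) * t ^ (D - γ.degree) * ∏ i, y i ^ γ i

theorem hval_mul {R : Type*} [CommRing R] {D : ℕ} (φ : F →+* R) (t : R) (y : κ → R)
    {G : MvPolynomial κ F} (hG : G.totalDegree ≤ D) :
    hval D φ t (fun i => t * y i) G = t ^ D * MvPolynomial.eval₂ φ y G := by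
  rw [hval, MvPolynomial.eval₂_eq', Finset.mul_sum]
  refine Finset.sum_congr rfl fun γ hγ => ?_
  have h1 : γ.degree ≤ D := by
    have h2 := MvPolynomial.le_totalDegree hγ
    exact le_trans (le_of_eq rfl) (h2.trans hG)
  have h2 : ∏ i, (t * y i) ^ γ i = t ^ γ.degree * ∏ i, y i ^ γ i := by
    simp only [mul_pow]
    rw [Finset.prod_mul_distrib, Finset.prod_pow_eq_pow_sum, Finsupp.degree_eq_sum]
  rw [h2]
  calc φ (G.coeff γ) * t ^ (D - γ.degree) * (t ^ γ.degree * ∏ i, y i ^ γ i)
      = (t ^ (D - γ.degree) * t ^ γ.degree) * (φ (G.coeff γ) * ∏ i, y i ^ γ i) := by ring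
    _ = t ^ D * (φ (G.coeff γ) * ∏ i, y i ^ γ i) := by
        rw [← pow_add, Nat.sub_add_cancel h1]

theorem map_hval {R R' : Type*} [CommRing R] [CommRing R'] (ψ : R →+* R') (D : ℕ) (φ : F →+* R)
    (t : R) (y : κ → R) (G : MvPolynomial κ F) :
    ψ (hval D φ t y G) = hval D (ψ.comp φ) (ψ t) (fun i => ψ (y i)) G := by
  simp only [hval, map_sum, map_mul, map_pow, map_prod, RingHom.comp_apply]

/-! ### Choice of a basis -/

/-- `1` and the `g_l`, `l ∈ I`, are linearly independent over `F[X]`. -/
def Ind (g : κ → PowerSeries F) (I : Finset κ) : Prop :=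
  ∀ c : κ → Polynomial F, (∀ l, l ∉ I → c l = 0) →
    (∃ p : Polynomial F, ∑ l, (c l : PowerSeries F) * g l = p) → c = 0

theorem ind_empty (g : κ → PowerSeries F) : Ind g ∅ :=
  fun _ hc _ => funext fun l => hc l (Finset.notMem_empty l)

theorem exists_max (g : κ → PowerSeries F) :
    ∃ I : Finset κ, Ind g I ∧ ∀ i, i ∉ I → ¬ Ind g (insert i I) := by
  classical
  obtain ⟨I, hI, hmax⟩ := Finset.exists_max_image ((univ : Finset (Finset κ)).filter (Ind g))
    Finset.card ⟨∅, by rw [mem_filter]; exact ⟨mem_univ _, ind_empty g⟩⟩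
  refine ⟨I, (mem_filter.1 hI).2, fun i hi hins => ?_⟩
  have h1 := hmax (insert i I) (mem_filter.2 ⟨mem_univ _, hins⟩)
  rw [Finset.card_insert_of_notMem hi] at h1
  omega

theorem exists_rel (g : κ → PowerSeries F) :
    ∃ (I : Finset κ) (a : Polynomial F) (p : κ → Polynomial F) (b : κ → κ → Polynomial F),
      Ind g I ∧ a ≠ 0 ∧ ∀ i, (a : PowerSeries F) * g i =
        p i + ∑ l ∈ I, (b i l : PowerSeries F) * g l := by
  obtain ⟨I, hI, hmax⟩ := exists_max g
  have h1 : ∀ i, ∃ (a p : Polynomial F) (b : κ → Polynomial F), a ≠ 0 ∧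
      (a : PowerSeries F) * g i = p + ∑ l ∈ I, (b l : PowerSeries F) * g l := by
    intro i
    by_cases hi : i ∈ I
    · refine ⟨1, 0, Pi.single i 1, one_ne_zero, ?_⟩
      rw [Finset.sum_eq_single i]
      · simp
      · intro l _ hl
        rw [Pi.single_eq_of_ne hl]
        simp
      · intro h; exact absurd hi h
    · have h2 := hmax i hi
      unfold Ind at h2
      push Not at h2
      obtain ⟨c, hc, ⟨p, hp⟩, hc0⟩ := h2
      have hci : c i ≠ 0 := by
        intro hci
        apply hc0
        refine hI c (fun l hl => ?_) ⟨p, hp⟩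
        by_cases hli : l = i
        · rw [hli]; exact hci
        · exact hc l (by
            rw [Finset.mem_insert]
            push Not
            exact ⟨hli, hl⟩)
      refine ⟨c i, p, fun l => - c l, hci, ?_⟩
      have h3 : ∑ l, (c l : PowerSeries F) * g l =
          (c i : PowerSeries F) * g i + ∑ l ∈ I, (c l : PowerSeries F) * g l := by
        have h0 := Finset.sum_insert (f := fun l => (c l : PowerSeries F) * g l) hi
        rw [← h0]
        symm
        refine Finset.sum_subset (Finset.subset_univ _) fun l _ hl => ?_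
        rw [hc l hl]
        simp
      rw [h3] at hp
      have h4 : ∑ l ∈ I, ((- c l : Polynomial F) : PowerSeries F) * g l =
          - ∑ l ∈ I, (c l : PowerSeries F) * g l := by
        rw [← Finset.sum_neg_distrib]
        refine Finset.sum_congr rfl fun l _ => ?_
        rw [Polynomial.coe_neg, neg_mul]
      rw [h4, ← hp]
      ring
  choose a p b ha hrel using h1
  refine ⟨I, ∏ i, a i, fun i => (∏ j ∈ univ.erase i, a j) * p i,
    fun i l => (∏ j ∈ univ.erase i, a j) * b i l, hI, ?_, fun i => ?_⟩
  · exact Finset.prod_ne_zero_iff.2 fun i _ => ha i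
  · have h2 : ((∏ j, a j : Polynomial F) : PowerSeries F) =
        ((∏ j ∈ univ.erase i, a j : Polynomial F) : PowerSeries F) * (a i : PowerSeries F) := by
      rw [← Polynomial.coe_mul, Finset.prod_erase_mul _ _ (mem_univ i)]
    rw [h2, mul_assoc, hrel i, mul_add, Polynomial.coe_mul, Finset.mul_sum]
    congr 1
    refine Finset.sum_congr rfl fun l _ => ?_
    rw [Polynomial.coe_mul, mul_assoc]

/-! ### The family -/

/-- Series whose exponents lie in the range of `lam`. -/
theorem eq_ser {lam : ℕ → ℕ} (hm : StrictMono lam) {ι : Type*} (g : ι → PowerSeries F)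
    (hg : ∀ i n, PowerSeries.coeff n (g i) ≠ 0 → n ∈ Set.range lam) (i : ι) :
    ser lam (fun j i => PowerSeries.coeff (lam j) (g i)) i = g i := by
  ext n
  rw [ser, PowerSeries.coeff_mk]
  by_cases hn : n ∈ Set.range lam
  · obtain ⟨j, rfl⟩ := hn
    have h1 : {j' ∈ range (lam j + 1) | lam j' = lam j} = {j} := by
      ext j'
      rw [mem_filter, mem_range, mem_singleton]
      constructor
      · rintro ⟨_, h⟩; exact hm.injective h
      · rintro rfl
        exact ⟨Nat.lt_succ_of_le (hm.id_le j'), rfl⟩
    rw [h1, Finset.sum_singleton]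
  · have h1 : {j' ∈ range (n + 1) | lam j' = n} = ∅ := by
      rw [Finset.filter_eq_empty_iff]
      intro j' _ h
      exact hn ⟨j', h⟩
    rw [h1, Finset.sum_empty]
    by_contra hne
    exact hn (hg i n (Ne.symm hne))

/-- The polynomials `p_i + ∑ b_il x_l`. -/
noncomputable def arg (I : Finset κ) (p : κ → Polynomial F) (b : κ → κ → Polynomial F) (i : κ) :
    MvPolynomial I (Polynomial F) :=
  MvPolynomial.C (p i) + ∑ l : I, MvPolynomial.C (b i l) * MvPolynomial.X l

/-- **Theorem.** Polynomial relations between sparse series come from linear relations. -/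
theorem family [CharZero F] (g : κ → PowerSeries F)
    (hs : Sparse {n | ∃ i, PowerSeries.coeff n (g i) ≠ 0})
    {I : Finset κ} {a : Polynomial F} {p : κ → Polynomial F} {b : κ → κ → Polynomial F}
    (hI : Ind g I)
    (hrel : ∀ i, (a : PowerSeries F) * g i = p i + ∑ l ∈ I, (b i l : PowerSeries F) * g l)
    {G : MvPolynomial κ F} (hG : MvPolynomial.eval₂ PowerSeries.C g G = 0) {D : ℕ}
    (hD : G.totalDegree ≤ D) :
    hval D (MvPolynomial.C.comp Polynomial.C) (MvPolynomial.C a : MvPolynomial I (Polynomial F))
      (arg I p b) G = 0 := by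
  obtain ⟨lam, r, hgap, hsub⟩ := hs.exists_gap
  have hg : ∀ (i : I) n, PowerSeries.coeff n (g i) ≠ 0 → n ∈ Set.range lam :=
    fun i n hn => hsub ⟨i, hn⟩
  set β : ℕ → I → F := fun j i => PowerSeries.coeff (lam j) (g i) with hβ
  have hser : ser lam β = fun i : I => g i := funext fun i => eq_ser hgap.mono (fun i : I => g i) hg i
  refine indep hgap β ?_ _ _ le_rfl ?_
  · rintro c ⟨q, hq⟩
    rw [hser, evP_lin] at hq
    have h1 := hI (fun l => if h : l ∈ I then c ⟨l, h⟩ else 0) (fun l hl => dif_neg hl) ⟨q, by
      rw [← hq, ← Finset.sum_subset (Finset.subset_univ I)]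
      · rw [← Finset.sum_coe_sort I]
        refine Finset.sum_congr rfl fun l _ => ?_
        rw [dif_pos l.2]
      · intro l _ hl
        rw [dif_neg hl]
        simp⟩
    funext l
    have h2 := congrFun h1 l
    simp only [l.2, dif_pos] at h2
    exact h2
  · intro J n hn
    rw [← coeff_evP hgap.mono β _ hn, hser, map_hval]
    have h1 : (evP fun i : I => g i).comp (MvPolynomial.C.comp Polynomial.C) =
        (PowerSeries.C : F →+* PowerSeries F) := by
      ext x : 1
      simp [evP]
    have h2 : (evP fun i : I => g i) (MvPolynomial.C a) = (a : PowerSeries F) := by simp [evP]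
    have h3 : (fun i => (evP fun i : I => g i) (arg I p b i)) =
        fun i => (a : PowerSeries F) * g i := by
      funext i
      rw [hrel i, arg, map_add, map_sum]
      have e1 : (evP fun i : I => g i) (MvPolynomial.C (p i)) = (p i : PowerSeries F) := by
        simp [evP]
      have e2 : ∀ l : I, (evP fun i : I => g i) (MvPolynomial.C (b i l) * MvPolynomial.X l) =
          (b i l : PowerSeries F) * g l := by
        intro l
        simp [evP]
      rw [e1, Finset.sum_congr rfl fun l _ => e2 l]
      congr 1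
      exact Finset.sum_coe_sort I (fun l => (b i l : PowerSeries F) * g l)
    rw [h1, h2, h3, hval_mul _ _ _ hD, hG, mul_zero, map_zero]

/-- The same with values. -/
theorem family_eval [CharZero F] (g : κ → PowerSeries F)
    (hs : Sparse {n | ∃ i, PowerSeries.coeff n (g i) ≠ 0})
    {I : Finset κ} {a : Polynomial F} {p : κ → Polynomial F} {b : κ → κ → Polynomial F}
    (hI : Ind g I)
    (hrel : ∀ i, (a : PowerSeries F) * g i = p i + ∑ l ∈ I, (b i l : PowerSeries F) * g l)
    {G : MvPolynomial κ F} (hG : MvPolynomial.eval₂ PowerSeries.C g G = 0)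
    {z : F} (hz : a.eval z ≠ 0) (x : κ → F) :
    MvPolynomial.eval (fun i => ((p i).eval z + ∑ l ∈ I, (b i l).eval z * x l) / a.eval z) G = 0 := by
  have h1 := family g hs hI hrel hG le_rfl
  have h2 := congrArg (MvPolynomial.eval₂Hom (Polynomial.evalRingHom z) fun l : I => x l) h1
  rw [map_hval, map_zero] at h2
  have h3 : (MvPolynomial.eval₂Hom (Polynomial.evalRingHom z) fun l : I => x l).comp
      (MvPolynomial.C.comp Polynomial.C) = RingHom.id F := by
    ext c
    simp
  have h4 : (MvPolynomial.eval₂Hom (Polynomial.evalRingHom z) fun l : I => x l)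
      (MvPolynomial.C a) = a.eval z := by simp
  have h5 : (fun i => (MvPolynomial.eval₂Hom (Polynomial.evalRingHom z) fun l : I => x l)
      (arg I p b i)) = fun i => a.eval z *
        (((p i).eval z + ∑ l ∈ I, (b i l).eval z * x l) / a.eval z) := by
    funext i
    rw [mul_div_cancel₀ _ hz, arg, map_add, map_sum]
    simp only [map_mul, MvPolynomial.coe_eval₂Hom, MvPolynomial.eval₂_C, MvPolynomial.eval₂_X,
      Polynomial.coe_evalRingHom]
    congr 1
    exact Finset.sum_coe_sort I (fun l => (b i l).eval z * x l)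
  rw [h3, h4, h5, hval_mul _ _ _ le_rfl, MvPolynomial.eval₂_id] at h2
  rcases mul_eq_zero.1 h2 with h6 | h6
  · exact absurd h6 (pow_ne_zero _ hz)
  · exact h6

end Pool.Agent.TH600.LC
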