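import Pool.Agent.TH600.LC.Family

/-!
# Power series with long gaps and linear differential equations
-/

set_option autoImplicit false

namespace Pool.Agent.TH600.LC

open Finset

section gaps

variable {F : Type*} [Field F]

/-- The set has arbitrarily long gaps. -/
def LongGaps (A : Set ℕ) : Prop := ∀ L N : ℕ, ∃ M, N ≤ M ∧ ∀ j < L, M + j ∉ A

theorem Sparse.longGaps {A : Set ℕ} (hA : Sparse A) : LongGaps A := by
  intro L N
  obtain ⟨lam, r, hgap, hsub⟩ := hA.exists_gap
  by_contra hcon
  push Not at hcon
  -- consecutive elements of the sequence have distance at most `L`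
  have h1 : ∀ j, N ≤ lam j → lam (j + 1) ≤ lam j + L := by
    intro j hj
    obtain ⟨i, hi, hiA⟩ := hcon (lam j + 1) (by omega)
    obtain ⟨l, hl⟩ := hsub hiA
    have h2 : j < l := by
      by_contra h
      push Not at h
      have := hgap.mono.monotone h
      omega
    have h3 := hgap.mono.monotone (show j + 1 ≤ l from h2)
    omega
  have h2 : ∀ i j, N ≤ lam j → lam (j + i) ≤ lam j + i * L := by
    intro i
    induction i with
    | zero => intro j _; simp
    | succ i ih =>
      intro j hj
      have h3 := ih j hj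
      have h4 := h1 (j + i) (hj.trans (hgap.mono.monotone (by omega)))
      have h5 : (i + 1) * L = i * L + L := by ring
      rw [h5]
      have h6 : j + (i + 1) = j + i + 1 := by ring
      rw [h6]
      omega
  set j := N + r * L + 1 with hj
  have h3 : j ≤ lam j := hgap.mono.id_le j
  have h4 := h2 r j (by omega)
  have h5 := hgap.gap j
  omega

/-- The exponents of `u` lie close to the set `A`. -/
def Near (A : Set ℕ) (u : PowerSeries F) : Prop :=
  ∃ d : ℕ, ∀ n, PowerSeries.coeff n u ≠ 0 → ∃ l ≤ d, ∃ m ∈ A, n = m + l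

theorem near_zero (A : Set ℕ) : Near A (0 : PowerSeries F) :=
  ⟨0, fun n hn => absurd (by simp) hn⟩

theorem Near.add {A : Set ℕ} {u v : PowerSeries F} (hu : Near A u) (hv : Near A v) :
    Near A (u + v) := by
  obtain ⟨d, hd⟩ := hu
  obtain ⟨e, he⟩ := hv
  refine ⟨max d e, fun n hn => ?_⟩
  by_cases h : PowerSeries.coeff n u = 0
  · have h1 : PowerSeries.coeff n v ≠ 0 := by
      intro h2
      apply hn
      rw [map_add, h, h2, add_zero]
    obtain ⟨l, hl, m, hm, h3⟩ := he n h1
    exact ⟨l, hl.trans (le_max_right _ _), m, hm, h3⟩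
  · obtain ⟨l, hl, m, hm, h3⟩ := hd n h
    exact ⟨l, hl.trans (le_max_left _ _), m, hm, h3⟩

theorem Near.poly_mul {A : Set ℕ} {u : PowerSeries F} (hu : Near A u) (p : Polynomial F) :
    Near A ((p : PowerSeries F) * u) := by
  obtain ⟨d, hd⟩ := hu
  refine ⟨d + p.natDegree, fun n hn => ?_⟩
  rw [PowerSeries.coeff_mul] at hn
  obtain ⟨⟨a, b⟩, hab, hne⟩ := Finset.exists_ne_zero_of_sum_ne_zero hn
  rw [HasAntidiagonal.mem_antidiagonal] at hab
  simp only at hab hne
  obtain ⟨l, hl, m, hm, h3⟩ := hd b (right_ne_zero_of_mul hne)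
  have h4 : a ≤ p.natDegree := by
    have h5 := left_ne_zero_of_mul hne
    rw [Polynomial.coeff_coe] at h5
    exact Polynomial.le_natDegree_of_ne_zero h5
  exact ⟨l + a, by omega, m, hm, by omega⟩

theorem near_of_mem {A : Set ℕ} {u : PowerSeries F}
    (hu : ∀ n, PowerSeries.coeff n u ≠ 0 → n ∈ A) : Near A u :=
  ⟨0, fun n hn => ⟨0, le_refl _, n, hu n hn, rfl⟩⟩

theorem Near.gap {A : Set ℕ} (hA : LongGaps A) {u : PowerSeries F} (hu : Near A u) (L N : ℕ) :
    ∃ M, N ≤ M ∧ ∀ j < L, PowerSeries.coeff (M + j) u = 0 := by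
  obtain ⟨d, hd⟩ := hu
  obtain ⟨M, hM, h⟩ := hA (L + d) N
  refine ⟨M + d, by omega, fun j hj => ?_⟩
  by_contra hne
  obtain ⟨l, hl, m, hm, h3⟩ := hd _ hne
  have h4 : m = M + (d + j - l) := by omega
  exact h (d + j - l) (by omega) (h4 ▸ hm)

/-- The operator `X d/dX`. -/
noncomputable def theta (F : Type*) [Field F] :
    Derivation F (PowerSeries F) (PowerSeries F) :=
  (PowerSeries.X : PowerSeries F) • PowerSeries.derivative F

theorem coeff_theta (u : PowerSeries F) (n : ℕ) :
    PowerSeries.coeff n (theta F u) = n * PowerSeries.coeff n u := by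
  rw [theta, Derivation.smul_apply, smul_eq_mul]
  cases n with
  | zero => simp
  | succ n =>
    rw [PowerSeries.coeff_succ_X_mul, PowerSeries.coeff_derivative]
    push_cast
    ring

theorem coeff_theta_iter (u : PowerSeries F) (j n : ℕ) :
    PowerSeries.coeff n ((theta F)^[j] u) = (n : F) ^ j * PowerSeries.coeff n u := by
  induction j with
  | zero => simp
  | succ j ih =>
    rw [Function.iterate_succ_apply', coeff_theta, ih]
    ring

/-- **Differential equations.** A power series with long gaps which satisfies a linear differential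
equation is a polynomial. -/
theorem poly_of_ode [CharZero F] {u : PowerSeries F}
    (hgap : ∀ L N : ℕ, ∃ M, N ≤ M ∧ ∀ j < L, PowerSeries.coeff (M + j) u = 0) (n : ℕ)
    (d : ℕ → Polynomial F) (hd : ∃ j ∈ range n, d j ≠ 0)
    (h : ∑ j ∈ range n, (d j : PowerSeries F) * (theta F)^[j] u = 0) :
    ∃ p : Polynomial F, u = p := by
  classical
  -- the recursion
  let R : ℕ → Polynomial F := fun l => ∑ j ∈ range n,
    Polynomial.C ((d j).coeff l) * Polynomial.X ^ j
  have hRc : ∀ l j, j < n → (R l).coeff j = (d j).coeff l := by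
    intro l j hj
    simp only [R]
    rw [Polynomial.finsetSum_coeff, Finset.sum_eq_single j]
    · rw [Polynomial.coeff_C_mul_X_pow, if_pos rfl]
    · intro b _ hb
      rw [Polynomial.coeff_C_mul_X_pow, if_neg (Ne.symm hb)]
    · intro h2
      exact absurd (mem_range.2 hj) h2
  have hex : ∃ l, R l ≠ 0 := by
    obtain ⟨j, hj, hdj⟩ := hd
    refine ⟨(d j).natDegree, fun h0 => ?_⟩
    have h1 := hRc (d j).natDegree j (mem_range.1 hj)
    rw [h0, Polynomial.coeff_zero] at h1
    exact (Polynomial.leadingCoeff_ne_zero.2 hdj) h1.symm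
  set l₀ := Nat.find hex with hl₀
  have hR0 : R l₀ ≠ 0 := Nat.find_spec hex
  have hRlt : ∀ l < l₀, R l = 0 := by
    intro l hl
    by_contra hne
    exact Nat.find_min hex hl hne
  set Lm := (range n).sup (fun j => (d j).natDegree) with hLm
  have hRgt : ∀ l, Lm < l → R l = 0 := by
    intro l hl
    simp only [R]
    refine Finset.sum_eq_zero fun j hj => ?_
    have h1 : (d j).natDegree ≤ Lm := Finset.le_sup (f := fun j => (d j).natDegree) hj
    rw [Polynomial.coeff_eq_zero_of_natDegree_lt (by omega), Polynomial.C_0, zero_mul]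
  have hrec : ∀ N : ℕ, ∑ x ∈ antidiagonal N, (R x.1).eval (x.2 : F) *
      PowerSeries.coeff x.2 u = 0 := by
    intro N
    have h1 := congrArg (PowerSeries.coeff N) h
    rw [map_sum, map_zero] at h1
    rw [← h1]
    simp only [PowerSeries.coeff_mul]
    rw [Finset.sum_comm]
    refine Finset.sum_congr rfl fun x _ => ?_
    simp only [R]
    rw [Polynomial.eval_finsetSum, Finset.sum_mul]
    refine Finset.sum_congr rfl fun j _ => ?_
    rw [Polynomial.coeff_coe, coeff_theta_iter, Polynomial.eval_mul, Polynomial.eval_C,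
      Polynomial.eval_pow, Polynomial.eval_X]
    ring
  obtain ⟨N₀, hN₀⟩ : ∃ N₀ : ℕ, ∀ M, N₀ ≤ M → (R l₀).eval (M : F) ≠ 0 := by
    have hinj : Function.Injective fun m : ℕ => (m : F) := Nat.cast_injective
    have h2 : {z : F | (R l₀).IsRoot z}.Finite := Polynomial.finite_setOfPred_isRoot hR0
    have h3 := (h2.preimage (hinj.injOn (s := (fun m : ℕ => (m : F)) ⁻¹'
      {z : F | (R l₀).IsRoot z}))).compl_mem_cofinite
    rw [Nat.cofinite_eq_atTop] at h3
    exact Filter.eventually_atTop.1 h3
  obtain ⟨M, hM, hz⟩ := hgap (Lm + 1) N₀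
  have hall : ∀ j, PowerSeries.coeff (M + j) u = 0 := by
    intro j
    induction j using Nat.strong_induction_on with
    | _ j ih =>
      by_cases hj : j < Lm + 1
      · exact hz j hj
      · have h1 := hrec (M + j + l₀)
        rw [Finset.sum_eq_single (l₀, M + j)] at h1
        · exact (mul_eq_zero.1 h1).resolve_left (hN₀ _ (by omega))
        · rintro ⟨a, b⟩ hab hne
          rw [HasAntidiagonal.mem_antidiagonal] at hab
          simp only at hab ⊢
          rcases lt_trichotomy a l₀ with h2 | h2 | h2
          · rw [hRlt a h2, Polynomial.eval_zero, zero_mul]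
          · exfalso
            apply hne
            rw [h2, Prod.mk.injEq]
            exact ⟨rfl, by omega⟩
          · by_cases h3 : Lm < a
            · rw [hRgt a h3, Polynomial.eval_zero, zero_mul]
            · have h4 : b = M + (b - M) := by omega
              rw [h4, ih (b - M) (by omega), mul_zero]
        · intro h2
          exact absurd (HasAntidiagonal.mem_antidiagonal.2 (by ring)) h2
  refine ⟨PowerSeries.trunc M u, ?_⟩
  ext m
  rw [Polynomial.coeff_coe, PowerSeries.coeff_trunc]
  split_ifs with hm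
  · rfl
  · have h1 : m = M + (m - M) := by omega
    rw [h1, hall]

end gaps

end Pool.Agent.TH600.LC
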