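import Pool.Agent.TH600.LC.Pair
import Pool.Agent.TH143.GT.Kod
import Pool.Agent.TH143.GT.Desc

/-!
# Families of rational curves over an abstract coefficient ring
-/

set_option autoImplicit false

namespace Pool.Agent.TH600.LC

open Finset

/-- The data of a family over the ring `C`. -/
structure Gd (C : Type) [CommRing C] [Algebra ℂ C] (N s m : ℕ) where
  /-- evaluation -/
  ev : ℂ → C →+* ℂ
  ev_alg : ∀ z c, ev z (algebraMap ℂ C c) = c
  /-- denominator -/
  a : C
  /-- coefficient functions -/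
  y : Fin s → C
  /-- constant terms -/
  p : Fin m → C
  /-- coefficients -/
  b : Fin m → Fin m → C
  /-- indices -/
  I : Finset (Fin m)
  /-- polynomials -/
  Q : Fin N → MvPolynomial (Fin s ⊕ Fin m) ℂ
  inj : ∀ c : C, (∀ z, ev z a ≠ 0 → ev z c = 0) → c = 0

namespace Gd

variable {C : Type} [CommRing C] [Algebra ℂ C] {N s m : ℕ} (E : Gd C N s m)

/-- the point of the affine space with parameters `z, x` -/
noncomputable def Φ (z : ℂ) (x : Fin m → ℂ) (i : Fin m) : ℂ :=
  (E.ev z (E.p i) + ∑ l ∈ E.I, E.ev z (E.b i l) * x l) / E.ev z E.a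

/-- the point of the variety with parameters `z, x` -/
noncomputable def Ψ (z : ℂ) (x : Fin m → ℂ) (j : Fin N) : ℂ :=
  MvPolynomial.eval (Sum.elim (fun i => E.ev z (E.y i)) (E.Φ z x)) (E.Q j)

/-- evaluation of the ring of the family -/
noncomputable def evA (z : ℂ) (x x' : Fin m → ℂ) : MvPolynomial (Fin m ⊕ Fin m) C →+* ℂ :=
  MvPolynomial.eval₂Hom (E.ev z) (Sum.elim x x')

/-- evaluation of polynomials over the ring of the family -/
noncomputable def evT (z : ℂ) (x x' : Fin m → ℂ) (t : ℂ) :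
    Polynomial (MvPolynomial (Fin m ⊕ Fin m) C) →+* ℂ :=
  Polynomial.eval₂RingHom (E.evA z x x') t

theorem eq_zero_of_evA {α : MvPolynomial (Fin m ⊕ Fin m) C}
    (h : ∀ z, E.ev z E.a ≠ 0 → ∀ x x', E.evA z x x' α = 0) :
    α = 0 := by
  refine MvPolynomial.ext _ _ fun e => ?_
  rw [MvPolynomial.coeff_zero]
  refine E.inj _ fun z hz => ?_
  have h1 : MvPolynomial.map (E.ev z) α = 0 := by
    apply MvPolynomial.funext
    intro x
    rw [MvPolynomial.eval_map, map_zero]
    have h2 := h z hz (fun i => x (Sum.inl i)) (fun i => x (Sum.inr i))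
    have h3 : Sum.elim (fun i => x (Sum.inl i)) (fun i => x (Sum.inr i)) = x := by
      funext i
      rcases i with i | i <;> rfl
    rw [evA, h3] at h2
    exact h2
  rw [← MvPolynomial.coeff_map, h1, MvPolynomial.coeff_zero]

theorem eq_zero_of_evT {α : Polynomial (MvPolynomial (Fin m ⊕ Fin m) C)}
    (h : ∀ z, E.ev z E.a ≠ 0 → ∀ x x' t, E.evT z x x' t α = 0) : α = 0 := by
  ext1 n
  rw [Polynomial.coeff_zero]
  refine E.eq_zero_of_evA fun z hz x x' => ?_
  have h1 : Polynomial.map (E.evA z x x') α = 0 := by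
    apply Polynomial.funext
    intro t
    rw [Polynomial.eval_map, Polynomial.eval_zero]
    exact h z hz x x' t
  rw [← Polynomial.coeff_map, h1, Polynomial.coeff_zero]

/-- The family of rational curves. -/
noncomputable def WW (d : ℕ) (j : Fin N) : Polynomial (MvPolynomial (Fin m ⊕ Fin m) C) :=
  hval d (Polynomial.C.comp (MvPolynomial.C.comp (algebraMap ℂ C)))
    (Polynomial.C (MvPolynomial.C E.a))
    (Sum.elim (fun i => Polynomial.C (MvPolynomial.C (E.a * E.y i)))
      (fun i => Polynomial.C (MvPolynomial.C (E.p i)) +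
        ∑ l ∈ E.I, Polynomial.C (MvPolynomial.C (E.b i l)) *
          (Polynomial.C (MvPolynomial.X (Sum.inl l)) +
            Polynomial.X * Polynomial.C (MvPolynomial.X (Sum.inr l))))) (E.Q j)

theorem evT_WW {d : ℕ} {j : Fin N} (hd : (E.Q j).totalDegree ≤ d) {z : ℂ}
    (hz : E.ev z E.a ≠ 0) (x x' : Fin m → ℂ) (t : ℂ) :
    E.evT z x x' t (E.WW d j) = E.ev z E.a ^ d * E.Ψ z (fun l => x l + t * x' l) j := by
  have hC : ∀ c : C, E.evT z x x' t (Polynomial.C (MvPolynomial.C c)) = E.ev z c := by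
    intro c
    simp [evT, evA]
  have hl : ∀ l, E.evT z x x' t (Polynomial.C (MvPolynomial.X (Sum.inl l))) = x l := by
    intro l
    simp [evT, evA]
  have hr : ∀ l, E.evT z x x' t (Polynomial.C (MvPolynomial.X (Sum.inr l))) = x' l := by
    intro l
    simp [evT, evA]
  have hX : E.evT z x x' t Polynomial.X = t := by simp [evT]
  have e0 := map_hval (E.evT z x x' t) d
    (Polynomial.C.comp (MvPolynomial.C.comp (algebraMap ℂ C)))
    (Polynomial.C (MvPolynomial.C E.a))
    (Sum.elim (fun i => Polynomial.C (MvPolynomial.C (E.a * E.y i)))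
      (fun i => Polynomial.C (MvPolynomial.C (E.p i)) +
        ∑ l ∈ E.I, Polynomial.C (MvPolynomial.C (E.b i l)) *
          (Polynomial.C (MvPolynomial.X (Sum.inl l)) +
            Polynomial.X * Polynomial.C (MvPolynomial.X (Sum.inr l))))) (E.Q j)
  rw [WW, e0]
  have e1 : (E.evT z x x' t).comp
      (Polynomial.C.comp (MvPolynomial.C.comp (algebraMap ℂ C))) = RingHom.id ℂ := by
    ext c
    change E.evT z x x' t (Polynomial.C (MvPolynomial.C (algebraMap ℂ C c))) = c
    rw [hC, E.ev_alg]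
  have e3 : (fun i => E.evT z x x' t
      ((Sum.elim (fun i => Polynomial.C (MvPolynomial.C (E.a * E.y i)))
      (fun i => Polynomial.C (MvPolynomial.C (E.p i)) +
        ∑ l ∈ E.I, Polynomial.C (MvPolynomial.C (E.b i l)) *
          (Polynomial.C (MvPolynomial.X (Sum.inl l)) +
            Polynomial.X * Polynomial.C (MvPolynomial.X (Sum.inr l)))) :
              Fin s ⊕ Fin m → Polynomial (MvPolynomial (Fin m ⊕ Fin m) C)) i)) =
      fun i => E.ev z E.a * Sum.elim (fun i => E.ev z (E.y i))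
        (E.Φ z fun l => x l + t * x' l) i := by
    funext i
    rcases i with i | i
    · rw [Sum.elim_inl, Sum.elim_inl, hC, map_mul]
    · rw [Sum.elim_inr, Sum.elim_inr, Φ, mul_div_cancel₀ _ hz, map_add, hC, map_sum]
      congr 1
      refine Finset.sum_congr rfl fun l _ => ?_
      rw [map_mul, map_add, map_mul, hC, hl, hr, hX]
  rw [e1, e3, hC, hval_mul _ _ _ hd, MvPolynomial.eval₂_id]
  rfl

open Pool.Agent.TH143.GT Pool.Agent.W602.GT

theorem evT_aeval {n : ℕ} (z : ℂ) (x x' : Fin m → ℂ) (t : ℂ)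
    (W : Fin n → Polynomial (MvPolynomial (Fin m ⊕ Fin m) C)) (G : MvPolynomial (Fin n) ℂ) :
    E.evT z x x' t (MvPolynomial.aeval W G) =
      MvPolynomial.eval (fun j => E.evT z x x' t (W j)) G := by
  rw [MvPolynomial.aeval_def, MvPolynomial.hom_eval₂]
  have h1 : (E.evT z x x' t).comp (algebraMap ℂ (Polynomial (MvPolynomial (Fin m ⊕ Fin m) C))) =
      RingHom.id ℂ := by
    ext c
    have h2 : (algebraMap ℂ (Polynomial (MvPolynomial (Fin m ⊕ Fin m) C))) c =
        Polynomial.C (MvPolynomial.C (algebraMap ℂ C c)) := rfl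
    rw [RingHom.comp_apply, h2]
    simp [evT, evA, E.ev_alg]
  rw [h1]
  rfl

end Gd

open Pool.Agent.TH143.GT Pool.Agent.W602.GT in
/-- **Families of rational curves.** -/
theorem Gd.main {C : Type} [CommRing C] [IsDomain C] [Algebra ℂ C] {n s m : ℕ}
    (E : Gd C (n + 1) s m) {K : Type} [Field K] [Algebra ℂ K] {w : ℕ} {y : Fin (n + 1) → K}
    {f : ℂ → Fin (n + 1) → ℂ} (hy : GenPt f Set.univ K w y)
    (h1 : ∀ G : MvPolynomial (Fin (n + 1)) ℂ, IsForm G →
      (∀ z, MvPolynomial.eval (f z) G = 0) → ∀ z x, E.ev z E.a ≠ 0 →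
        MvPolynomial.eval (E.Ψ z x) G = 0)
    (h2 : ∀ G : MvPolynomial (Fin (n + 1)) ℂ, IsForm G →
      (∀ z x, E.ev z E.a ≠ 0 → MvPolynomial.eval (E.Ψ z x) G = 0) →
        ∀ z, MvPolynomial.eval (f z) G = 0)
    {z0 : ℂ} (hz0 : E.ev z0 E.a ≠ 0) {x0 x1 : Fin m → ℂ} {j k : Fin (n + 1)}
    (hne : E.Ψ z0 x0 j * E.Ψ z0 x1 k ≠ E.Ψ z0 x1 j * E.Ψ z0 x0 k) :
    Covered K ∧ ∃ r : K, ¬ AllFlat 1 y r := by
  classical
  set d : ℕ := Finset.univ.sup fun j => (E.Q j).totalDegree with hd
  have hdj : ∀ j, (E.Q j).totalDegree ≤ d := fun j =>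
    Finset.le_sup (f := fun j => (E.Q j).totalDegree) (Finset.mem_univ j)
  have hW : ∀ j z x x' t, E.ev z E.a ≠ 0 →
      E.evT z x x' t (E.WW d j) = E.ev z E.a ^ d * E.Ψ z (fun l => x l + t * x' l) j :=
    fun j z x x' t hz => E.evT_WW (hdj j) hz x x' t
  -- nonconstancy
  have hder : Polynomial.derivative (E.WW d j) * E.WW d k ≠
      E.WW d j * Polynomial.derivative (E.WW d k) := by
    intro hcon
    set x' : Fin m → ℂ := fun l => x1 l - x0 l with hx'
    have h3 := congrArg (Polynomial.map (E.evA z0 x0 x')) hcon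
    rw [Polynomial.map_mul, Polynomial.map_mul, ← Polynomial.derivative_map,
      ← Polynomial.derivative_map] at h3
    have h4 := poly_const h3 0 1
    have h5 : ∀ j t, (Polynomial.map (E.evA z0 x0 x') (E.WW d j)).eval t =
        E.ev z0 E.a ^ d * E.Ψ z0 (fun l => x0 l + t * x' l) j := by
      intro j t
      rw [← hW j z0 x0 x' t hz0, Polynomial.eval_map]
      rfl
    have e0 : (fun l => x0 l + 0 * x' l) = x0 := by
      funext l
      ring
    have e1 : (fun l => x0 l + 1 * x' l) = x1 := by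
      funext l
      simp only [hx']
      ring
    rw [h5, h5, h5, h5, e0, e1] at h4
    have h6 : E.ev z0 E.a ^ d ≠ 0 := pow_ne_zero _ hz0
    apply hne
    have h7 : (E.ev z0 E.a ^ d * E.ev z0 E.a ^ d) * (E.Ψ z0 x0 j * E.Ψ z0 x1 k) =
        (E.ev z0 E.a ^ d * E.ev z0 E.a ^ d) * (E.Ψ z0 x1 j * E.Ψ z0 x0 k) := by
      linear_combination h4
    exact mul_left_cancel₀ (mul_ne_zero h6 h6) h7
  -- relations
  have hrel : ∀ G : MvPolynomial (Fin (n + 1)) ℂ, IsForm G →
      ((∀ z ∈ Set.univ, MvPolynomial.eval (f z) G = 0) ↔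
        (MvPolynomial.aeval (E.WW d) G :
          Polynomial (MvPolynomial (Fin m ⊕ Fin m) C)) = 0) := by
    rintro G ⟨e, hG⟩
    have h3 : ∀ z x x' t, E.ev z E.a ≠ 0 → E.evT z x x' t (MvPolynomial.aeval (E.WW d) G) =
        (E.ev z E.a ^ d) ^ e * MvPolynomial.eval (E.Ψ z fun l => x l + t * x' l) G := by
      intro z x x' t hz
      rw [E.evT_aeval, ← eval_smul_homog hG]
      congr 2
      funext j
      exact hW j z x x' t hz
    constructor
    · intro h
      apply E.eq_zero_of_evT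
      intro z hz x x' t
      rw [h3 z x x' t hz, h1 G ⟨e, hG⟩ (fun z => h z (Set.mem_univ z)) z _ hz, mul_zero]
    · intro h z _
      refine h2 G ⟨e, hG⟩ (fun z x hz => ?_) z
      have h4 := h3 z x 0 0 hz
      rw [h, map_zero] at h4
      have h5 : (fun l => x l + 0 * (0 : Fin m → ℂ) l) = x := by
        funext l
        ring
      rw [h5] at h4
      exact (mul_eq_zero.1 h4.symm).resolve_left (pow_ne_zero _ (pow_ne_zero _ hz))
  obtain ⟨M, i1, i2, mm, hm, W', hW1, ⟨c, l, hc, hcQ⟩, hW3⟩ := desc (E.WW d)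
    (MvPolynomial.X k) (MvPolynomial.X j) 1
    ⟨1, 1, 0, one_ne_zero, by rw [map_one, mul_one, pow_zero, mul_one, map_one]⟩
    (by rw [MvPolynomial.aeval_X, MvPolynomial.aeval_X]; exact hder)
  have hF : Fam y (1 : MvPolynomial (Fin (n + 1)) ℂ) W' l := by
    refine ⟨fun G hG => ?_, c, hc, hcQ⟩
    rw [hy.rel G hG, hrel G hG, hW1]
  have hyk : W602.GT.val y (MvPolynomial.X k : MvPolynomial (Fin (n + 1)) ℂ) ≠ 0 := by
    rw [val_X]
    refine (hF.ne k).2 fun h0 => hW3 ?_
    rw [MvPolynomial.aeval_X, MvPolynomial.aeval_X, h0, mul_zero, Polynomial.derivative_zero,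
      mul_zero]
  refine ⟨covered_of_fam hy hF (MvPolynomial.isHomogeneous_X _ _)
    (MvPolynomial.isHomogeneous_X _ _) hyk hW3, y j / y k, fun h => hW3 ?_⟩
  exact h M mm W' l hm hF 1 (MvPolynomial.X j) (MvPolynomial.X k)
    (MvPolynomial.isHomogeneous_X _ _) (MvPolynomial.isHomogeneous_X _ _) hyk
    (by rw [val_X, val_X])

end Pool.Agent.TH600.LC
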