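import Pool.Agent.TH600.LC.Win

/-!
# Algebraic independence of Hadamard-lacunary series

`F` is a field of characteristic zero, `β : ℕ → (ι → F)` vectors such that each tail spans `F^ι`,
`lam` a Hadamard-lacunary sequence.  Then the series `g_i = ∑_j β_j(i) X^(lam j)` are algebraically
independent over `F[X]`.
-/

namespace Pool.Agent.TH600.LC

open Finset

set_option linter.unusedSectionVars false

variable {F : Type*} [Field F] {ι : Type*} [Fintype ι] [DecidableEq ι]

/-! ### Finite-dimensional spaces of power series -/

theorem exists_bound (V : Submodule F (PowerSeries F)) [FiniteDimensional F V] :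
    ∃ L : ℕ, ∀ f ∈ V, (∀ n < L, PowerSeries.coeff n f = 0) → f = 0 := by
  let W : ℕ →o (Submodule F V)ᵒᵈ :=
    { toFun := fun L => OrderDual.toDual
        { carrier := {f | ∀ n < L, PowerSeries.coeff n (f : PowerSeries F) = 0}
          add_mem' := fun {a b} ha hb n hn => by
            rw [Submodule.coe_add, map_add, ha n hn, hb n hn, add_zero]
          zero_mem' := fun n _ => by rw [Submodule.coe_zero, map_zero]
          smul_mem' := fun c a ha n hn => by
            rw [Submodule.coe_smul, map_smul, ha n hn, smul_zero] }
      monotone' := fun a b hab f hf n hn => hf n (lt_of_lt_of_le hn hab) }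
  obtain ⟨L, hL⟩ := IsArtinian.monotone_stabilizes W
  refine ⟨L, fun f hf h => ?_⟩
  ext n
  have h1 : (⟨f, hf⟩ : V) ∈ (OrderDual.ofDual (W L) : Submodule F V) := h
  rw [hL (max L (n + 1)) (le_max_left _ _)] at h1
  have h2 := h1 n (lt_of_lt_of_le (Nat.lt_succ_self n) (le_max_right _ _))
  simpa using h2

/-- Evaluation at power series. -/
noncomputable def evP (g : ι → PowerSeries F) : MvPolynomial ι (Polynomial F) →+* PowerSeries F :=
  MvPolynomial.eval₂Hom Polynomial.coeToPowerSeries.ringHom g

/-- the series `∑_j β_j(i) X^(lam j)` -/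
noncomputable def ser (lam : ℕ → ℕ) (β : ℕ → ι → F) (i : ι) : PowerSeries F :=
  PowerSeries.mk fun n => ∑ j ∈ range (n + 1) with lam j = n, β j i

theorem coeff_ser {lam : ℕ → ℕ} (hm : StrictMono lam) (β : ℕ → ι → F) (i : ι) {J n : ℕ}
    (hn : n < lam J) : PowerSeries.coeff n (ser lam β i) = (part lam β (range J) i).coeff n := by
  rw [ser, PowerSeries.coeff_mk, part, Polynomial.finsetSum_coeff]
  simp only [Polynomial.coeff_monomial]
  rw [Finset.sum_filter]
  have h1 : ∀ j, lam j = n → j < J ∧ j < n + 1 := by
    intro j hj
    have := hm.id_le j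
    simp only [id] at this
    exact ⟨hm.lt_iff_lt.1 (by omega), by omega⟩
  have h2 : ∀ a b : ℕ, (∀ j, lam j = n → j < a) → (∀ j, lam j = n → j < b) →
      ∑ j ∈ range a, (if lam j = n then β j i else 0) =
        ∑ j ∈ range b, (if lam j = n then β j i else 0) := by
    intro a b ha hb
    rw [← Finset.sum_filter, ← Finset.sum_filter]
    congr 1
    ext j
    simp only [mem_filter, mem_range]
    constructor
    · rintro ⟨_, h⟩; exact ⟨hb j h, h⟩
    · rintro ⟨_, h⟩; exact ⟨ha j h, h⟩
  exact h2 _ _ (fun j hj => (h1 j hj).2) (fun j hj => (h1 j hj).1)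

theorem coeff_evP {lam : ℕ → ℕ} (hm : StrictMono lam) (β : ℕ → ι → F)
    (S : MvPolynomial ι (Polynomial F)) {J n : ℕ} (hn : n < lam J) :
    PowerSeries.coeff n (evP (ser lam β) S) = (ev (part lam β (range J)) S).coeff n := by
  let I : Ideal (PowerSeries F) := Ideal.span {(PowerSeries.X : PowerSeries F) ^ lam J}
  have key : (Ideal.Quotient.mk I).comp (evP (ser lam β)) =
      ((Ideal.Quotient.mk I).comp Polynomial.coeToPowerSeries.ringHom).comp
        (ev (part lam β (range J))) := by
    apply MvPolynomial.ringHom_ext
    · intro r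
      simp [evP, ev]
    · intro i
      simp only [RingHom.comp_apply, evP, ev, MvPolynomial.coe_eval₂Hom, MvPolynomial.eval₂_X,
        Polynomial.coeToPowerSeries.ringHom_apply]
      rw [Ideal.Quotient.eq, Ideal.mem_span_singleton, PowerSeries.X_pow_dvd_iff]
      intro n hn
      rw [map_sub, coeff_ser hm β i hn, Polynomial.coeff_coe, sub_self]
  have h1 := DFunLike.congr_fun key S
  simp only [RingHom.comp_apply, Polynomial.coeToPowerSeries.ringHom_apply] at h1
  rw [Ideal.Quotient.eq, Ideal.mem_span_singleton, PowerSeries.X_pow_dvd_iff] at h1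
  have h2 := h1 n hn
  rw [map_sub, Polynomial.coeff_coe, sub_eq_zero] at h2
  exact h2

/-- Finite-dimensional space containing all values of polynomials of bounded degrees. -/
noncomputable def valSpace (g : ι → PowerSeries F) (D d : ℕ) : Submodule F (PowerSeries F) :=
  Submodule.span F ((fun p : ℕ × (ι →₀ ℕ) => PowerSeries.X ^ p.1 * ∏ i, g i ^ p.2 i) ''
    (Set.Iic D ×ˢ {α | α.degree ≤ d}))

instance (g : ι → PowerSeries F) (D d : ℕ) : FiniteDimensional F (valSpace g D d) := by
  apply FiniteDimensional.span_of_finite
  exact ((Set.finite_Iic D).prod (Finsupp.finite_of_degree_le d)).image _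

theorem evP_mem (g : ι → PowerSeries F) {D d : ℕ} {S : MvPolynomial ι (Polynomial F)}
    (hD : ∀ α, (S.coeff α).natDegree ≤ D) (hd : S.totalDegree ≤ d) :
    evP g S ∈ valSpace g D d := by
  rw [evP, MvPolynomial.coe_eval₂Hom, MvPolynomial.eval₂_eq']
  refine Submodule.sum_mem _ fun α hα => ?_
  rw [Polynomial.coeToPowerSeries.ringHom_apply]
  have hα' : α.degree ≤ d := by
    have h2 := MvPolynomial.le_totalDegree hα
    rw [Finsupp.sum_fintype _ _ (fun _ => rfl)] at h2
    rw [Finsupp.degree_eq_sum]
    exact h2.trans hd
  have h3 : ((S.coeff α : Polynomial F) : PowerSeries F) =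
      ∑ a ∈ range (D + 1), (S.coeff α).coeff a • (PowerSeries.X ^ a : PowerSeries F) := by
    ext n
    rw [Polynomial.coeff_coe, map_sum]
    simp only [map_smul, PowerSeries.coeff_X_pow, smul_eq_mul, mul_ite, mul_one, mul_zero]
    by_cases hn : n < D + 1
    · rw [Finset.sum_ite_eq (range (D + 1)) n, if_pos (mem_range.2 hn)]
    · rw [Finset.sum_ite_eq (range (D + 1)) n, if_neg (by rwa [mem_range])]
      exact Polynomial.coeff_eq_zero_of_natDegree_lt (by have := hD α; omega)
  rw [h3, Finset.sum_mul]
  refine Submodule.sum_mem _ fun a ha => ?_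
  rw [smul_mul_assoc]
  refine Submodule.smul_mem _ _ (Submodule.subset_span ⟨(a, α), ⟨?_, hα'⟩, rfl⟩)
  rw [mem_range] at ha
  exact Set.mem_Iic.2 (by simpa using Nat.lt_succ_iff.1 ha)

/-! ### The theorem -/

/-- The set of relations: polynomials which vanish at the lacunary series. -/
def Rel (lam : ℕ → ℕ) (β : ℕ → ι → F) (S : MvPolynomial ι (Polynomial F)) : Prop :=
  ∀ J n, n < lam J → (ev (part lam β (range J)) S).coeff n = 0

/-- The linear polynomial `∑ c_i x_i`. -/
noncomputable def lin (c : ι → Polynomial F) : MvPolynomial ι (Polynomial F) :=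
  ∑ i, MvPolynomial.C (c i) * MvPolynomial.X i

theorem ev_lin (lam : ℕ → ℕ) (β : ℕ → ι → F) (s : Finset ℕ) (c : ι → Polynomial F) :
    ev (part lam β s) (lin c) =
      ∑ j ∈ s, (∑ i, Polynomial.C (β j i) * c i) * Polynomial.X ^ lam j := by
  rw [lin, map_sum]
  have : ∀ i, ev (part lam β s) (MvPolynomial.C (c i) * MvPolynomial.X i) =
      ∑ j ∈ s, (Polynomial.C (β j i) * c i) * Polynomial.X ^ lam j := by
    intro i
    have h1 : ev (part lam β s) (MvPolynomial.C (c i) * MvPolynomial.X i) =
        c i * part lam β s i := by simp [ev]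
    rw [h1, part, Finset.mul_sum]
    refine Finset.sum_congr rfl fun j _ => ?_
    rw [← Polynomial.C_mul_X_pow_eq_monomial]
    ring
  rw [Finset.sum_congr rfl fun i _ => this i, Finset.sum_comm]
  refine Finset.sum_congr rfl fun j _ => ?_
  rw [Finset.sum_mul]

theorem evP_lin (g : ι → PowerSeries F) (c : ι → Polynomial F) :
    evP g (lin c) = ∑ i, (c i : PowerSeries F) * g i := by
  simp [evP, lin]

/-- A linear combination of the series which is not a polynomial has infinitely many
indices at which its coefficients do not vanish. -/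
theorem bad_infinite {lam : ℕ → ℕ} {r : ℕ} (h : Gap lam r) (β : ℕ → ι → F)
    (c : ι → Polynomial F) {D : ℕ} (hD : ∀ i, (c i).natDegree ≤ D)
    (hnp : ¬ ∃ p : Polynomial F, evP (ser lam β) (lin c) = p) :
    Set.Infinite {e | ∃ n, lam e ≤ n ∧ n ≤ lam e + D ∧
      PowerSeries.coeff n (evP (ser lam β) (lin c)) ≠ 0} := by
  intro hfin
  obtain ⟨M, hM⟩ := hfin.bddAbove
  apply hnp
  refine ⟨PowerSeries.trunc (lam M + D + 1) (evP (ser lam β) (lin c)), ?_⟩
  ext n
  rw [Polynomial.coeff_coe, PowerSeries.coeff_trunc]
  split_ifs with hn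
  · rfl
  · by_contra hne
    have hJ : n < lam (n + 1) := lt_of_lt_of_le (Nat.lt_succ_self n) (h.le (n + 1))
    have h1 := hne
    rw [coeff_evP h.mono β _ hJ, ev_lin, Polynomial.finsetSum_coeff] at h1
    obtain ⟨j, _, hj⟩ := Finset.exists_ne_zero_of_sum_ne_zero h1
    rw [Polynomial.coeff_mul_X_pow'] at hj
    split_ifs at hj with hjn
    · have h2 : n - lam j ≤ D := by
        refine (Polynomial.le_natDegree_of_ne_zero hj).trans ?_
        refine Polynomial.natDegree_sum_le_of_forall_le _ _ fun i _ => ?_
        exact (Polynomial.natDegree_C_mul_le _ _).trans (hD i)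
      have h3 : j ≤ M := hM ⟨n, hjn, by omega, hne⟩
      have h4 := h.mono.monotone h3
      omega
    · exact hj rfl

theorem indep [CharZero F] {lam : ℕ → ℕ} {r : ℕ} (h : Gap lam r) (β : ℕ → ι → F)
    (hlin : ∀ c : ι → Polynomial F, (∃ p : Polynomial F, evP (ser lam β) (lin c) = p) → c = 0) :
    ∀ (d : ℕ) (S : MvPolynomial ι (Polynomial F)), S.totalDegree ≤ d → Rel lam β S → S = 0 := by
  intro d
  induction d with
  | zero =>
    intro S hd hS
    rw [Nat.le_zero, MvPolynomial.totalDegree_eq_zero_iff_eq_C] at hd
    rw [hd]
    rw [hd] at hS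
    have h1 : ∀ J n, n < lam J → (S.coeff 0).coeff n = 0 := by
      intro J n hn
      have := hS J n hn
      simpa [ev] using this
    have h2 : S.coeff 0 = 0 := by
      ext n
      rw [Polynomial.coeff_zero]
      exact h1 (n + 1) n (lt_of_lt_of_le (Nat.lt_succ_self n) (h.le (n + 1)))
    rw [h2, map_zero]
  | succ d ih =>
    intro S hd hS
    -- it suffices that the coefficients of top degree vanish
    suffices htop : ∀ α : ι →₀ ℕ, α.degree = d + 1 → S.coeff α = 0 by
      refine ih S ?_ hS
      refine Finset.sup_le fun b hb => ?_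
      have h1 := MvPolynomial.le_totalDegree hb
      have h2 : b.degree ≤ d + 1 := h1.trans hd
      have h3 : b.degree ≠ d + 1 := fun h3 => (MvPolynomial.mem_support_iff.1 hb) (htop b h3)
      change b.degree ≤ d
      omega
    -- the linear forms
    let c : (ι →₀ ℕ) → ι → Polynomial F := fun α i =>
      S.coeff (α + Finsupp.single i 1) * ((α i : Polynomial F) + 1)
    set D := S.support.sup (fun α => (S.coeff α).natDegree) with hDdef
    have hD : ∀ α, (S.coeff α).natDegree ≤ D := by
      intro α
      by_cases hα : α ∈ S.support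
      · exact Finset.le_sup (f := fun α => (S.coeff α).natDegree) hα
      · rw [MvPolynomial.notMem_support_iff.1 hα]; simp
    have hcD : ∀ α i, (c α i).natDegree ≤ D := by
      intro α i
      refine Polynomial.natDegree_mul_le.trans ?_
      have h1 : ((α i : Polynomial F) + 1).natDegree = 0 := by
        rw [← Nat.cast_one, ← Nat.cast_add, Polynomial.natDegree_natCast]
      rw [h1, add_zero]
      exact hD _
    -- the corresponding linear combinations of the series are polynomials
    have hpoly : ∀ α : ι →₀ ℕ, α.degree = d →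
        ∃ p : Polynomial F, evP (ser lam β) (lin (c α)) = p := by
      intro α hαd
      by_contra hnp
      have hinf := bad_infinite h β (c α) (hcD α) hnp
      set E := {e | ∃ n, lam e ≤ n ∧ n ≤ lam e + D ∧
        PowerSeries.coeff n (evP (ser lam β) (lin (c α))) ≠ 0} with hE
      have : (Filter.cofinite ⊓ Filter.principal E).NeBot := hinf.cofinite_inf_principal_neBot
      set U := Ultrafilter.of (Filter.cofinite ⊓ Filter.principal E) with hU
      have hUle := Ultrafilter.of_le (Filter.cofinite ⊓ Filter.principal E)
      have hU1 : ∀ᶠ e in (U : Filter ℕ), e ∈ E :=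
        (hUle.trans inf_le_right) (Filter.mem_principal_self _)
      have hU2 : ∀ e0 : ℕ, ∀ᶠ e in (U : Filter ℕ), e0 ≤ e := by
        intro e0
        refine (hUle.trans inf_le_left) ?_
        rw [Nat.cofinite_eq_atTop]
        exact Filter.eventually_ge_atTop e0
      obtain ⟨K0, hK0, hK⟩ := rep_bound h U (d + 1) (fun e => (lam e : ℤ))
      lift K0 to ℕ using hK0
      set K := K0 + D with hKdef
      obtain ⟨L0, hL0⟩ := exists_bound (valSpace (ser lam β) (D + 2 * K) d)
      obtain ⟨H0, hH0⟩ := hK ((K + D + L0 : ℕ) : ℤ)
      set H := max H0 L0 with hH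
      have hev := ((hH0 H (le_max_left _ _)).and (hU2 (lam H + D + K + 1))).and hU1
      obtain ⟨e, ⟨hrep, hee1⟩, n, hn1, hn2, hne⟩ := hev.exists
      have hele := h.le e
      have hHe : H ≤ e := by have := h.le H; omega
      have hKe : K < lam e := by omega
      set J := lam e + L0 + D + 1 with hJ
      have hs : ∀ j ∈ Ico H J, H ≤ j := fun j hj => (mem_Ico.1 hj).1
      have hHJ : H ≤ J := by omega
      have hsum : (fun i => part lam β (range H) i + part lam β (Ico H J) i) =
          part lam β (range J) := by
        funext i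
        unfold part
        rw [Finset.sum_range_add_sum_Ico _ hHJ]
      set T := Win lam β (Ico H J) S (lam e) K with hT
      have hTdeg : T.totalDegree ≤ d := by
        refine Finset.sup_le fun b hb => ?_
        change b.degree ≤ d
        by_contra hlt
        push Not at hlt
        apply MvPolynomial.mem_support_iff.1 hb
        rw [hT, coeff_Win_top lam β _ hd hKe (by omega)]
        refine Finset.sum_eq_zero fun j _ => ?_
        rw [Finset.sum_eq_zero, mul_zero]
        intro i _
        have : S.coeff (b + Finsupp.single i 1) = 0 := by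
          by_contra hne
          have h1 := MvPolynomial.le_totalDegree (MvPolynomial.mem_support_iff.2 hne)
          have h2 : (b + Finsupp.single i 1).degree ≤ d + 1 := h1.trans hd
          rw [map_add, Finsupp.degree_single] at h2
          omega
        rw [this]; ring
      have hTD : ∀ γ, (T.coeff γ).natDegree ≤ D + 2 * K := fun γ =>
        natDegree_coeff_Win lam β (Ico H J) hD (lam e) K γ
      have hTval : evP (ser lam β) T = 0 := by
        refine hL0 _ (evP_mem _ hTD hTdeg) fun m hm => ?_
        have hmH : m < lam H := by have := h.le H; omega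
        rw [coeff_evP h.mono β T hmH, coeff_Win (K' := L0) hs hD hd hKe.le ?_ (by omega), hsum]
        · exact hS J _ (by have := h.le J; omega)
        · intro μ h1 h2
          have h3 := hrep μ h1 h2
          refine h3.trans ?_
          rw [hKdef]; push_cast; omega
      have hTrel : Rel lam β T := by
        intro J' m hm
        rw [← coeff_evP h.mono β T hm, hTval, map_zero]
      have hT0 := ih T hTdeg hTrel
      have h1 := coeff_Win_top lam β (Ico H J) hd hKe (α := α) (by omega)
      rw [← hT, hT0, MvPolynomial.coeff_zero] at h1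
      -- compare the coefficients
      apply hne
      have hnJ : n < lam J := by have := h.le J; omega
      rw [coeff_evP h.mono β _ hnJ, ev_lin, Polynomial.finsetSum_coeff]
      have h2 := congrArg (fun p => Polynomial.coeff p (n + K - lam e)) h1
      simp only [Polynomial.coeff_zero, Polynomial.finsetSum_coeff,
        Polynomial.coeff_X_pow_mul'] at h2
      have h3 : ∑ j ∈ range J, ((∑ i, Polynomial.C (β j i) * c α i) *
          Polynomial.X ^ lam j).coeff n =
          ∑ j ∈ Ico H J with lam j ∈ Icc (lam e - K) (lam e + K),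
            ((∑ i, Polynomial.C (β j i) * c α i) * Polynomial.X ^ lam j).coeff n := by
        symm
        refine Finset.sum_subset ?_ ?_
        · intro j hj
          have := mem_Ico.1 (mem_filter.1 hj).1
          rw [mem_range]; omega
        · intro j hj hj'
          rw [Polynomial.coeff_mul_X_pow']
          split_ifs with hjn
          · by_contra hne2
            have h4 : n - lam j ≤ D := by
              refine (Polynomial.le_natDegree_of_ne_zero hne2).trans ?_
              refine Polynomial.natDegree_sum_le_of_forall_le _ _ fun i _ => ?_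
              exact (Polynomial.natDegree_C_mul_le _ _).trans (hcD α i)
            apply hj'
            rw [mem_filter, mem_Ico, mem_Icc]
            refine ⟨⟨?_, mem_range.1 hj⟩, by omega, by omega⟩
            by_contra hlt
            push Not at hlt
            have := h.mono.monotone hlt.le
            omega
          · rfl
      rw [h3]
      refine Eq.trans (Finset.sum_congr rfl fun j hj => ?_) h2.symm
      have hj' := mem_Icc.1 (mem_filter.1 hj).2
      rw [Polynomial.coeff_mul_X_pow']
      by_cases hjn : lam j ≤ n
      · rw [if_pos hjn, if_pos (by omega), Polynomial.finsetSum_coeff]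
        refine Finset.sum_congr rfl fun b _ => ?_
        have h5 : n + K - lam e - (lam j + K - lam e) = n - lam j := by omega
        rw [h5]
      · rw [if_neg hjn, if_neg (by omega)]
    intro γ hγ
    have hne : γ ≠ 0 := by rintro rfl; simp at hγ
    obtain ⟨i, hi⟩ := Finsupp.support_nonempty_iff.2 hne
    have hle : Finsupp.single i 1 ≤ γ := by
      rw [Finsupp.single_le_iff]
      exact Nat.one_le_iff_ne_zero.2 (Finsupp.mem_support_iff.1 hi)
    obtain ⟨α, rfl⟩ : ∃ α, γ = α + Finsupp.single i 1 :=
      ⟨γ - Finsupp.single i 1, by rw [tsub_add_cancel_of_le hle]⟩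
    have hαd : α.degree = d := by
      rw [map_add, Finsupp.degree_single] at hγ
      omega
    have h2 := congrFun (hlin (c α) (hpoly α hαd)) i
    rcases mul_eq_zero.1 h2 with h3 | h3
    · exact h3
    · exfalso
      have : ((α i + 1 : ℕ) : Polynomial F) = 0 := by push_cast; exact h3
      rw [Nat.cast_eq_zero] at this
      omega

end Pool.Agent.TH600.LC
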