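import Pool.Agent.TH600.LC.FamP

/-!
# Dichotomy: families of rational curves, or a curve given by the coefficient functions
-/

set_option autoImplicit false

namespace Pool.Agent.TH600.LC

open Finset
open Pool.Agent.TH143.GT (Covered GenPt AllFlat)
open Pool.Agent.W602.GT (IsForm)

theorem ent_mul' {A F : ℂ → ℂ} (hA : Differentiable ℂ A) (hF : Differentiable ℂ F)
    (hA0 : ∃ z, A z ≠ 0) (h : ∀ z, A z ≠ 0 → F z = 0) : ∀ z, F z = 0 :=
  ent_mul hA hF (fun z => by
    by_cases hz : A z = 0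
    · rw [hz, zero_mul]
    · rw [h z hz, mul_zero]) hA0

theorem differentiable_coef {Y : Set (ℂ → ℂ)} (hY : ∀ u ∈ Y, Differentiable ℂ u) {u : ℂ → ℂ}
    (hu : u ∈ CoefRing Y) : Differentiable ℂ u := by
  refine differentiable_of_mem ?_ hu
  rintro v (rfl | hv)
  · exact differentiable_id
  · exact hY v hv

namespace Pfm

variable {Y : Set (ℂ → ℂ)} {n s m : ℕ} {h : ℂ → Fin n → ℂ} (D : Pfm Y h s m)

theorem exists_deg : ∃ d : ℕ, ∀ j, (D.Q j).totalDegree ≤ d :=
  ⟨Finset.univ.sup fun j => (D.Q j).totalDegree, fun j =>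
    Finset.le_sup (f := fun j => (D.Q j).totalDegree) (Finset.mem_univ j)⟩

include D in
theorem hd (j : Fin n) : Differentiable ℂ (fun z => h z j) := by
  have h1 : (fun z => h z j) = fun z => MvPolynomial.eval (Sum.elim (D.y z) (D.g z)) (D.Q j) :=
    funext fun z => D.fQ z j
  rw [h1]
  induction D.Q j using MvPolynomial.induction_on with
  | C c => simp
  | add p q hp hq =>
    simp only [map_add]
    exact hp.add hq
  | mul_X p i hp =>
    simp only [map_mul, MvPolynomial.eval_X]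
    refine hp.mul ?_
    rcases i with i | i
    · exact D.dy i
    · exact D.dg i

theorem exists_a : ∃ z, D.a.eval z ≠ 0 := poly_ne_zero_exists D.a0

theorem exists_ah (h0 : ∃ z, h z ≠ 0) : ∃ z, D.a.eval z ≠ 0 ∧ h z ≠ 0 := by
  by_contra hcon
  push Not at hcon
  obtain ⟨z, hz⟩ := h0
  apply hz
  funext j
  exact ent_mul' D.a.differentiable (D.hd j) D.exists_a (fun z hz => by rw [hcon z hz]; rfl) z

end Pfm

/-- **Dichotomy.** -/
theorem Pfm.dichotomy {Y : Set (ℂ → ℂ)} {n s m : ℕ} {h : ℂ → Fin (n + 1) → ℂ}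
    (D : Pfm Y h s m) (hY : ∀ u ∈ Y, Differentiable ℂ u) (h0 : ∃ z, h z ≠ 0)
    {K : Type} [Field K] [Algebra ℂ K] {w : ℕ} {y : Fin (n + 1) → K}
    (hy : GenPt h Set.univ K w y) :
    (Covered K ∧ ∃ r : K, ¬ AllFlat 1 y r) ∨
      ∃ u : ℂ → Fin (n + 1) → ℂ, (∀ j, (fun z => u z j) ∈ CoefRing Y) ∧ (∃ z, u z ≠ 0) ∧
        ∀ z j k, u z j * h z k = u z k * h z j := by
  obtain ⟨d, hdj⟩ := D.exists_deg
  by_cases hcase : ∃ z0 x0 x1 j k, D.a.eval z0 ≠ 0 ∧
      D.Ψ z0 x0 j * D.Ψ z0 x1 k ≠ D.Ψ z0 x1 j * D.Ψ z0 x0 k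
  · obtain ⟨z0, x0, x1, j, k, ha, hne⟩ := hcase
    left
    refine D.gd.main hy ?_ ?_ (z0 := z0) ?_ (x0 := x0) (x1 := x1) (j := j) (k := k) ?_
    · rintro G - hG z x hz
      rw [D.gd_a] at hz
      rw [D.gd_Ψ]
      exact D.rel_Ψ hG hz x
    · rintro G - hG
      refine ent_mul' D.a.differentiable (differentiable_eval D.hd G) D.exists_a fun z hz => ?_
      have h1 := hG z (D.g z) (by rwa [D.gd_a])
      rwa [D.gd_Ψ, D.Ψ_g hz] at h1
    · rwa [D.gd_a]
    · rwa [D.gd_Ψ, D.gd_Ψ]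
  · push Not at hcase
    right
    obtain ⟨z1, hz1, hh1⟩ := D.exists_ah h0
    set x1 : Fin m → ℂ := D.g z1 with hx1
    have hmem : ∀ j, D.UU d (fun l _ => x1 l) j ∈ CoefRing Y := fun j =>
      D.UU_mem d le_rfl (fun l => (CoefRing Y).algebraMap_mem (x1 l)) j
    refine ⟨fun z j => D.UU d (fun l _ => x1 l) j z, fun j => hmem j, ⟨z1, fun h2 => hh1 ?_⟩, ?_⟩
    · funext j
      have h3 : D.UU d (fun l _ => x1 l) j z1 = 0 := congrFun h2 j
      rw [D.UU_eval (hdj j) _ hz1] at h3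
      have h4 := (mul_eq_zero.1 h3).resolve_left (pow_ne_zero _ hz1)
      rw [show (fun l => x1 l) = D.g z1 from rfl, D.Ψ_g hz1] at h4
      exact h4
    · intro z j k
      have hdu : ∀ j, Differentiable ℂ (D.UU d (fun l _ => x1 l) j) := fun j =>
        differentiable_coef hY (hmem j)
      have h2 := ent_mul' (F := fun z => D.UU d (fun l _ => x1 l) j z * h z k -
          D.UU d (fun l _ => x1 l) k z * h z j) D.a.differentiable
        (((hdu j).mul (D.hd k)).sub ((hdu k).mul (D.hd j))) D.exists_a (fun z hz => by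
          rw [D.UU_eval (hdj j) _ hz, D.UU_eval (hdj k) _ hz]
          have h3 := hcase z x1 (D.g z) j k hz
          rw [D.Ψ_g hz] at h3
          linear_combination D.a.eval z ^ d * h3) z
      exact sub_eq_zero.1 h2

/-! ### Common factors -/

open Pool.Agent.TH143.GT in
/-- A curve and its multiples have the same closure. -/
theorem genPt_mul {n : ℕ} {f h : ℂ → Fin (n + 1) → ℂ} (hf : ∀ j, Differentiable ℂ (fun z => f z j))
    (hh : ∀ j, Differentiable ℂ (fun z => h z j)) {c : ℂ → ℂ} (hc : Differentiable ℂ c)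
    (hc0 : ∃ z, c z ≠ 0) (hfh : ∀ z j, h z j = c z * f z j) {K : Type} [Field K] [Algebra ℂ K]
    {w : ℕ} {y : Fin (n + 1) → K} (hy : GenPt f Set.univ K w y) : GenPt h Set.univ K w y := by
  refine ⟨hy.ne, hy.gen, hy.dim, fun G hG => (hy.rel G hG).trans ?_⟩
  obtain ⟨d, hd⟩ := hG
  have h1 : ∀ z, MvPolynomial.eval (h z) G = c z ^ d * MvPolynomial.eval (f z) G := by
    intro z
    rw [← LC.eval_smul_homog hd]
    congr 2
    funext j
    exact hfh z j
  constructor
  · intro h2 z hz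
    rw [h1, h2 z hz, mul_zero]
  · intro h2 z _
    refine ent_mul' hc (differentiable_eval hf G) hc0 (fun z hz => ?_) z
    have h3 := h2 z (Set.mem_univ z)
    rw [h1] at h3
    exact (mul_eq_zero.1 h3).resolve_left (pow_ne_zero _ hz)

end Pool.Agent.TH600.LC
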