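import Pool.Agent.TH600.LC.CFml

/-!
# Curves with coordinates in a ring generated by gap functions and coefficient functions
-/

set_option autoImplicit false

namespace Pool.Agent.TH600.LC

open Finset

/-- The ring generated by the functions in `Y` and the entire functions with Hadamard gaps
at `z₀`. -/
noncomputable def GapOver (Y : Set (ℂ → ℂ)) (z₀ : ℂ) : Subalgebra ℂ (ℂ → ℂ) :=
  Algebra.adjoin ℂ (Y ∪ {g | HadamardGaps z₀ g})

/-- Finitely many elements of a ring generated by functions. -/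
theorem exists_repr_set (𝒢 : Set (ℂ → ℂ)) {N : ℕ} {f : ℂ → Fin N → ℂ}
    (hf : ∀ j, (fun z => f z j) ∈ Algebra.adjoin ℂ 𝒢) :
    ∃ (m : ℕ) (g : ℂ → Fin m → ℂ) (Q : Fin N → MvPolynomial (Fin m) ℂ),
      (∀ i, (fun z => g z i) ∈ 𝒢) ∧ ∀ z j, f z j = MvPolynomial.eval (g z) (Q j) := by
  classical
  let G := {g : ℂ → ℂ // g ∈ 𝒢}
  have h1 : ∀ j, ∃ P : MvPolynomial G ℂ, MvPolynomial.aeval (fun g : G => g.1) P =
      fun z => f z j := by
    intro j
    have h2 := hf j
    rw [← Subtype.range_coe (s := 𝒢), Algebra.adjoin_range_eq_range_aeval] at h2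
    exact h2
  choose P hP using h1
  let T : Finset G := Finset.univ.biUnion fun j => (P j).vars
  have h3 : ∀ j, ∃ P' : MvPolynomial {x : G // x ∈ (T : Set G)} ℂ,
      MvPolynomial.rename (fun x : {x : G // x ∈ (T : Set G)} => x.1) P' = P j := by
    intro j
    have h4 : P j ∈ MvPolynomial.supported ℂ (T : Set G) := by
      rw [MvPolynomial.mem_supported]
      intro x hx
      exact Finset.mem_coe.2 (Finset.mem_biUnion.2 ⟨j, Finset.mem_univ _, hx⟩)
    rw [MvPolynomial.supported_eq_range_rename] at h4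
    exact h4
  choose P' hP' using h3
  let e : {x : G // x ∈ (T : Set G)} ≃ Fin T.card := T.equivFin
  refine ⟨T.card, fun z i => (e.symm i).1.1 z,
    fun j => MvPolynomial.rename e (P' j), fun i => (e.symm i).1.2, fun z j => ?_⟩
  have h5 := congrFun (hP j) z
  rw [← h5, ← hP' j, MvPolynomial.aeval_rename, MvPolynomial.eval_rename]
  have h6 : ∀ R : MvPolynomial {x : G // x ∈ (T : Set G)} ℂ,
      (MvPolynomial.aeval ((fun g : G => g.1) ∘ (fun x : {x : G // x ∈ (T : Set G)} => x.1)) R) z =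
        MvPolynomial.eval (fun x : {x : G // x ∈ (T : Set G)} => x.1.1 z) R := by
    intro R
    have h7 : (MvPolynomial.aeval ((fun g : G => g.1) ∘
        (fun x : {x : G // x ∈ (T : Set G)} => x.1)) R) z =
        (Pi.evalRingHom (fun _ : ℂ => ℂ) z)
          (MvPolynomial.aeval ((fun g : G => g.1) ∘
            (fun x : {x : G // x ∈ (T : Set G)} => x.1)) R) := rfl
    rw [h7, MvPolynomial.aeval_def, MvPolynomial.hom_eval₂]
    rfl
  rw [h6]
  congr 1
  congr 1
  funext x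
  simp

/-- The same, with the coefficient functions and the gap functions separated. -/
theorem exists_repr_pair (Y : Set (ℂ → ℂ)) {N : ℕ} {f : ℂ → Fin N → ℂ}
    (hf : ∀ j, (fun z => f z j) ∈ GapOver Y 0) :
    ∃ (s m : ℕ) (y : ℂ → Fin s → ℂ) (g : ℂ → Fin m → ℂ)
      (Q : Fin N → MvPolynomial (Fin s ⊕ Fin m) ℂ),
      (∀ i, (fun z => y z i) ∈ Y) ∧ (∀ i, HadamardGaps 0 (fun z => g z i)) ∧
      ∀ z j, f z j = MvPolynomial.eval (Sum.elim (y z) (g z)) (Q j) := by
  classical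
  obtain ⟨n, u, Q, hu, hQ⟩ := exists_repr_set _ hf
  let A := {i : Fin n // (fun z => u z i) ∈ Y}
  let B := {i : Fin n // ¬ (fun z => u z i) ∈ Y}
  let eA : A ≃ Fin (Fintype.card A) := Fintype.equivFin A
  let eB : B ≃ Fin (Fintype.card B) := Fintype.equivFin B
  let e : Fin n ≃ Fin (Fintype.card A) ⊕ Fin (Fintype.card B) :=
    (Equiv.sumCompl fun i : Fin n => (fun z => u z i) ∈ Y).symm.trans (Equiv.sumCongr eA eB)
  refine ⟨Fintype.card A, Fintype.card B, fun z i => u z (eA.symm i).1,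
    fun z i => u z (eB.symm i).1, fun j => MvPolynomial.rename e (Q j),
    fun i => (eA.symm i).2, fun i => (hu _).resolve_left (eB.symm i).2, fun z j => ?_⟩
  rw [hQ, MvPolynomial.eval_rename]
  congr 2
  funext i
  rw [Function.comp_apply]
  by_cases hi : (fun z => u z i) ∈ Y
  · have h1 : e i = Sum.inl (eA ⟨i, hi⟩) := by
      simp only [e, Equiv.trans_apply]
      rw [Equiv.sumCompl_symm_apply_of_pos (p := fun i : Fin n => (fun z => u z i) ∈ Y) hi]
      rfl
    rw [h1, Sum.elim_inl]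
    change u z i = u z (eA.symm (eA ⟨i, hi⟩)).1
    rw [Equiv.symm_apply_apply]
  · have h1 : e i = Sum.inr (eB ⟨i, hi⟩) := by
      simp only [e, Equiv.trans_apply]
      rw [Equiv.sumCompl_symm_apply_of_neg (p := fun i : Fin n => (fun z => u z i) ∈ Y) hi]
      rfl
    rw [h1, Sum.elim_inr]
    change u z i = u z (eB.symm (eB ⟨i, hi⟩)).1
    rw [Equiv.symm_apply_apply]

/-- The family attached to a curve with coordinates in the ring. -/
structure Pfm (Y : Set (ℂ → ℂ)) {N : ℕ} (f : ℂ → Fin N → ℂ) (s m : ℕ) where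
  /-- coefficient functions -/
  y : ℂ → Fin s → ℂ
  /-- functions with gaps -/
  g : ℂ → Fin m → ℂ
  /-- polynomials -/
  Q : Fin N → MvPolynomial (Fin s ⊕ Fin m) ℂ
  /-- denominator -/
  a : Polynomial ℂ
  /-- indices of a basis -/
  I : Finset (Fin m)
  /-- constant terms -/
  p : Fin m → Polynomial ℂ
  /-- coefficients -/
  b : Fin m → Fin m → Polynomial ℂ
  yY : ∀ i, (fun z => y z i) ∈ Y
  dy : ∀ i, Differentiable ℂ (fun z => y z i)
  dg : ∀ i, Differentiable ℂ (fun z => g z i)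
  fQ : ∀ z j, f z j = MvPolynomial.eval (Sum.elim (y z) (g z)) (Q j)
  a0 : a ≠ 0
  rel : ∀ z i, a.eval z * g z i = (p i).eval z + ∑ l ∈ I, (b i l).eval z * g z l
  zero : ∀ H : MvPolynomial (Fin s ⊕ Fin m) ℂ,
        (∀ z, MvPolynomial.eval (Sum.elim (y z) (g z)) H = 0) →
        ∀ (z : ℂ) (x : Fin m → ℂ), a.eval z ≠ 0 →
        MvPolynomial.eval (Sum.elim (y z)
          (fun i => ((p i).eval z + ∑ l ∈ I, (b i l).eval z * x l) / a.eval z)) H = 0

theorem exists_pfm {Y : Set (ℂ → ℂ)} (hY : ∀ u ∈ Y, Differentiable ℂ u ∧ DAlg u) {N : ℕ}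
    {f : ℂ → Fin N → ℂ} (hf : ∀ j, (fun z => f z j) ∈ GapOver Y 0) :
    ∃ s m, Nonempty (Pfm Y f s m) := by
  obtain ⟨s, m, y, g, Q, hy, hg, hQ⟩ := exists_repr_pair Y hf
  obtain ⟨a, I, p, b, ha, hrel, hz⟩ := structure_coef (fun i => (hY _ (hy i)).1)
    (fun i => (hY _ (hy i)).2) hg
  exact ⟨s, m, ⟨⟨y, g, Q, a, I, p, b, hy, fun i => (hY _ (hy i)).1, fun i => (hg i).1, hQ, ha,
    hrel, hz⟩⟩⟩

namespace Pfm

variable {Y : Set (ℂ → ℂ)} {N s m : ℕ} {f : ℂ → Fin N → ℂ} (D : Pfm Y f s m)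

/-- the point of the affine space with parameters `z, x` -/
noncomputable def Φ (z : ℂ) (x : Fin m → ℂ) (i : Fin m) : ℂ :=
  ((D.p i).eval z + ∑ l ∈ D.I, (D.b i l).eval z * x l) / D.a.eval z

/-- the point of the variety with parameters `z, x` -/
noncomputable def Ψ (z : ℂ) (x : Fin m → ℂ) (j : Fin N) : ℂ :=
  MvPolynomial.eval (Sum.elim (D.y z) (D.Φ z x)) (D.Q j)

theorem Φ_g {z : ℂ} (hz : D.a.eval z ≠ 0) : D.Φ z (D.g z) = D.g z := by
  funext i
  rw [Φ, ← D.rel z i, mul_div_cancel_left₀ _ hz]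

theorem Ψ_g {z : ℂ} (hz : D.a.eval z ≠ 0) : D.Ψ z (D.g z) = f z := by
  funext j
  rw [Ψ, D.Φ_g hz, D.fQ]

theorem rel_Ψ {G : MvPolynomial (Fin N) ℂ} (hG : ∀ z, MvPolynomial.eval (f z) G = 0) {z : ℂ}
    (hz : D.a.eval z ≠ 0) (x : Fin m → ℂ) : MvPolynomial.eval (D.Ψ z x) G = 0 := by
  have h1 : ∀ y : Fin s ⊕ Fin m → ℂ, MvPolynomial.eval y (MvPolynomial.bind₁ D.Q G) =
      MvPolynomial.eval (fun j => MvPolynomial.eval y (D.Q j)) G := by
    intro y
    rw [MvPolynomial.eval, MvPolynomial.eval₂Hom_bind₁]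
    rfl
  have h2 := D.zero (MvPolynomial.bind₁ D.Q G) (fun w => by
    rw [h1, ← hG w]
    congr 2
    funext j
    exact (D.fQ w j).symm) z x hz
  rw [h1] at h2
  exact h2

end Pfm

end Pool.Agent.TH600.LC
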