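import Pool.Agent.TH600.LC.Master
import Pool.Agent.TH600.LC.Exp

/-!
# Curves with coordinates in the ring generated by coefficient functions and gap functions have the
same Zariski closure as curves given by the coefficient functions and exponential functions
-/

set_option autoImplicit false

namespace Pool.Agent.TH600.LC

open Finset

namespace Gd

variable {C : Type} [CommRing C] [Algebra ℂ C] {N s m : ℕ} (E : Gd C N s m)

/-- evaluation of polynomials in the parameters -/
noncomputable def evX (z : ℂ) (x : Fin m → ℂ) : MvPolynomial (Fin m) C →+* ℂ :=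
  MvPolynomial.eval₂Hom (E.ev z) x

/-- The family, as polynomials in the parameters. -/
noncomputable def VV (d : ℕ) (j : Fin N) : MvPolynomial (Fin m) C :=
  hval d (MvPolynomial.C.comp (algebraMap ℂ C)) (MvPolynomial.C E.a)
    (Sum.elim (fun i => MvPolynomial.C (E.a * E.y i))
      (fun i => MvPolynomial.C (E.p i) +
        ∑ l ∈ E.I, MvPolynomial.C (E.b i l) * MvPolynomial.X l)) (E.Q j)

theorem evX_VV (d : ℕ) (j : Fin N) (z : ℂ) (x : Fin m → ℂ) :
    E.evX z x (E.VV d j) = hval d (RingHom.id ℂ) (E.ev z E.a)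
      (Sum.elim (fun i => E.ev z E.a * E.ev z (E.y i))
        (fun i => E.ev z (E.p i) + ∑ l ∈ E.I, E.ev z (E.b i l) * x l)) (E.Q j) := by
  have hC : ∀ c : C, E.evX z x (MvPolynomial.C c) = E.ev z c := by
    intro c
    simp [evX]
  have hX : ∀ l, E.evX z x (MvPolynomial.X l) = x l := by
    intro l
    simp [evX]
  rw [VV, map_hval]
  have e1 : (E.evX z x).comp (MvPolynomial.C.comp (algebraMap ℂ C)) = RingHom.id ℂ := by
    ext c
    change E.evX z x (MvPolynomial.C (algebraMap ℂ C c)) = c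
    rw [hC, E.ev_alg]
  have e3 : (fun i => E.evX z x ((Sum.elim (fun i => MvPolynomial.C (E.a * E.y i))
      (fun i => MvPolynomial.C (E.p i) +
        ∑ l ∈ E.I, MvPolynomial.C (E.b i l) * MvPolynomial.X l) :
          Fin s ⊕ Fin m → MvPolynomial (Fin m) C) i)) =
      Sum.elim (fun i => E.ev z E.a * E.ev z (E.y i))
        (fun i => E.ev z (E.p i) + ∑ l ∈ E.I, E.ev z (E.b i l) * x l) := by
    funext i
    rcases i with i | i
    · rw [Sum.elim_inl, Sum.elim_inl, hC, map_mul]
    · rw [Sum.elim_inr, Sum.elim_inr, map_add, hC, map_sum]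
      congr 1
      refine Finset.sum_congr rfl fun l _ => ?_
      rw [map_mul, hC, hX]
  rw [e1, e3, hC]

theorem evX_VV_ne {d : ℕ} {j : Fin N} (hd : (E.Q j).totalDegree ≤ d) {z : ℂ}
    (hz : E.ev z E.a ≠ 0) (x : Fin m → ℂ) :
    E.evX z x (E.VV d j) = E.ev z E.a ^ d * E.Ψ z x j := by
  rw [evX_VV]
  have e3 : (Sum.elim (fun i => E.ev z E.a * E.ev z (E.y i))
        (fun i => E.ev z (E.p i) + ∑ l ∈ E.I, E.ev z (E.b i l) * x l) : Fin s ⊕ Fin m → ℂ) =
      fun i => E.ev z E.a * Sum.elim (fun i => E.ev z (E.y i)) (E.Φ z x) i := by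
    funext i
    rcases i with i | i
    · rfl
    · rw [Sum.elim_inr, Sum.elim_inr, Φ, mul_div_cancel₀ _ hz]
  rw [e3, hval_mul _ _ _ hd, MvPolynomial.eval₂_id]
  rfl

theorem evX_aeval {n : ℕ} (z : ℂ) (x : Fin m → ℂ) (V : Fin n → MvPolynomial (Fin m) C)
    (G : MvPolynomial (Fin n) ℂ) :
    E.evX z x (MvPolynomial.aeval V G) = MvPolynomial.eval (fun j => E.evX z x (V j)) G := by
  rw [MvPolynomial.aeval_def, MvPolynomial.hom_eval₂]
  have h1 : (E.evX z x).comp (algebraMap ℂ (MvPolynomial (Fin m) C)) = RingHom.id ℂ := by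
    ext c
    have h2 : (algebraMap ℂ (MvPolynomial (Fin m) C)) c = MvPolynomial.C (algebraMap ℂ C c) := rfl
    rw [RingHom.comp_apply, h2]
    simp [evX, E.ev_alg]
  rw [h1]
  rfl

end Gd

namespace Pfm

variable {Y : Set (ℂ → ℂ)} {n s m : ℕ} {h : ℂ → Fin n → ℂ} (D : Pfm Y h s m)

theorem UU_all (d : ℕ) (x : Fin m → ℂ → ℂ) (j : Fin n) (z : ℂ) :
    D.gd.evX z (fun l => x l z) (D.gd.VV d j) = D.UU d x j z := by
  rw [Gd.evX_VV]
  have h0 : D.UU d x j z = (Pi.evalRingHom (fun _ : ℂ => ℂ) z) (D.UU d x j) := rfl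
  rw [h0, UU, map_hval]
  have e1 : (Pi.evalRingHom (fun _ : ℂ => ℂ) z).comp (algebraMap ℂ (ℂ → ℂ)) = RingHom.id ℂ := by
    ext c
    rfl
  have hcp : ∀ q : Polynomial ℂ, D.gd.ev z (D.cp q) = q.eval z := fun q => D.evC_cp z q
  have hcy : ∀ i, D.gd.ev z (D.gd.y i) = D.y z i := fun i => D.evC_cy z i
  have ha : D.gd.ev z D.gd.a = D.a.eval z := hcp _
  have hp : ∀ i, D.gd.ev z (D.gd.p i) = (D.p i).eval z := fun i => hcp _
  have hb : ∀ i l, D.gd.ev z (D.gd.b i l) = (D.b i l).eval z := fun i l => hcp _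
  have hI : D.gd.I = D.I := rfl
  have hQ : D.gd.Q j = D.Q j := rfl
  rw [e1, ha, hI, hQ]
  congr 1
  funext i
  rcases i with i | i
  · rw [Sum.elim_inl, Sum.elim_inl, hcy]
    rfl
  · rw [Sum.elim_inr, Sum.elim_inr, hp]
    simp only [Pi.evalRingHom_apply, Pi.add_apply, Finset.sum_apply, Pi.mul_apply, hb]

theorem hd_UU (hY : ∀ u ∈ Y, Differentiable ℂ u) (d : ℕ) {x : Fin m → ℂ → ℂ}
    (hx : ∀ l, Differentiable ℂ (x l)) (j : Fin n) : Differentiable ℂ (D.UU d x j) := by
  let S : Subalgebra ℂ (ℂ → ℂ) :=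
    { carrier := {f | Differentiable ℂ f}
      mul_mem' := fun h1 h2 => h1.mul h2
      add_mem' := fun h1 h2 => h1.add h2
      algebraMap_mem' := fun c => differentiable_const c }
  have h1 : D.UU d x j ∈ S := by
    refine D.UU_mem d (fun u hu => ?_) (fun l => hx l) j
    exact differentiable_coef hY hu
  exact h1

/-- **Reduction.** The curve has the same Zariski closure as a curve given by the coefficient
functions and exponential functions. -/
theorem reduce (hY : ∀ u ∈ Y, Differentiable ℂ u) {d : ℕ}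
    (hd : ∀ j, (D.Q j).totalDegree ≤ d) :
    ∃ lam : Fin m → ℂ, ∀ G : MvPolynomial (Fin n) ℂ, (∃ e, G.IsHomogeneous e) →
      ((∀ z, MvPolynomial.eval (h z) G = 0) ↔
        ∀ z, MvPolynomial.eval (fun j => D.UU d (fun l => ef (lam l)) j z) G = 0) := by
  classical
  obtain ⟨ι, hι, lam, hlam⟩ := exists_lam
  let T : Set (EE ℂ) := emb ℂ '' (insert ((Polynomial.X : Polynomial ℂ) : PowerSeries ℂ)
    (Set.range (tser D.y)))
  have hT : T.Finite := ((Set.finite_range _).insert _).image _
  have halg : ∀ c : D.CR, algebraMap D.CR (EE ℂ) c = emb ℂ (c : PowerSeries ℂ) := fun c => rfl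
  have hinj : Function.Injective (algebraMap D.CR (EE ℂ)) := by
    intro c c' hcc
    rw [halg, halg] at hcc
    exact Subtype.ext (emb_injective hcc)
  have : FaithfulSMul D.CR (EE ℂ) := (faithfulSMul_iff_algebraMap_injective _ _).2 hinj
  have hC : ∀ c : D.CR, algebraMap D.CR (EE ℂ) c ∈ clo ℂ T := by
    intro c
    rw [halg]
    have h1 : ∀ u ∈ D.CR, emb ℂ u ∈ clo ℂ T := by
      intro u hu
      induction hu using Algebra.adjoin_induction with
      | mem u hu => exact subset_clo _ ⟨u, hu, rfl⟩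
      | algebraMap c => exact (clo ℂ T).algebraMap_mem c
      | add u v _ _ h1 h2 =>
        rw [map_add]
        exact (clo ℂ T).add_mem h1 h2
      | mul u v _ _ h1 h2 =>
        rw [map_mul]
        exact (clo ℂ T).mul_mem h1 h2
    exact h1 c c.2
  obtain ⟨σ, hσ⟩ := exists_indep (C := D.CR) (algInd_eE hlam) hT hC m
  refine ⟨fun l => lam (σ l), ?_⟩
  set g : ℂ → Fin m → ℂ := fun z l => ef (lam (σ l)) z with hg
  have hgd : ∀ l, Differentiable ℂ (fun z => g z l) := fun l => differentiable_ef _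
  let φ : MvPolynomial (Fin m) D.CR →+* EntSub :=
    MvPolynomial.eval₂Hom (Subalgebra.inclusion D.CR_le : D.CR →+* EntSub)
      (fun l => (⟨tser g l, ent_tser (hgd l)⟩ : EntSub))
  have hφ1 : ∀ z H, evS EntSub le_rfl z (φ H) = D.gd.evX z (g z) H := by
    intro z H
    have h1 : (evS EntSub le_rfl z).comp φ = D.gd.evX z (g z) := by
      apply MvPolynomial.ringHom_ext
      · intro c
        rw [RingHom.comp_apply]
        have e1 : φ (MvPolynomial.C c) = Subalgebra.inclusion D.CR_le c := by simp [φ]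
        have e2 : D.gd.evX z (g z) (MvPolynomial.C c) = D.gd.ev z c := by simp [Gd.evX]
        rw [e1, e2]
        rfl
      · intro l
        rw [RingHom.comp_apply]
        have e1 : φ (MvPolynomial.X l) = ⟨tser g l, ent_tser (hgd l)⟩ := by simp [φ]
        have e2 : D.gd.evX z (g z) (MvPolynomial.X l) = g z l := by simp [Gd.evX]
        rw [e1, e2]
        exact ev_tser (hgd l) z
    rw [← h1]
    rfl
  have hφ2 : ∀ H, emb ℂ ((φ H : EntSub) : PowerSeries ℂ) =
      MvPolynomial.aeval (fun l => eE (lam (σ l))) H := by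
    intro H
    have h1 : ((emb ℂ).comp (EntSub.val : EntSub →+* PowerSeries ℂ)).comp φ =
        (MvPolynomial.aeval (R := D.CR) (fun l => eE (lam (σ l))) :
          MvPolynomial (Fin m) D.CR →+* EE ℂ) := by
      apply MvPolynomial.ringHom_ext
      · intro c
        rw [RingHom.comp_apply]
        have e1 : φ (MvPolynomial.C c) = Subalgebra.inclusion D.CR_le c := by simp [φ]
        rw [e1]
        have e2 : ((MvPolynomial.aeval (R := D.CR) (fun l => eE (lam (σ l))) :
          MvPolynomial (Fin m) D.CR →+* EE ℂ)) (MvPolynomial.C c) = algebraMap D.CR (EE ℂ) c :=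
          MvPolynomial.aeval_C _ c
        rw [e2]
        rfl
      · intro l
        rw [RingHom.comp_apply]
        have e1 : φ (MvPolynomial.X l) = ⟨tser g l, ent_tser (hgd l)⟩ := by simp [φ]
        rw [e1]
        have e2 : ((MvPolynomial.aeval (R := D.CR) (fun l => eE (lam (σ l))) :
          MvPolynomial (Fin m) D.CR →+* EE ℂ)) (MvPolynomial.X l) = eE (lam (σ l)) :=
          MvPolynomial.aeval_X _ l
        rw [e2]
        rfl
    exact DFunLike.congr_fun h1 H
  rintro G ⟨e, hG⟩
  constructor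
  · intro h1
    refine ent_mul' D.a.differentiable (differentiable_eval (fun j =>
      D.hd_UU hY d (fun l => differentiable_ef _) j) G) D.exists_a fun z hz => ?_
    have h2 : (fun j => D.UU d (fun l => ef (lam (σ l))) j z) =
        fun j => D.a.eval z ^ d * D.Ψ z (fun l => ef (lam (σ l)) z) j :=
      funext fun j => D.UU_eval (hd j) _ hz
    rw [h2, LC.eval_smul_homog hG, D.rel_Ψ h1 hz, mul_zero]
  · intro h1
    set H : MvPolynomial (Fin m) D.CR := MvPolynomial.aeval (D.gd.VV d) G with hH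
    have h2 : φ H = 0 := by
      apply Subtype.ext
      refine H458.EC.eq_zero_of_ev (φ H).2 fun z => ?_
      change evS EntSub le_rfl z (φ H) = 0
      rw [hφ1, hH, Gd.evX_aeval, ← h1 z]
      congr 2
      funext j
      exact D.UU_all d (fun l => ef (lam (σ l))) j z
    have h3 : H = 0 := by
      refine (algebraicIndependent_iff.1 hσ) H ?_
      rw [← hφ2, h2]
      exact map_zero _
    refine ent_mul' D.a.differentiable (differentiable_eval D.hd G) D.exists_a fun z hz => ?_
    have h4 : D.gd.evX z (D.g z) H = 0 := by rw [h3, map_zero]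
    have hz' : D.gd.ev z D.gd.a ≠ 0 := by rwa [D.gd_a]
    rw [hH, Gd.evX_aeval] at h4
    have h5 : (fun j => D.gd.evX z (D.g z) (D.gd.VV d j)) =
        fun j => D.a.eval z ^ d * h z j := by
      funext j
      rw [D.gd.evX_VV_ne (hd j) hz', D.gd_a, D.gd_Ψ, D.Ψ_g hz]
    rw [h5, LC.eval_smul_homog hG] at h4
    exact (mul_eq_zero.1 h4).resolve_left (pow_ne_zero _ (pow_ne_zero _ hz))

end Pfm

/-- **Reduction to curves given by linear differential equations.** Let `Y` consist of entire
functions with linear differential equations. A curve with coordinates in the ring generated by `Y`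
and the entire functions with Hadamard gaps has the same Zariski closure as a curve whose coordinates
satisfy linear differential equations. -/
theorem exists_dfin {Y : Set (ℂ → ℂ)} (hY : Y ⊆ DFin) {n : ℕ} {h : ℂ → Fin n → ℂ}
    (hh : ∀ j, (fun z => h z j) ∈ GapOver Y 0) :
    ∃ u : ℂ → Fin n → ℂ, (∀ j, (fun z => u z j) ∈ DFin) ∧
      ∀ G : MvPolynomial (Fin n) ℂ, (∃ e, G.IsHomogeneous e) →
        ((∀ z, MvPolynomial.eval (h z) G = 0) ↔ ∀ z, MvPolynomial.eval (u z) G = 0) := by
  obtain ⟨s, m, ⟨D⟩⟩ := exists_pfm (fun u hu => ⟨(hY hu).1, dAlg_of_polODE (hY hu).2⟩) hh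
  obtain ⟨d, hd⟩ := D.exists_deg
  obtain ⟨lam, hlam⟩ := D.reduce (fun u hu => (hY hu).1) hd
  refine ⟨fun z j => D.UU d (fun l => ef (lam l)) j z, fun j => ?_, hlam⟩
  refine D.UU_mem d ?_ (fun l => exp_mem_dfin (lam l)) j
  refine Algebra.adjoin_le ?_
  rintro u (rfl | hu)
  · exact id_mem_dfin
  · exact hY hu

end Pool.Agent.TH600.LC
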