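import Mathlib

/-!
# Sums of few elements of a finite union of Hadamard-lacunary sequences

`lam` is a strictly increasing sequence of natural numbers with `2 * lam j ≤ lam (j+r)`.  For a
multiset `C` of indices (a finitely supported function), `wt lam C` is the sum of the `lam k`, `k ∈ C`.

`rep_bound`: let `U` be an ultrafilter on `ℕ` and `τ : ℕ → ℤ` any sequence of targets.  There is
a constant `K` such that for every `B`, every sufficiently large `H` and `U`-almost all `e`: every
multiset `C` of at most `d` indices with `|wt C - τ e| ≤ B` has `|wt C' - τ e| ≤ K` for the part `C'`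
of `C` consisting of the indices `≥ H`.
-/

namespace Pool.Agent.TH600.LC

open Finset

/-- At most `r` terms in each dyadic interval. -/
structure Gap (lam : ℕ → ℕ) (r : ℕ) : Prop where
  mono : StrictMono lam
  gap : ∀ j, 2 * lam j ≤ lam (j + r)

/-- The sum of the `lam k`, `k ∈ C`. -/
noncomputable def wt (lam : ℕ → ℕ) : (ℕ →₀ ℕ) →+ ℕ := Finsupp.weight lam

theorem wt_single (lam : ℕ → ℕ) (k : ℕ) : wt lam (Finsupp.single k 1) = lam k := by
  simp [wt, Finsupp.weight_single]

theorem le_wt (lam : ℕ → ℕ) {C : ℕ →₀ ℕ} {k : ℕ} (hk : k ∈ C.support) : lam k ≤ wt lam C :=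
  Finsupp.le_weight_of_ne_zero' lam (Finsupp.mem_support_iff.1 hk)

theorem Gap.le {lam : ℕ → ℕ} {r : ℕ} (h : Gap lam r) (j : ℕ) : j ≤ lam j := h.mono.id_le j

theorem Gap.pow_le {lam : ℕ → ℕ} {r : ℕ} (h : Gap lam r) (j i : ℕ) :
    2 ^ i * lam j ≤ lam (j + r * i) := by
  induction i with
  | zero => simp
  | succ i ih =>
    have h1 := h.gap (j + r * i)
    calc 2 ^ (i + 1) * lam j = 2 * (2 ^ i * lam j) := by ring
      _ ≤ 2 * lam (j + r * i) := Nat.mul_le_mul_left _ ih
      _ ≤ lam (j + r * i + r) := h1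
      _ = lam (j + r * (i + 1)) := by congr 1; ring

/-- `wt C ≤ |C| * lam k` if all elements of `C` are at most `k`. -/
theorem wt_le {lam : ℕ → ℕ} (hm : StrictMono lam) {C : ℕ →₀ ℕ} {k : ℕ}
    (hk : ∀ j ∈ C.support, j ≤ k) : wt lam C ≤ C.degree * lam k := by
  unfold wt
  rw [Finsupp.weight_apply, Finsupp.degree_apply, Finsupp.sum, Finset.sum_mul]
  refine Finset.sum_le_sum fun j hj => ?_
  rw [smul_eq_mul]
  exact Nat.mul_le_mul_left _ (hm.monotone (hk j hj))

theorem filter_eq_zero {C : ℕ →₀ ℕ} {H : ℕ} (h : ∀ k ∈ C.support, k < H) :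
    C.filter (fun k => H ≤ k) = 0 := by
  ext k
  by_cases hk : H ≤ k
  · rw [Finsupp.filter_apply_pos _ _ hk]
    by_contra hne
    exact absurd (h k (Finsupp.mem_support_iff.2 hne)) (by omega)
  · rw [Finsupp.filter_apply_neg _ _ hk]; rfl

theorem rep_bound {lam : ℕ → ℕ} {r : ℕ} (h : Gap lam r) (U : Ultrafilter ℕ) (d : ℕ) :
    ∀ τ : ℕ → ℤ, ∃ K : ℤ, 0 ≤ K ∧ ∀ B : ℤ, ∃ H0 : ℕ, ∀ H : ℕ, H0 ≤ H →
      ∀ᶠ e in (U : Filter ℕ), ∀ C : ℕ →₀ ℕ, C.degree ≤ d → |(wt lam C : ℤ) - τ e| ≤ B →
        |(wt lam (C.filter (fun k => H ≤ k)) : ℤ) - τ e| ≤ K := by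
  induction d with
  | zero =>
    intro τ
    by_cases hb : ∃ K0 : ℤ, ∀ᶠ e in (U : Filter ℕ), |τ e| ≤ K0
    · obtain ⟨K0, hK0⟩ := hb
      refine ⟨max K0 0, le_max_right _ _, fun B => ⟨0, fun H _ => ?_⟩⟩
      filter_upwards [hK0] with e he C hC _
      have : C = 0 := (Finsupp.degree_eq_zero_iff C).1 (Nat.le_zero.1 hC)
      subst this
      simp only [Finsupp.filter_zero, map_zero, Nat.cast_zero, zero_sub, abs_neg]
      exact le_max_of_le_left he
    · push Not at hb
      refine ⟨0, le_rfl, fun B => ⟨0, fun H _ => ?_⟩⟩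
      filter_upwards [hb B] with e he C hC hCB
      have : C = 0 := (Finsupp.degree_eq_zero_iff C).1 (Nat.le_zero.1 hC)
      subst this
      simp only [map_zero, Nat.cast_zero, zero_sub, abs_neg] at hCB
      exact absurd hCB (not_le.2 he)
  | succ d ih =>
    intro τ
    by_cases hb : ∃ K0 : ℤ, ∀ᶠ e in (U : Filter ℕ), |τ e| ≤ K0
    · obtain ⟨K0, hK0⟩ := hb
      refine ⟨max K0 0, le_max_right _ _, fun B => ⟨(B + K0).toNat + 1, fun H hH => ?_⟩⟩
      filter_upwards [hK0] with e he C hC hCB
      have hz : C.filter (fun k => H ≤ k) = 0 := by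
        refine filter_eq_zero fun k hk => ?_
        have h1 := le_wt lam hk
        have h2 := h.le k
        have h3 := (abs_le.1 hCB).2
        have h4 := (abs_le.1 he).2
        omega
      rw [hz]
      simp only [map_zero, Nat.cast_zero, zero_sub, abs_neg]
      exact le_max_of_le_left he
    · push Not at hb
      -- the targets are unbounded
      have hunb : ∀ K0 : ℤ, ∀ᶠ e in (U : Filter ℕ), K0 < |τ e| := hb
      have hex : ∀ e, ∃ k : ℕ, τ e ≤ 2 * (d + 1) * (lam k : ℤ) := by
        intro e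
        refine ⟨(τ e).toNat, ?_⟩
        have h1 := h.le (τ e).toNat
        have h2 : τ e ≤ (τ e).toNat := Int.self_le_toNat _
        have h3 : ((τ e).toNat : ℤ) ≤ (lam (τ e).toNat : ℤ) := by exact_mod_cast h1
        have h4 : (0 : ℤ) ≤ (lam (τ e).toNat : ℤ) := by positivity
        have h5 : (0 : ℤ) ≤ (d : ℤ) * (lam (τ e).toNat : ℤ) := by positivity
        nlinarith
      classical
      let κ : ℕ → ℕ := fun e => Nat.find (hex e)
      have hκ : ∀ e, τ e ≤ 2 * (d + 1) * (lam (κ e) : ℤ) := fun e => Nat.find_spec (hex e)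
      have hκ' : ∀ e k, τ e ≤ 2 * (d + 1) * (lam k : ℤ) → κ e ≤ k :=
        fun e k hk => Nat.find_min' (hex e) hk
      obtain ⟨M, hM⟩ : ∃ M : ℕ, 4 * (d + 1) < 2 ^ M :=
        ⟨4 * (d + 1), Nat.lt_two_pow_self⟩
      set N := r * M with hNdef
      choose K hK0 hK using fun i : ℕ => ih (fun e => τ e - lam (κ e + i))
      refine ⟨∑ i ∈ range N, K i, Finset.sum_nonneg fun i _ => hK0 i, fun B => ?_⟩
      choose H0 hH0 using fun i : ℕ => hK i B
      refine ⟨∑ i ∈ range N, H0 i, fun H hH => ?_⟩
      have hall : ∀ᶠ e in (U : Filter ℕ), ∀ i ∈ range N, ∀ C : ℕ →₀ ℕ, C.degree ≤ d →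
          |(wt lam C : ℤ) - (τ e - lam (κ e + i))| ≤ B →
          |(wt lam (C.filter (fun k => H ≤ k)) : ℤ) - (τ e - lam (κ e + i))| ≤ K i := by
        rw [Filter.eventually_all_finset]
        intro i hi
        exact hH0 i H (le_trans (Finset.single_le_sum (f := H0) (fun _ _ => Nat.zero_le _) hi) hH)
      filter_upwards [hall, hunb (2 * |B| + 2 * (d + 1) * (lam H : ℤ))] with e he hlarge C hC hCB
      have hBabs : B ≤ |B| := le_abs_self B
      have hB0 : 0 ≤ |B| := abs_nonneg B
      have hlamH : (0 : ℤ) ≤ 2 * (d + 1) * (lam H : ℤ) := by positivity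
      have hw0 : (0 : ℤ) ≤ (wt lam C : ℤ) := by positivity
      have hτ : 2 * |B| + 2 * (d + 1) * (lam H : ℤ) < τ e := by
        rcases le_or_gt 0 (τ e) with hs | hs
        · rwa [abs_of_nonneg hs] at hlarge
        · exfalso
          rw [abs_of_neg hs] at hlarge
          have h3 := (abs_le.1 hCB).2
          linarith
      have h3 := abs_le.1 hCB
      have hwpos : 0 < wt lam C := by
        have : (0 : ℤ) < (wt lam C : ℤ) := by linarith [h3.1]
        exact_mod_cast this
      have hC0 : C ≠ 0 := by rintro rfl; simp at hwpos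
      have hne : C.support.Nonempty := Finsupp.support_nonempty_iff.2 hC0
      obtain ⟨k, hkmem, hkmax⟩ : ∃ k ∈ C.support, ∀ j ∈ C.support, j ≤ k :=
        ⟨C.support.max' hne, Finset.max'_mem _ _, fun j hj => Finset.le_max' _ _ hj⟩
      have h4 : wt lam C ≤ (d + 1) * lam k :=
        (wt_le h.mono hkmax).trans (Nat.mul_le_mul_right _ hC)
      have h4' : (wt lam C : ℤ) ≤ (d + 1) * (lam k : ℤ) := by exact_mod_cast h4
      have h5 : (lam k : ℤ) ≤ (wt lam C : ℤ) := by exact_mod_cast le_wt lam hkmem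
      have hκk : κ e ≤ k := hκ' e k (by nlinarith [h3.1])
      have hHk : H ≤ k := by
        by_contra hlt
        push Not at hlt
        have h6 : lam k ≤ lam H := h.mono.monotone hlt.le
        have h6' : (lam k : ℤ) ≤ (lam H : ℤ) := by exact_mod_cast h6
        have h7 : ((d : ℤ) + 1) * (lam k : ℤ) ≤ (d + 1) * (lam H : ℤ) :=
          mul_le_mul_of_nonneg_left h6' (by positivity)
        nlinarith [h3.1]
      have hkN : k < κ e + N := by
        by_contra hge
        push Not at hge
        have h6 : lam (κ e + N) ≤ lam k := h.mono.monotone hge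
        have h7 := h.pow_le (κ e) M
        have h9 : (lam k : ℤ) ≤ 2 * τ e := by linarith [h3.2]
        have hκe := hκ e
        have hτpos : (0 : ℤ) < τ e := by linarith
        have hκpos : (0 : ℤ) < (lam (κ e) : ℤ) := by
          by_contra hle
          push Not at hle
          have : 2 * ((d : ℤ) + 1) * (lam (κ e) : ℤ) ≤ 0 :=
            mul_nonpos_of_nonneg_of_nonpos (by positivity) hle
          linarith
        have h10 : ((2 : ℤ) ^ M) * lam (κ e) ≤ lam k := by
          have : 2 ^ M * lam (κ e) ≤ lam k := h7.trans h6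
          exact_mod_cast this
        have hM' : 4 * ((d : ℤ) + 1) < 2 ^ M := by exact_mod_cast hM
        have h11 : 4 * ((d : ℤ) + 1) * lam (κ e) < 2 ^ M * lam (κ e) :=
          mul_lt_mul_of_pos_right hM' hκpos
        nlinarith
      obtain ⟨i, rfl⟩ := Nat.exists_eq_add_of_le hκk
      have hiN : i ∈ range N := by rw [mem_range]; omega
      -- split off the top element
      set k := κ e + i with hkdef
      have hle : Finsupp.single k 1 ≤ C := by
        rw [Finsupp.single_le_iff]
        exact Nat.one_le_iff_ne_zero.2 (Finsupp.mem_support_iff.1 hkmem)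
      obtain ⟨C', rfl⟩ : ∃ C', C = Finsupp.single k 1 + C' := ⟨C - Finsupp.single k 1, by
        rw [add_comm, tsub_add_cancel_of_le hle]⟩
      have hdeg : C'.degree ≤ d := by
        rw [map_add, Finsupp.degree_single] at hC
        omega
      have hw : wt lam (Finsupp.single k 1 + C') = lam k + wt lam C' := by
        rw [map_add, wt_single]
      have hf : wt lam ((Finsupp.single k 1 + C').filter (fun k => H ≤ k)) =
          lam k + wt lam (C'.filter (fun k => H ≤ k)) := by
        rw [Finsupp.filter_add, map_add, Finsupp.filter_single_of_pos _ hHk, wt_single]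
      have h6 := he i hiN C' hdeg (by
        rw [hw] at hCB
        push_cast at hCB
        rw [show (wt lam C' : ℤ) - (τ e - lam k) = (lam k : ℤ) + wt lam C' - τ e by ring]
        exact hCB)
      rw [hf]
      push_cast
      rw [show (lam k : ℤ) + wt lam (C'.filter (fun k => H ≤ k)) - τ e =
        wt lam (C'.filter (fun k => H ≤ k)) - (τ e - lam k) by ring]
      exact h6.trans (Finset.single_le_sum (f := K) (fun i _ => hK0 i) hiN)

end Pool.Agent.TH600.LC
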