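import Pool.Agent.TH600.LC.Indep

/-!
# Sparse sets of exponents

A set of natural numbers is sparse if the number of its elements in the dyadic intervals `[M, 2M)`
is bounded.  These are the finite unions of sequences with Hadamard gaps.
-/

namespace Pool.Agent.TH600.LC

open Finset

set_option linter.unusedSectionVars false

/-- At most `r` elements in each interval `[M, 2M)`. -/
def Sparse (A : Set ℕ) : Prop := ∃ r : ℕ, ∀ M : ℕ, 1 ≤ M → (A ∩ Set.Ico M (2 * M)).ncard ≤ r

theorem Sparse.mono {A B : Set ℕ} (hB : Sparse B) (h : A ⊆ B) : Sparse A := by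
  obtain ⟨r, hr⟩ := hB
  refine ⟨r, fun M hM => le_trans ?_ (hr M hM)⟩
  exact Set.ncard_le_ncard (Set.inter_subset_inter_left _ h)
    ((Set.finite_Ico _ _).subset Set.inter_subset_right)

theorem Sparse.union {A B : Set ℕ} (hA : Sparse A) (hB : Sparse B) : Sparse (A ∪ B) := by
  obtain ⟨r, hr⟩ := hA
  obtain ⟨s, hs⟩ := hB
  refine ⟨r + s, fun M hM => ?_⟩
  rw [Set.union_inter_distrib_right]
  exact (Set.ncard_union_le _ _).trans (add_le_add (hr M hM) (hs M hM))

theorem sparse_empty : Sparse ∅ := ⟨0, fun M _ => by simp⟩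

theorem sparse_iUnion {κ : Type*} (s : Finset κ) (A : κ → Set ℕ) (h : ∀ i ∈ s, Sparse (A i)) :
    Sparse (⋃ i ∈ s, A i) := by
  classical
  induction s using Finset.induction_on with
  | empty => simpa using sparse_empty
  | insert a s ha ih =>
    rw [Finset.set_biUnion_insert]
    exact (h a (Finset.mem_insert_self _ _)).union
      (ih fun i hi => h i (Finset.mem_insert_of_mem hi))

/-- Hadamard gaps: `q * m j ≤ m (j+1)` with `q > 1`. -/
theorem sparse_of_gaps {m : ℕ → ℕ} {q : ℝ} (hq : 1 < q) (hm : ∀ j, q * m j ≤ m (j + 1)) :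
    Sparse (Set.range m) := by
  obtain ⟨r, hr⟩ := pow_unbounded_of_one_lt (2 : ℝ) hq
  have hpow : ∀ j i, q ^ i * m j ≤ m (j + i) := by
    intro j i
    induction i with
    | zero => simp
    | succ i ih =>
      have h1 := hm (j + i)
      have hq0 : 0 ≤ q := by linarith
      calc q ^ (i + 1) * m j = q * (q ^ i * m j) := by ring
        _ ≤ q * m (j + i) := mul_le_mul_of_nonneg_left ih hq0
        _ ≤ m (j + i + 1) := h1
  have hmono : Monotone m := by
    apply monotone_nat_of_le_succ
    intro j
    have h1 := hm j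
    have h2 : (m j : ℝ) ≤ q * m j := le_mul_of_one_le_left (by positivity) hq.le
    exact_mod_cast h2.trans h1
  refine ⟨r, fun M hM => ?_⟩
  by_cases hne : ∃ j, M ≤ m j ∧ m j < 2 * M
  · classical
    obtain ⟨j0, hj0, hj0'⟩ : ∃ j, (M ≤ m j ∧ m j < 2 * M) ∧ ∀ i < j, ¬ (M ≤ m i ∧ m i < 2 * M) :=
      ⟨Nat.find hne, Nat.find_spec hne, fun i hi => Nat.find_min hne hi⟩
    have hsub : Set.range m ∩ Set.Ico M (2 * M) ⊆ ((range r).image fun i => m (j0 + i) : Finset ℕ) := by
      rintro _ ⟨⟨j, rfl⟩, hj⟩
      rw [Set.mem_Ico] at hj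
      have h1 : j0 ≤ j := by
        by_contra hlt
        exact hj0' j (not_le.1 hlt) hj
      obtain ⟨i, rfl⟩ := Nat.exists_eq_add_of_le h1
      rw [Finset.coe_image]
      refine ⟨i, ?_, rfl⟩
      rw [Finset.mem_coe, mem_range]
      by_contra hge
      push Not at hge
      have h2 := hpow j0 r
      have h3 : m (j0 + r) ≤ m (j0 + i) := hmono (by omega)
      have h4 : (M : ℝ) ≤ m j0 := by exact_mod_cast hj0.1
      have h5 : (m (j0 + i) : ℝ) < 2 * M := by exact_mod_cast hj.2
      have h6 : (m (j0 + r) : ℝ) ≤ m (j0 + i) := by exact_mod_cast h3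
      have h7 : (0 : ℝ) < M := by exact_mod_cast hM
      nlinarith
    calc (Set.range m ∩ Set.Ico M (2 * M)).ncard
        ≤ ((((range r).image fun i => m (j0 + i) : Finset ℕ)) : Set ℕ).ncard :=
          Set.ncard_le_ncard hsub (Finset.finite_toSet _)
      _ ≤ r := by
          rw [Set.ncard_coe_finset]
          exact Finset.card_image_le.trans (by rw [card_range])
  · have : Set.range m ∩ Set.Ico M (2 * M) = ∅ := by
      ext x
      simp only [Set.mem_inter_iff, Set.mem_range, Set.mem_Ico, Set.mem_empty_iff_false,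
        iff_false, not_and]
      rintro ⟨j, rfl⟩ h1 h2
      exact hne ⟨j, h1, h2⟩
    rw [this]
    simp

/-- A sparse set is contained in the range of a sequence with gaps. -/
theorem Sparse.exists_gap {A : Set ℕ} (hA : Sparse A) :
    ∃ (lam : ℕ → ℕ) (r : ℕ), Gap lam r ∧ A ⊆ Set.range lam := by
  have h2 : Sparse (Set.range fun n : ℕ => 2 ^ n) := by
    refine sparse_of_gaps (q := 2) (by norm_num) fun j => ?_
    push_cast
    rw [pow_succ]
    linarith
  obtain ⟨r, hr⟩ := hA.union h2
  set B := A ∪ Set.range fun n : ℕ => 2 ^ n with hB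
  have hinf : (Set.ofPred (· ∈ B)).Infinite := by
    have h3 : (Set.range fun n : ℕ => 2 ^ n).Infinite :=
      Set.infinite_range_of_injective (Nat.pow_right_injective le_rfl)
    exact h3.mono Set.subset_union_right
  refine ⟨Nat.nth (· ∈ B), r, ⟨Nat.nth_strictMono hinf, fun j => ?_⟩, ?_⟩
  · by_contra hlt
    push Not at hlt
    set M := Nat.nth (· ∈ B) j with hM
    have hM1 : 1 ≤ M := by omega
    have h4 := hr M hM1
    have h5 : (((range (r + 1)).image fun i => Nat.nth (· ∈ B) (j + i) : Finset ℕ) : Set ℕ) ⊆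
        B ∩ Set.Ico M (2 * M) := by
      intro x hx
      rw [Finset.coe_image] at hx
      obtain ⟨i, hi, rfl⟩ := hx
      rw [Finset.mem_coe, mem_range] at hi
      refine ⟨Nat.nth_mem_of_infinite hinf _, ?_, ?_⟩
      · exact (Nat.nth_strictMono hinf).monotone (by omega)
      · exact lt_of_le_of_lt ((Nat.nth_strictMono hinf).monotone (by omega)) hlt
    have h6 := Set.ncard_le_ncard h5 ((Set.finite_Ico _ _).subset Set.inter_subset_right)
    rw [Set.ncard_coe_finset, Finset.card_image_of_injective _ (fun a b hab => by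
      have := (Nat.nth_strictMono hinf).injective hab
      omega), card_range] at h6
    omega
  · rw [Nat.range_nth_of_infinite hinf]
    exact Set.subset_union_left

end Pool.Agent.TH600.LC
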