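import Pool.Agent.TH600.LC.Rep

/-!
# Two scales: Taylor expansion and supports
-/

namespace Pool.Agent.TH600.LC

open Finset

set_option linter.unusedSectionVars false

variable {R : Type*} [CommRing R] {ι : Type*} [Fintype ι] [DecidableEq ι]

theorem weight_one_eq {κ : Type*} (γ : κ →₀ ℕ) : Finsupp.weight (1 : κ → ℕ) γ = γ.degree := by
  rw [Finsupp.degree_eq_weight_one]; rfl

/-- The part with indices in `s` of the series `∑ β_j X^(lam j)`. -/
noncomputable def part (lam : ℕ → ℕ) (β : ℕ → ι → R) (s : Finset ℕ) (i : ι) : Polynomial R :=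
  ∑ j ∈ s, Polynomial.monomial (lam j) (β j i)

/-- The part with indices in `s` in a second variable `Y`, with coefficients in polynomials. -/
noncomputable def yp (lam : ℕ → ℕ) (β : ℕ → ι → R) (s : Finset ℕ) (i : ι) :
    Polynomial (MvPolynomial ι (Polynomial R)) :=
  ∑ j ∈ s, Polynomial.monomial (lam j) (MvPolynomial.C (Polynomial.C (β j i)))

/-- `S(x + y)` where `y` is the part with indices in `s`, in the variable `Y`. -/
noncomputable def Th (lam : ℕ → ℕ) (β : ℕ → ι → R) (s : Finset ℕ) :
    MvPolynomial ι (Polynomial R) →+* Polynomial (MvPolynomial ι (Polynomial R)) :=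
  MvPolynomial.eval₂Hom (Polynomial.C.comp MvPolynomial.C)
    (fun i => Polynomial.C (MvPolynomial.X i) + yp lam β s i)

/-- `S(small + y)`. -/
noncomputable def Xi (lam : ℕ → ℕ) (β : ℕ → ι → R) (s : Finset ℕ) (small : ι → Polynomial R) :
    MvPolynomial ι (Polynomial R) →+* Polynomial (Polynomial R) :=
  MvPolynomial.eval₂Hom Polynomial.C
    (fun i => Polynomial.C (small i) + ∑ j ∈ s, Polynomial.monomial (lam j) (Polynomial.C (β j i)))

/-- Evaluation at polynomials in `X`. -/
noncomputable def ev (g : ι → Polynomial R) : MvPolynomial ι (Polynomial R) →+* Polynomial R :=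
  MvPolynomial.eval₂Hom (RingHom.id _) g

theorem Xi_eq (lam : ℕ → ℕ) (β : ℕ → ι → R) (s : Finset ℕ) (small : ι → Polynomial R)
    (S : MvPolynomial ι (Polynomial R)) :
    Polynomial.map (ev small) (Th lam β s S) = Xi lam β s small S := by
  have : (Polynomial.mapRingHom (ev small)).comp (Th lam β s) = Xi lam β s small := by
    apply MvPolynomial.ringHom_ext
    · intro r
      simp [Th, Xi, ev]
    · intro i
      simp [Th, Xi, ev, yp, Polynomial.map_sum]
  exact DFunLike.congr_fun this S

theorem coeff_Xi (lam : ℕ → ℕ) (β : ℕ → ι → R) (s : Finset ℕ) (small : ι → Polynomial R)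
    (S : MvPolynomial ι (Polynomial R)) (N : ℕ) :
    (Xi lam β s small S).coeff N = ev small ((Th lam β s S).coeff N) := by
  rw [← Xi_eq, Polynomial.coeff_map]

theorem eval_Xi (lam : ℕ → ℕ) (β : ℕ → ι → R) (s : Finset ℕ) (small : ι → Polynomial R)
    (S : MvPolynomial ι (Polynomial R)) :
    Polynomial.eval Polynomial.X (Xi lam β s small S) =
      ev (fun i => small i + part lam β s i) S := by
  have : (Polynomial.evalRingHom (Polynomial.X : Polynomial R)).comp (Xi lam β s small) =
      ev (fun i => small i + part lam β s i) := by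
    apply MvPolynomial.ringHom_ext
    · intro r
      simp [Xi, ev]
    · intro i
      simp only [Xi, ev, part, RingHom.comp_apply, MvPolynomial.coe_eval₂Hom,
        MvPolynomial.eval₂_X, Polynomial.coe_evalRingHom, Polynomial.eval_add,
        Polynomial.eval_C, Polynomial.eval_finsetSum, Polynomial.eval_monomial]
      simp only [Polynomial.C_mul_X_pow_eq_monomial]
  exact DFunLike.congr_fun this S

/-! ### Supports -/

/-- Coefficients of `X^a Y^N` vanish unless `(a, N)` comes from a multiset of at most `m` indices. -/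
def Supp (lam : ℕ → ℕ) (H D m : ℕ) (P : Polynomial (Polynomial R)) : Prop :=
  ∀ N a, (P.coeff N).coeff a ≠ 0 → ∃ μ : ℕ →₀ ℕ, μ.degree ≤ m ∧
    wt lam (μ.filter (fun k => H ≤ k)) = N ∧ wt lam μ ≤ a + N ∧ a + N ≤ wt lam μ + D

variable {lam : ℕ → ℕ} {H : ℕ}

theorem Supp.mono {D m D' m' : ℕ} {P : Polynomial (Polynomial R)} (hP : Supp lam H D m P)
    (hD : D ≤ D') (hm : m ≤ m') : Supp lam H D' m' P := by
  intro N a hne
  obtain ⟨μ, h1, h2, h3, h4⟩ := hP N a hne
  exact ⟨μ, h1.trans hm, h2, h3, h4.trans (by omega)⟩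

theorem Supp.zero (D m : ℕ) : Supp lam H D m (0 : Polynomial (Polynomial R)) := by
  intro N a hne
  simp at hne

theorem Supp.add {D m : ℕ} {P Q : Polynomial (Polynomial R)} (hP : Supp lam H D m P)
    (hQ : Supp lam H D m Q) : Supp lam H D m (P + Q) := by
  intro N a hne
  rw [Polynomial.coeff_add, Polynomial.coeff_add] at hne
  by_cases h : (P.coeff N).coeff a = 0
  · rw [h, zero_add] at hne
    exact hQ N a hne
  · exact hP N a h

theorem Supp.sum {D m : ℕ} {α : Type*} (s : Finset α) (P : α → Polynomial (Polynomial R))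
    (hP : ∀ j ∈ s, Supp lam H D m (P j)) : Supp lam H D m (∑ j ∈ s, P j) := by
  classical
  induction s using Finset.induction_on with
  | empty => simpa using Supp.zero D m
  | insert a s ha ih =>
    rw [Finset.sum_insert ha]
    exact (hP a (Finset.mem_insert_self _ _)).add
      (ih fun j hj => hP j (Finset.mem_insert_of_mem hj))

theorem Supp.mul {D m D' m' : ℕ} {P Q : Polynomial (Polynomial R)} (hP : Supp lam H D m P)
    (hQ : Supp lam H D' m' Q) : Supp lam H (D + D') (m + m') (P * Q) := by
  intro N a hne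
  rw [Polynomial.coeff_mul, Polynomial.finsetSum_coeff] at hne
  obtain ⟨x, hx, hx'⟩ := Finset.exists_ne_zero_of_sum_ne_zero hne
  rw [Polynomial.coeff_mul] at hx'
  obtain ⟨y, hy, hy'⟩ := Finset.exists_ne_zero_of_sum_ne_zero hx'
  obtain ⟨μ, h1, h2, h3, h4⟩ := hP x.1 y.1 (left_ne_zero_of_mul hy')
  obtain ⟨ν, g1, g2, g3, g4⟩ := hQ x.2 y.2 (right_ne_zero_of_mul hy')
  rw [Finset.HasAntidiagonal.mem_antidiagonal] at hx hy
  refine ⟨μ + ν, ?_, ?_, ?_, ?_⟩
  · rw [map_add]; omega
  · rw [Finsupp.filter_add, map_add]; omega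
  · rw [map_add]; omega
  · rw [map_add]; omega

theorem Supp.C {D : ℕ} {s : Polynomial R} (hs : s.natDegree ≤ D) :
    Supp lam H D 0 (Polynomial.C s) := by
  intro N a hne
  rw [Polynomial.coeff_C] at hne
  by_cases hN : N = 0
  · subst hN
    rw [if_pos rfl] at hne
    have := Polynomial.le_natDegree_of_ne_zero hne
    refine ⟨0, by rw [map_zero], by rw [Finsupp.filter_zero, map_zero], by rw [map_zero]; omega,
      by rw [map_zero]; omega⟩
  · rw [if_neg hN] at hne; simp at hne

theorem Supp.one : Supp lam H 0 0 (1 : Polynomial (Polynomial R)) := by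
  have := Supp.C (lam := lam) (H := H) (D := 0) (s := (1 : Polynomial R)) (by simp)
  simpa using this

theorem Supp.pow {P : Polynomial (Polynomial R)} (hP : Supp lam H 0 1 P) (n : ℕ) :
    Supp lam H 0 n (P ^ n) := by
  induction n with
  | zero => simpa using Supp.one
  | succ n ih => rw [pow_succ]; exact ih.mul hP

theorem Supp.prod {κ : Type*} (t : Finset κ) (P : κ → Polynomial (Polynomial R)) (n : κ → ℕ)
    (hP : ∀ i, Supp lam H 0 1 (P i)) : Supp lam H 0 (∑ i ∈ t, n i) (∏ i ∈ t, P i ^ n i) := by
  classical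
  induction t using Finset.induction_on with
  | empty => simpa using Supp.one
  | insert a s ha ih =>
    rw [Finset.prod_insert ha, Finset.sum_insert ha]
    exact ((hP a).pow _).mul ih

theorem Supp.gen (β : ℕ → ι → R) {s : Finset ℕ} (hs : ∀ j ∈ s, H ≤ j) (i : ι) :
    Supp lam H 0 1 (Polynomial.C (part lam β (range H) i) +
      ∑ j ∈ s, Polynomial.monomial (lam j) (Polynomial.C (β j i))) := by
  refine Supp.add ?_ (Supp.sum _ _ fun j hj => ?_)
  · intro N a hne
    rw [Polynomial.coeff_C] at hne
    by_cases hN : N = 0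
    · subst hN
      rw [if_pos rfl, part, Polynomial.finsetSum_coeff] at hne
      obtain ⟨j, hj, hj'⟩ := Finset.exists_ne_zero_of_sum_ne_zero hne
      rw [Polynomial.coeff_monomial] at hj'
      have hja : lam j = a := by
        by_contra hc
        rw [if_neg hc] at hj'
        exact hj' rfl
      refine ⟨Finsupp.single j 1, by rw [Finsupp.degree_single], ?_, ?_, ?_⟩
      · rw [Finsupp.filter_single_of_neg _ (by rw [mem_range] at hj; omega), map_zero]
      · rw [wt_single]; omega
      · rw [wt_single]; omega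
    · rw [if_neg hN] at hne; simp at hne
  · intro N a hne
    rw [Polynomial.coeff_monomial] at hne
    by_cases hN : lam j = N
    · subst hN
      rw [if_pos rfl, Polynomial.coeff_C] at hne
      have ha : a = 0 := by
        by_contra hc
        rw [if_neg hc] at hne
        exact hne rfl
      subst ha
      refine ⟨Finsupp.single j 1, by rw [Finsupp.degree_single], ?_, ?_, ?_⟩
      · rw [Finsupp.filter_single_of_pos _ (hs j hj), wt_single]
      · rw [wt_single]; omega
      · rw [wt_single]; omega
    · rw [if_neg hN] at hne; simp at hne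

theorem supp_Xi (β : ℕ → ι → R) {s : Finset ℕ} (hs : ∀ j ∈ s, H ≤ j) {D d : ℕ}
    {S : MvPolynomial ι (Polynomial R)} (hD : ∀ α, (S.coeff α).natDegree ≤ D)
    (hd : S.totalDegree ≤ d) :
    Supp lam H D d (Xi lam β s (part lam β (range H)) S) := by
  rw [Xi, MvPolynomial.coe_eval₂Hom, MvPolynomial.eval₂_eq']
  refine Supp.sum _ _ fun α hα => ?_
  have h1 := (Supp.C (lam := lam) (H := H) (hD α)).mul
    (Supp.prod univ _ (fun i => α i) (fun i => Supp.gen (lam := lam) (H := H) β hs i))
  refine h1.mono (by omega) ?_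
  have h2 := MvPolynomial.le_totalDegree hα
  rw [Finsupp.sum_fintype _ _ (fun _ => rfl)] at h2
  omega

/-! ### Taylor expansion -/

/-- All monomials in `x` of the coefficients have degree at most `m - 2`. -/
def Lo (m : ℕ) (P : Polynomial (MvPolynomial ι (Polynomial R))) : Prop :=
  ∀ N α, (P.coeff N).coeff α ≠ 0 → α.degree + 2 ≤ m

theorem Lo.mono {m m' : ℕ} {P : Polynomial (MvPolynomial ι (Polynomial R))} (hP : Lo m P)
    (h : m ≤ m') : Lo m' P := fun N α hne => (hP N α hne).trans h

theorem Lo.zero (m : ℕ) : Lo m (0 : Polynomial (MvPolynomial ι (Polynomial R))) := by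
  intro N α hne
  simp at hne

theorem Lo.add {m : ℕ} {P Q : Polynomial (MvPolynomial ι (Polynomial R))} (hP : Lo m P)
    (hQ : Lo m Q) : Lo m (P + Q) := by
  intro N α hne
  rw [Polynomial.coeff_add, MvPolynomial.coeff_add] at hne
  by_cases h : (P.coeff N).coeff α = 0
  · rw [h, zero_add] at hne
    exact hQ N α hne
  · exact hP N α h

theorem Lo.sum {m : ℕ} {κ : Type*} (s : Finset κ)
    (P : κ → Polynomial (MvPolynomial ι (Polynomial R)))
    (hP : ∀ j ∈ s, Lo m (P j)) : Lo m (∑ j ∈ s, P j) := by
  classical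
  induction s using Finset.induction_on with
  | empty => simpa using Lo.zero m
  | insert a s ha ih =>
    rw [Finset.sum_insert ha]
    exact (hP a (Finset.mem_insert_self _ _)).add
      (ih fun j hj => hP j (Finset.mem_insert_of_mem hj))

theorem Lo.C_X_mul {m : ℕ} {P : Polynomial (MvPolynomial ι (Polynomial R))} (hP : Lo m P)
    (i : ι) : Lo (m + 1) (Polynomial.C (MvPolynomial.X i) * P) := by
  intro N α hne
  rw [Polynomial.coeff_C_mul, mul_comm, MvPolynomial.coeff_mul_X'] at hne
  split_ifs at hne with h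
  · have h1 := hP N _ hne
    have h2 : Finsupp.single i 1 ≤ α := by
      rw [Finsupp.single_le_iff]
      exact Nat.one_le_iff_ne_zero.2 (Finsupp.mem_support_iff.1 h)
    have h3 : α.degree = (α - Finsupp.single i 1).degree + 1 := by
      conv_lhs => rw [← tsub_add_cancel_of_le h2, map_add, Finsupp.degree_single]
    omega
  · exact absurd rfl hne

theorem Lo.monomial_mul {m : ℕ} {P : Polynomial (MvPolynomial ι (Polynomial R))} (hP : Lo m P)
    (n : ℕ) (c : Polynomial R) :
    Lo m (Polynomial.monomial n (MvPolynomial.C c) * P) := by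
  intro N α hne
  rw [← Polynomial.C_mul_X_pow_eq_monomial, mul_assoc, Polynomial.coeff_C_mul,
    MvPolynomial.coeff_C_mul, Polynomial.coeff_X_pow_mul'] at hne
  split_ifs at hne with h
  · exact hP _ α (right_ne_zero_of_mul hne)
  · simp at hne

theorem Lo.yp_mul (lam : ℕ → ℕ) (β : ℕ → ι → R) (s : Finset ℕ) {m : ℕ}
    {P : Polynomial (MvPolynomial ι (Polynomial R))} (hP : Lo m P)
    (i : ι) : Lo m (yp lam β s i * P) := by
  rw [yp, Finset.sum_mul]
  exact Lo.sum _ _ fun j _ => hP.monomial_mul _ _

/-- The first order term `∑ y_i ∂_i S`. -/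
noncomputable def Dy (lam : ℕ → ℕ) (β : ℕ → ι → R) (s : Finset ℕ)
    (S : MvPolynomial ι (Polynomial R)) : Polynomial (MvPolynomial ι (Polynomial R)) :=
  ∑ i, yp lam β s i * Polynomial.C (MvPolynomial.pderiv i S)

theorem lo_taylor_aux (lam : ℕ → ℕ) (β : ℕ → ι → R) (s : Finset ℕ) (γ : ι →₀ ℕ)
    (a : Polynomial R) :
    ∃ m T, (MvPolynomial.monomial γ a).IsHomogeneous m ∧ Lo m T ∧
      Th lam β s (MvPolynomial.monomial γ a) = Polynomial.C (MvPolynomial.monomial γ a)
        + Dy lam β s (MvPolynomial.monomial γ a) + T := by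
  refine MvPolynomial.induction_on_monomial
    (motive := fun S => ∃ m T, S.IsHomogeneous m ∧ Lo m T ∧
      Th lam β s S = Polynomial.C S + Dy lam β s S + T) ?_ ?_ γ a
  · intro c
    refine ⟨0, 0, MvPolynomial.isHomogeneous_C _ _, Lo.zero 0, ?_⟩
    have h1 : Th lam β s (MvPolynomial.C c) = Polynomial.C (MvPolynomial.C c) := by simp [Th]
    have h2 : Dy lam β s (MvPolynomial.C c) = 0 := by simp [Dy]
    rw [h1, h2, add_zero, add_zero]
  · rintro p i ⟨m, T, hm, hlo, hT⟩
    refine ⟨m + 1, Polynomial.C (MvPolynomial.X i) * T + yp lam β s i * T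
      + yp lam β s i * Dy lam β s p, hm.mul (MvPolynomial.isHomogeneous_X _ _), ?_, ?_⟩
    · refine ((hlo.C_X_mul i).add ((hlo.mono (Nat.le_succ m)).yp_mul lam β s i)).add ?_
      refine Lo.yp_mul lam β s ?_ i
      refine Lo.sum _ _ fun j _ => Lo.yp_mul lam β s ?_ j
      intro N α hne
      rw [Polynomial.coeff_C] at hne
      by_cases hN : N = 0
      · subst hN
        rw [if_pos rfl, MvPolynomial.coeff_pderiv] at hne
        have h1 := left_ne_zero_of_mul hne
        have h2 := hm h1
        rw [weight_one_eq, map_add, Finsupp.degree_single] at h2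
        omega
      · rw [if_neg hN] at hne; simp at hne
    · have e1 : Th lam β s (p * MvPolynomial.X i) =
          Th lam β s p * (Polynomial.C (MvPolynomial.X i) + yp lam β s i) := by
        rw [map_mul]
        congr 1
        simp [Th]
      have e2 : Dy lam β s (p * MvPolynomial.X i) =
          Polynomial.C (MvPolynomial.X i) * Dy lam β s p + yp lam β s i * Polynomial.C p := by
        unfold Dy
        rw [Finset.mul_sum]
        have : ∀ j, yp lam β s j * Polynomial.C (MvPolynomial.pderiv j (p * MvPolynomial.X i)) =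
            Polynomial.C (MvPolynomial.X i) *
              (yp lam β s j * Polynomial.C (MvPolynomial.pderiv j p)) +
            (if j = i then yp lam β s i * Polynomial.C p else 0) := by
          intro j
          rw [MvPolynomial.pderiv_mul, MvPolynomial.pderiv_X]
          by_cases hj : j = i
          · subst hj
            simp only [Pi.single_eq_same, mul_one, if_true, map_add, map_mul]
            ring
          · rw [Pi.single_eq_of_ne (Ne.symm hj), if_neg hj]
            simp only [mul_zero, add_zero, map_mul]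
            ring
        rw [Finset.sum_congr rfl fun j _ => this j, Finset.sum_add_distrib]
        congr 1
        rw [Finset.sum_ite_eq' univ i]
        simp
      rw [e1, e2, hT, map_mul]
      ring

theorem lo_taylor (lam : ℕ → ℕ) (β : ℕ → ι → R) (s : Finset ℕ)
    {S : MvPolynomial ι (Polynomial R)} {d : ℕ} (hd : S.totalDegree ≤ d) :
    ∃ T, Lo d T ∧ Th lam β s S = Polynomial.C S + Dy lam β s S + T := by
  choose m T hm hlo hT using fun γ : ι →₀ ℕ => lo_taylor_aux lam β s γ (S.coeff γ)
  refine ⟨∑ γ ∈ S.support, T γ, Lo.sum _ _ fun γ hγ => ?_, ?_⟩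
  · refine (hlo γ).mono ?_
    have h1 : (MvPolynomial.monomial γ (S.coeff γ)).coeff γ ≠ 0 := by
      rw [MvPolynomial.coeff_monomial, if_pos rfl]
      exact MvPolynomial.mem_support_iff.1 hγ
    have h2 := hm γ h1
    rw [weight_one_eq] at h2
    have h3 := MvPolynomial.le_totalDegree hγ
    rw [← h2]
    exact le_trans (le_of_eq rfl) (h3.trans hd)
  · have hD : Dy lam β s S = ∑ γ ∈ S.support,
        Dy lam β s (MvPolynomial.monomial γ (S.coeff γ)) := by
      unfold Dy
      rw [Finset.sum_comm]
      refine Finset.sum_congr rfl fun i _ => ?_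
      rw [← Finset.mul_sum, ← map_sum, ← map_sum, MvPolynomial.support_sum_monomial_coeff]
    rw [hD]
    conv_lhs => rw [← MvPolynomial.support_sum_monomial_coeff S, map_sum]
    rw [Finset.sum_congr rfl fun γ _ => hT γ, Finset.sum_add_distrib, Finset.sum_add_distrib,
      ← map_sum, MvPolynomial.support_sum_monomial_coeff]

/-- Coefficients of `S(x+y)` of positive order in `Y` and of degree at least `d - 1` in `x`. -/
theorem coeff_Th (lam : ℕ → ℕ) (β : ℕ → ι → R) (s : Finset ℕ)
    {S : MvPolynomial ι (Polynomial R)} {d : ℕ} (hd : S.totalDegree ≤ d) {N : ℕ} (hN : N ≠ 0)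
    {α : ι →₀ ℕ} (hα : d ≤ α.degree + 1) :
    ((Th lam β s S).coeff N).coeff α =
      ∑ j ∈ s with lam j = N, ∑ i, Polynomial.C (β j i) *
        (S.coeff (α + Finsupp.single i 1) * ((α i : Polynomial R) + 1)) := by
  obtain ⟨T, hlo, hT⟩ := lo_taylor lam β s hd
  have h1 : (T.coeff N).coeff α = 0 := by
    by_contra hne
    have := hlo N α hne
    omega
  rw [hT, Polynomial.coeff_add, Polynomial.coeff_add, Polynomial.coeff_C, if_neg hN, zero_add,
    MvPolynomial.coeff_add, h1, add_zero, Dy, Polynomial.finsetSum_coeff, MvPolynomial.coeff_sum]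
  have h2 : ∀ i, ((yp lam β s i * Polynomial.C (MvPolynomial.pderiv i S)).coeff N).coeff α =
      ∑ j ∈ s with lam j = N, Polynomial.C (β j i) *
        (S.coeff (α + Finsupp.single i 1) * ((α i : Polynomial R) + 1)) := by
    intro i
    rw [Polynomial.coeff_mul_C, yp, Polynomial.finsetSum_coeff, Finset.sum_mul,
      MvPolynomial.coeff_sum, Finset.sum_filter]
    refine Finset.sum_congr rfl fun j _ => ?_
    rw [Polynomial.coeff_monomial]
    split_ifs with h
    · rw [MvPolynomial.coeff_C_mul, MvPolynomial.coeff_pderiv]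
    · simp
  rw [Finset.sum_congr rfl fun i _ => h2 i, Finset.sum_comm]

end Pool.Agent.TH600.LC
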