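import Pool.Agent.TH600.LC.Tay

/-!
# The window polynomial
-/

namespace Pool.Agent.TH600.LC

open Finset

set_option linter.unusedSectionVars false

variable {R : Type*} [CommRing R] {ι : Type*} [Fintype ι] [DecidableEq ι]

/-- The polynomial which describes the coefficients of `S(g)` around the exponent `L`. -/
noncomputable def Win (lam : ℕ → ℕ) (β : ℕ → ι → R) (s : Finset ℕ)
    (S : MvPolynomial ι (Polynomial R)) (L K : ℕ) : MvPolynomial ι (Polynomial R) :=
  ∑ N ∈ Icc (L - K) (L + K), MvPolynomial.C (Polynomial.X ^ (N + K - L)) *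
    (Th lam β s S).coeff N

/-- The sum of all contributions to the exponent `n`. -/
theorem coeff_eval_Xi (lam : ℕ → ℕ) (β : ℕ → ι → R) (s : Finset ℕ) (small : ι → Polynomial R)
    (S : MvPolynomial ι (Polynomial R)) (n M : ℕ)
    (hM : (Xi lam β s small S).natDegree < M) :
    (ev (fun i => small i + part lam β s i) S).coeff n =
      ∑ N ∈ range M, if N ≤ n then ((Xi lam β s small S).coeff N).coeff (n - N) else 0 := by
  rw [← eval_Xi, Polynomial.eval_eq_sum_range' hM, Polynomial.finsetSum_coeff]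
  refine Finset.sum_congr rfl fun N _ => ?_
  rw [Polynomial.coeff_mul_X_pow']

theorem coeff_ev_Win (lam : ℕ → ℕ) (β : ℕ → ι → R) (s : Finset ℕ) (small : ι → Polynomial R)
    (S : MvPolynomial ι (Polynomial R)) {L K : ℕ} (hKL : K ≤ L) (t : ℕ) :
    (ev small (Win lam β s S L K)).coeff t =
      ∑ N ∈ Icc (L - K) (L + K), if N ≤ L - K + t then
        ((Xi lam β s small S).coeff N).coeff (L - K + t - N) else 0 := by
  rw [Win, map_sum, Polynomial.finsetSum_coeff]
  refine Finset.sum_congr rfl fun N hN => ?_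
  rw [map_mul, ← coeff_Xi]
  have : ev small (MvPolynomial.C (Polynomial.X ^ (N + K - L))) =
      (Polynomial.X ^ (N + K - L) : Polynomial R) := by simp [ev]
  rw [this, Polynomial.coeff_X_pow_mul']
  rw [mem_Icc] at hN
  by_cases h : N ≤ L - K + t
  · rw [if_pos h, if_pos (by omega)]
    congr 1
    omega
  · rw [if_neg h, if_neg (by omega)]

/-- In the window the coefficients of `S(g)` are those of the window polynomial. -/
theorem coeff_Win {lam : ℕ → ℕ} {β : ℕ → ι → R} {s : Finset ℕ} {H : ℕ} (hs : ∀ j ∈ s, H ≤ j)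
    {S : MvPolynomial ι (Polynomial R)} {D d : ℕ} (hD : ∀ α, (S.coeff α).natDegree ≤ D)
    (hd : S.totalDegree ≤ d) {L K K' : ℕ} (hKL : K ≤ L)
    (hrep : ∀ μ : ℕ →₀ ℕ, μ.degree ≤ d →
      |(wt lam μ : ℤ) - L| ≤ ((K + D + K' : ℕ) : ℤ) →
      |(wt lam (μ.filter (fun k => H ≤ k)) : ℤ) - L| ≤ (K : ℤ))
    {t : ℕ} (ht : t ≤ K' + K) :
    (ev (part lam β (range H)) (Win lam β s S L K)).coeff t =
      (ev (fun i => part lam β (range H) i + part lam β s i) S).coeff (L - K + t) := by
  set small := part lam β (range H) with hsmall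
  set M := max ((Xi lam β s small S).natDegree + 1) (L + K + 1) with hM
  rw [coeff_eval_Xi lam β s small S _ M (by omega), coeff_ev_Win lam β s small S hKL t]
  refine Finset.sum_subset ?_ ?_
  · intro N hN
    rw [mem_Icc] at hN
    rw [mem_range]
    omega
  · intro N _ hN
    split_ifs with hle
    · by_contra hne
      obtain ⟨μ, h1, h2, h3, h4⟩ := supp_Xi β hs hD hd N _ hne
      have h5 := hrep μ h1 (by
        rw [abs_le]
        constructor <;> push_cast <;> omega)
      rw [h2] at h5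
      rw [abs_le] at h5
      apply hN
      rw [mem_Icc]
      omega
    · rfl

/-- Coefficients of the window polynomial have bounded degree in `X`. -/
theorem natDegree_coeff_eval₂ {τ : Type*} (f : τ → MvPolynomial ι (Polynomial R)) (D : ℕ)
    (s : Finset τ) (h : ∀ j ∈ s, ∀ α, ((f j).coeff α).natDegree ≤ D) (α : ι →₀ ℕ) :
    ((∑ j ∈ s, f j).coeff α).natDegree ≤ D := by
  rw [MvPolynomial.coeff_sum]
  exact Polynomial.natDegree_sum_le_of_forall_le _ _ fun j hj => h j hj α

/-- all coefficients have degree at most `D` in `X` -/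
def XDeg (D : ℕ) (P : Polynomial (MvPolynomial ι (Polynomial R))) : Prop :=
  ∀ N α, ((P.coeff N).coeff α).natDegree ≤ D

theorem XDeg.add {D : ℕ} {P Q : Polynomial (MvPolynomial ι (Polynomial R))} (hP : XDeg D P)
    (hQ : XDeg D Q) : XDeg D (P + Q) := by
  intro N α
  rw [Polynomial.coeff_add, MvPolynomial.coeff_add]
  exact (Polynomial.natDegree_add_le _ _).trans (max_le (hP N α) (hQ N α))

theorem XDeg.sum {D : ℕ} {κ : Type*} (s : Finset κ)
    (P : κ → Polynomial (MvPolynomial ι (Polynomial R)))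
    (hP : ∀ j ∈ s, XDeg D (P j)) : XDeg D (∑ j ∈ s, P j) := by
  intro N α
  rw [Polynomial.finsetSum_coeff, MvPolynomial.coeff_sum]
  exact Polynomial.natDegree_sum_le_of_forall_le _ _ fun j hj => hP j hj N α

theorem XDeg.mul {D D' : ℕ} {P Q : Polynomial (MvPolynomial ι (Polynomial R))} (hP : XDeg D P)
    (hQ : XDeg D' Q) : XDeg (D + D') (P * Q) := by
  intro N α
  rw [Polynomial.coeff_mul, MvPolynomial.coeff_sum]
  refine Polynomial.natDegree_sum_le_of_forall_le _ _ fun x _ => ?_
  rw [MvPolynomial.coeff_mul]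
  refine Polynomial.natDegree_sum_le_of_forall_le _ _ fun y _ => ?_
  exact Polynomial.natDegree_mul_le.trans (add_le_add (hP _ _) (hQ _ _))

theorem XDeg.one : XDeg 0 (1 : Polynomial (MvPolynomial ι (Polynomial R))) := by
  intro N α
  rw [Polynomial.coeff_one]
  split_ifs
  · rw [MvPolynomial.coeff_one]
    split_ifs <;> simp
  · simp

theorem XDeg.pow {P : Polynomial (MvPolynomial ι (Polynomial R))} (hP : XDeg 0 P) (n : ℕ) :
    XDeg 0 (P ^ n) := by
  induction n with
  | zero => simpa using XDeg.one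
  | succ n ih => rw [pow_succ]; exact ih.mul hP

theorem XDeg.prod {κ : Type*} (t : Finset κ)
    (P : κ → Polynomial (MvPolynomial ι (Polynomial R))) (n : κ → ℕ)
    (hP : ∀ i, XDeg 0 (P i)) : XDeg 0 (∏ i ∈ t, P i ^ n i) := by
  classical
  induction t using Finset.induction_on with
  | empty => simpa using XDeg.one
  | insert a s ha ih =>
    rw [Finset.prod_insert ha]
    exact ((hP a).pow _).mul ih

theorem xdeg_Th (lam : ℕ → ℕ) (β : ℕ → ι → R) (s : Finset ℕ) {D : ℕ}
    {S : MvPolynomial ι (Polynomial R)} (hD : ∀ α, (S.coeff α).natDegree ≤ D) :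
    XDeg D (Th lam β s S) := by
  rw [Th, MvPolynomial.coe_eval₂Hom, MvPolynomial.eval₂_eq']
  refine XDeg.sum _ _ fun α _ => ?_
  have h1 : XDeg D ((Polynomial.C.comp MvPolynomial.C) (S.coeff α) :
      Polynomial (MvPolynomial ι (Polynomial R))) := by
    intro N γ
    rw [RingHom.comp_apply, Polynomial.coeff_C]
    split_ifs
    · rw [MvPolynomial.coeff_C]
      split_ifs
      · exact hD α
      · simp
    · simp
  have h2 : ∀ i, XDeg 0 (Polynomial.C (MvPolynomial.X i) + yp lam β s i :
      Polynomial (MvPolynomial ι (Polynomial R))) := by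
    intro i
    refine XDeg.add ?_ (XDeg.sum _ _ fun j _ => ?_)
    · intro N γ
      rw [Polynomial.coeff_C]
      split_ifs
      · rw [MvPolynomial.coeff_X]
        split_ifs <;> simp
      · simp
    · intro N γ
      rw [Polynomial.coeff_monomial]
      split_ifs
      · rw [MvPolynomial.coeff_C]
        split_ifs <;> simp
      · simp
  have := h1.mul (XDeg.prod univ _ (fun i => α i) h2)
  simpa using this

theorem natDegree_coeff_Win (lam : ℕ → ℕ) (β : ℕ → ι → R) (s : Finset ℕ) {D : ℕ}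
    {S : MvPolynomial ι (Polynomial R)} (hD : ∀ α, (S.coeff α).natDegree ≤ D) (L K : ℕ)
    (α : ι →₀ ℕ) : ((Win lam β s S L K).coeff α).natDegree ≤ D + 2 * K := by
  refine natDegree_coeff_eval₂ _ _ _ (fun N hN γ => ?_) α
  rw [MvPolynomial.coeff_C_mul]
  refine Polynomial.natDegree_mul_le.trans ?_
  have h1 : (Polynomial.X ^ (N + K - L) : Polynomial R).natDegree ≤ 2 * K := by
    refine (Polynomial.natDegree_X_pow_le _).trans ?_
    rw [mem_Icc] at hN
    omega
  have h2 := xdeg_Th lam β s hD N γ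
  omega

/-- The coefficients of degree `≥ d - 1` in `x` of the window polynomial. -/
theorem coeff_Win_top (lam : ℕ → ℕ) (β : ℕ → ι → R) (s : Finset ℕ)
    {S : MvPolynomial ι (Polynomial R)} {d : ℕ} (hd : S.totalDegree ≤ d) {L K : ℕ}
    (hK : K < L) {α : ι →₀ ℕ} (hα : d ≤ α.degree + 1) :
    (Win lam β s S L K).coeff α =
      ∑ j ∈ s with lam j ∈ Icc (L - K) (L + K), Polynomial.X ^ (lam j + K - L) *
        ∑ i, Polynomial.C (β j i) *
          (S.coeff (α + Finsupp.single i 1) * ((α i : Polynomial R) + 1)) := by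
  rw [Win, MvPolynomial.coeff_sum]
  rw [← Finset.sum_fiberwise_of_maps_to (s := {j ∈ s | lam j ∈ Icc (L - K) (L + K)})
    (t := Icc (L - K) (L + K)) (g := lam) (fun j hj => (mem_filter.1 hj).2)]
  refine Finset.sum_congr rfl fun N hN => ?_
  have hN' := mem_Icc.1 hN
  rw [MvPolynomial.coeff_C_mul, coeff_Th lam β s hd (by omega) hα, Finset.mul_sum]
  have h1 : {j ∈ {j ∈ s | lam j ∈ Icc (L - K) (L + K)} | lam j = N} = {j ∈ s | lam j = N} := by
    ext j
    simp only [mem_filter]
    constructor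
    · rintro ⟨⟨h1, _⟩, h3⟩; exact ⟨h1, h3⟩
    · rintro ⟨h1, h3⟩; exact ⟨⟨h1, by rw [h3]; exact hN⟩, h3⟩
  rw [h1]
  refine Finset.sum_congr rfl fun j hj => ?_
  rw [(mem_filter.1 hj).2]

end Pool.Agent.TH600.LC
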